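import Pool.Agent.H40.KuS.Ring

/-!
# KuS-R1 RingFacts: the grading of the homogeneous coordinate ring

`comp d (mk p) = mk (cp d p)` (`comp_mk`), and the facts on `cp` are in
`Pool/Agent/H24/Ku/FGClosure.lean` (`cp_mem`, `cp_eq_self`, `cp_eq_zero`, `cp_sum`, `cp_mul`,
`coeff_cp`, `mem_homog_iff`).
* `comp_mem`, `comp_of_mem`, `comp_of_mem_ne`: write `a = mk p` (for the last two with
  `p ∈ homog X.N d`, by definition of `X.piece`).
* `exists_sum_comp`: for `a = mk p` take `n = p.totalDegree + 1`; `p = ∑ d ∈ range k, cp d p`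
  (compare coefficients, or `MvPolynomial.sum_homogeneousComponent`).
* `comp_mul`: `cp_mul` (with the factors exchanged).
* `eq_zero_of_mem_neg`: a polynomial with all degrees `= d < 0` has empty support.
* `exists_smul_one`: a polynomial in `homog X.N 0` is a constant `C c`.
* `exists_sum_xx`: `p ∈ homog X.N (d + 1)`; every monomial `m` of `p` has `m.degree = d + 1 > 0`, so some
  `m i ≠ 0`, and `monomial m c = X i * monomial (m - single i 1) c`. (Induction on the support, or
  sum over the support with a choice of `i`.)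
* `piece_finite`: `homog X.N d` is contained in the span of the finitely many monomials of degree
  `d.toNat` (e.g. `MvPolynomial.restrictDegree`/`Finsupp` antidiagonal, `Submodule.finiteDimensional_of_le`,
  or by induction on `d` from `exists_sum_xx`: the map `(Fin (N+1) → piece d) → piece (d+1)` is onto).
-/

open CategoryTheory CategoryTheory.Limits MvPolynomial

noncomputable section

namespace H40.KuS

open H24.Ku

variable {X : ProjData}

private lemma ringFacts_mem {d : ℤ} {a : X.A} : a ∈ X.piece d ↔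
    ∃ p ∈ homog X.N d, (Ideal.Quotient.mk X.I p : X.A) = a := Iff.rfl

theorem comp_mem (d : ℤ) (a : X.A) : comp d a ∈ X.piece d := by
  obtain ⟨p, rfl⟩ := Ideal.Quotient.mk_surjective a
  rw [comp_mk]
  exact ⟨cp d p, cp_mem d p, rfl⟩

theorem comp_of_mem {d : ℤ} {a : X.A} (ha : a ∈ X.piece d) : comp d a = a := by
  obtain ⟨p, hp, rfl⟩ := ringFacts_mem.1 ha
  rw [comp_mk, cp_eq_self hp]

theorem comp_of_mem_ne {d e : ℤ} {a : X.A} (ha : a ∈ X.piece d) (h : d ≠ e) : comp e a = 0 := by
  obtain ⟨p, hp, rfl⟩ := ringFacts_mem.1 ha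
  rw [comp_mk, cp_eq_zero hp h, map_zero]

theorem exists_sum_comp (a : X.A) :
    ∃ n : ℕ, ∀ k ≥ n, a = ∑ d ∈ Finset.range k, comp (d : ℤ) a := by
  obtain ⟨p, rfl⟩ := Ideal.Quotient.mk_surjective a
  refine ⟨p.totalDegree + 1, fun k hk => ?_⟩
  have h1 : p = ∑ d ∈ Finset.range k, cp (d : ℤ) p := by
    ext m
    rw [coeff_sum]
    simp only [coeff_cp]
    by_cases hm : p.coeff m = 0
    · simp [hm]
    · have h2 : m.degree ≤ p.totalDegree := by
        have := le_totalDegree (mem_support_iff.2 hm)
        simpa [Finsupp.degree_eq_sum, Finsupp.sum_fintype] using this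
      rw [Finset.sum_eq_single m.degree]
      · simp
      · intro b _ hb
        rw [if_neg]
        intro h
        exact hb (by exact_mod_cast h.symm)
      · intro h
        exact absurd (Finset.mem_range.2 (by omega)) h
  simp only [comp_mk]
  rw [← map_sum, ← h1]

theorem comp_mul {d : ℤ} {a : X.A} (ha : a ∈ X.piece d) (e : ℤ) (b : X.A) :
    comp e (a * b) = a * comp (e - d) b := by
  obtain ⟨p, hp, rfl⟩ := ringFacts_mem.1 ha
  obtain ⟨q, rfl⟩ := Ideal.Quotient.mk_surjective b
  rw [← map_mul, comp_mk, comp_mk, ← map_mul, mul_comm p q, cp_mul q hp, mul_comm]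

theorem eq_zero_of_mem_neg {d : ℤ} (hd : d < 0) {a : X.A} (ha : a ∈ X.piece d) : a = 0 := by
  obtain ⟨p, hp, rfl⟩ := ringFacts_mem.1 ha
  have h1 : p = 0 := by
    ext m
    rw [coeff_zero]
    by_contra h
    have := mem_homog_iff.1 hp m h
    omega
  rw [h1, map_zero]

theorem exists_smul_one {a : X.A} (ha : a ∈ X.piece 0) : ∃ c : ℂ, a = algebraMap ℂ X.A c := by
  obtain ⟨p, hp, rfl⟩ := ringFacts_mem.1 ha
  refine ⟨p.coeff 0, ?_⟩
  have h1 : p = C (p.coeff 0) := by
    ext m
    rw [coeff_C]
    split_ifs with h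
    · rw [h]
    · by_contra h'
      have h2 := mem_homog_iff.1 hp m h'
      have h3 : m.degree = 0 := by exact_mod_cast h2
      rw [Finsupp.degree_eq_zero_iff] at h3
      exact h h3.symm
  conv_lhs => rw [h1]
  rfl

theorem xx_mem (i : Fin (X.N + 1)) : xx i ∈ X.piece 1 := by
  refine ⟨MvPolynomial.X i, ?_, rfl⟩
  rw [SetLike.mem_coe, mem_homog_iff]
  intro m hm
  rw [coeff_X] at hm
  split_ifs at hm with h
  · rw [← h]
    simp
  · exact absurd rfl hm

private lemma ringFacts_div {N : ℕ} {d : ℤ} (hd : 0 ≤ d) {p : Pol N} (hp : p ∈ homog N (d + 1)) :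
    ∃ b : Fin (N + 1) → Pol N, (∀ i, b i ∈ homog N d) ∧ p = ∑ i, MvPolynomial.X i * b i := by
  classical
  have h0 : ∀ m : Fin (N + 1) →₀ ℕ, ∃ i : Fin (N + 1), p.coeff m ≠ 0 → m i ≠ 0 := by
    intro m
    by_cases hm : p.coeff m = 0
    · exact ⟨0, fun h => absurd hm h⟩
    · have h1 := mem_homog_iff.1 hp m hm
      by_contra h2
      push Not at h2
      have h3 : m = 0 := by
        ext i
        exact (h2 i).2
      rw [h3] at h1
      simp at h1
      omega
  choose σ hσ using h0
  have hsub : ∀ m : Fin (N + 1) →₀ ℕ, p.coeff m ≠ 0 →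
      Finsupp.single (σ m) 1 + (m - Finsupp.single (σ m) 1) = m := by
    intro m hm
    have h1 := hσ m hm
    ext j
    simp only [Finsupp.add_apply, Finsupp.tsub_apply]
    by_cases hj : σ m = j
    · rw [← hj]
      simp only [Finsupp.single_eq_same]
      omega
    · simp [Finsupp.single_eq_of_ne (Ne.symm hj)]
  refine ⟨fun i => ∑ m ∈ p.support.filter (fun m => σ m = i),
    monomial (m - Finsupp.single (σ m) 1) (p.coeff m), fun i => ?_, ?_⟩
  · refine Submodule.sum_mem _ fun m hm => ?_
    have hm' : p.coeff m ≠ 0 := mem_support_iff.1 (Finset.mem_filter.1 hm).1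
    rw [mem_homog_iff]
    intro m' h
    rw [coeff_monomial] at h
    split_ifs at h with h1
    · have h2 := mem_homog_iff.1 hp m hm'
      have h3 := congrArg Finsupp.degree (hsub m hm')
      rw [map_add, Finsupp.degree_single] at h3
      rw [← h1]
      omega
    · exact absurd rfl h
  · conv_lhs => rw [p.as_sum]
    rw [← Finset.sum_fiberwise p.support σ]
    refine Finset.sum_congr rfl fun i _ => ?_
    rw [Finset.mul_sum]
    refine Finset.sum_congr rfl fun m hm => ?_
    obtain ⟨hm1, hm2⟩ := Finset.mem_filter.1 hm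
    have hm' : p.coeff m ≠ 0 := mem_support_iff.1 hm1
    rw [MvPolynomial.X, monomial_mul, one_mul]
    rw [← hm2, hsub m hm']

theorem exists_sum_xx {d : ℤ} (hd : 0 ≤ d) {a : X.A} (ha : a ∈ X.piece (d + 1)) :
    ∃ b : Fin (X.N + 1) → X.A, (∀ i, b i ∈ X.piece d) ∧ a = ∑ i, xx i * b i := by
  obtain ⟨p, hp, rfl⟩ := ringFacts_mem.1 ha
  obtain ⟨b, hb, h⟩ := ringFacts_div hd hp
  refine ⟨fun i => Ideal.Quotient.mk X.I (b i), fun i => ⟨b i, hb i, rfl⟩, ?_⟩
  conv_lhs => rw [h]
  rw [map_sum]
  exact Finset.sum_congr rfl fun i _ => map_mul _ _ _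

instance piece_finite (d : ℤ) : Module.Finite ℂ (X.piece d) := by
  rcases lt_or_ge d 0 with hd | hd
  · have h1 : X.piece d = ⊥ := by
      rw [eq_bot_iff]
      intro a ha
      rw [Submodule.mem_bot]
      exact eq_zero_of_mem_neg hd ha
    rw [h1]
    infer_instance
  · obtain ⟨n, rfl⟩ := Int.eq_ofNat_of_zero_le hd
    clear hd
    induction n with
    | zero =>
      have h1 : X.piece ((0 : ℕ) : ℤ) ≤ LinearMap.range (Algebra.linearMap ℂ X.A) := by
        intro a ha
        obtain ⟨c, rfl⟩ := exists_smul_one (by simpa using ha)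
        exact ⟨c, rfl⟩
      exact Submodule.finiteDimensional_of_le h1
    | succ n ih =>
      let f : (Fin (X.N + 1) → X.piece (n : ℤ)) →ₗ[ℂ] X.A :=
        { toFun := fun b => ∑ i, xx i * (b i : X.A)
          map_add' := by
            intro b b'
            rw [← Finset.sum_add_distrib]
            refine Finset.sum_congr rfl fun i _ => ?_
            rw [Pi.add_apply, Submodule.coe_add, mul_add]
          map_smul' := by
            intro c b
            rw [Finset.smul_sum]
            refine Finset.sum_congr rfl fun i _ => ?_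
            rw [Pi.smul_apply, Submodule.coe_smul, mul_smul_comm, RingHom.id_apply] }
      have h1 : X.piece ((n + 1 : ℕ) : ℤ) ≤ LinearMap.range f := by
        intro a ha
        push_cast at ha
        obtain ⟨b, hb, h⟩ := exists_sum_xx (by omega) ha
        exact ⟨fun i => ⟨b i, hb i⟩, h.symm⟩
      exact Submodule.finiteDimensional_of_le h1

end H40.KuS
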