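import Pool.Agent.H40.KuS.Frac
import Pool.Agent.H40.KuS.RingFacts

/-!
# KuS-GEN Gen: generation in one degree

`M` is generated by finitely many elements, of degrees `≤ k` (`M.property.2.2 : FG X M.obj`; see
`exists_epi_freeSum` in `H24/Ku/Free.lean` for how it is used).

* `gen_step`: for `k ≤ m.deg`, every element of `M_{m+1}` is `∑ i, xx i * y_i` with `y_i ∈ M_m`: it is `∑ a_j x_j`
  with `a_j ∈ A_{m+1-g_j}`, `m - g_j ≥ 0`, and `a_j = ∑ xx i * b_i` (`exists_sum_xx`).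
* `exists_epi_sum`: let `k ≤ n.deg`. `M_n` is finite dimensional (as in `finite_obj`, file `S1Fin.lean`; it may be
  imported from there), let `b_1, …, b_r` be a spanning family. By induction on `m ≥ n` and `gen_step` the
  `b_j` generate `M_m` for all `m ≥ n`, i.e. `biproduct.desc (fun j => gen (b j)) : ⨁ P n ⟶ M` is surjective
  in degrees `≥ n`; so its sheaf is epi (`epi_of_surjective_large`). Finally
  `(sheaf X).mapBiproduct` identifies `(sheaf X).obj (⨁ P n)` with `⨁ L n`.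
-/

open CategoryTheory CategoryTheory.Limits CategoryTheory.Abelian Opposite

noncomputable section

namespace H40.KuS

open H24.Ku

variable {X : ProjData}

private lemma gen_map_sum (M : Gr X) {n m : Deg X} {ι : Type*} (s : Finset ι) (f : ι → (n ⟶ m))
    (x : M.obj.obj n) :
    (M.obj.map (∑ i ∈ s, f i)).hom x = ∑ i ∈ s, (M.obj.map (f i)).hom x := by
  rw [M.obj.map_sum, ModuleCat.hom_sum, LinearMap.sum_apply]

private lemma gen_val_sum {n m : Deg X} {ι : Type*} (s : Finset ι) (f : ι → (n ⟶ m)) :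
    (∑ i ∈ s, f i).1 = ∑ i ∈ s, (f i).1 := by
  change (X.piece (m.deg - n.deg)).subtype (∑ i ∈ s, f i) = _
  rw [map_sum]
  rfl

theorem gen_step (M : Gr X) : ∃ k : ℤ, ∀ m : Deg X, k ≤ m.deg → ∀ y : M.obj.obj ⟨m.deg + 1⟩,
    ∃ x : Fin (X.N + 1) → M.obj.obj m,
      y = ∑ i, (M.obj.map (dh (xx i) (xx_mem i) rfl : m ⟶ ⟨m.deg + 1⟩)).hom (x i) := by
  obtain ⟨r, g, x, hx⟩ := M.property.2.2
  obtain ⟨k, hk⟩ := (Set.finite_range (fun i => (g i).deg)).bddAbove
  refine ⟨k, fun m hm y => ?_⟩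
  obtain ⟨a, rfl⟩ := hx ⟨m.deg + 1⟩ y
  have hb : ∀ j, ∃ b : Fin (X.N + 1) → (g j ⟶ m),
      a j = ∑ i, b i ≫ (dh (xx i) (xx_mem i) rfl : m ⟶ ⟨m.deg + 1⟩) := by
    intro j
    have h1 : (g j).deg ≤ m.deg := le_trans (hk ⟨j, rfl⟩) hm
    have h2 : (a j).1 ∈ X.piece ((m.deg - (g j).deg) + 1) :=
      mem_piece_congr (by simp only []; ring) (a j).2
    obtain ⟨b, hb, h⟩ := exists_sum_xx (by omega) h2
    refine ⟨fun i => ⟨b i, hb i⟩, hom_ext' ?_⟩
    rw [gen_val_sum, h]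
    refine Finset.sum_congr rfl fun i _ => ?_
    rw [comp_val', dh_val, mul_comm]
  choose b hb using hb
  refine ⟨fun i => ∑ j, (M.obj.map (b j i)).hom (x j), ?_⟩
  simp_rw [map_sum]
  rw [Finset.sum_comm]
  refine Finset.sum_congr rfl fun j _ => ?_
  rw [hb j, gen_map_sum]
  refine Finset.sum_congr rfl fun i _ => ?_
  rw [map_comp']

private lemma gen_finite_obj (M : Gr X) (n : Deg X) : Module.Finite ℂ (M.obj.obj n) := by
  obtain ⟨r, g, x, hx⟩ := M.property.2.2
  let f : (∀ i : Fin r, X.piece (n.deg - (g i).deg)) →ₗ[ℂ] M.obj.obj n :=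
    { toFun := fun a => ∑ i, (M.obj.map (show g i ⟶ n from a i)).hom (x i)
      map_add' := by
        intro a b
        rw [← Finset.sum_add_distrib]
        exact Finset.sum_congr rfl fun i _ => map_add' M _ _ _
      map_smul' := by
        intro c a
        rw [Finset.smul_sum]
        exact Finset.sum_congr rfl fun i _ => map_smul' M c _ _ }
  refine Module.Finite.of_surjective f fun y => ?_
  obtain ⟨a, ha⟩ := hx n y
  exact ⟨a, ha.symm⟩

private lemma gen_all (M : Gr X) {k : ℤ} (hk : ∀ m : Deg X, k ≤ m.deg →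
    ∀ y : M.obj.obj ⟨m.deg + 1⟩, ∃ x : Fin (X.N + 1) → M.obj.obj m,
      y = ∑ i, (M.obj.map (dh (xx i) (xx_mem i) rfl : m ⟶ ⟨m.deg + 1⟩)).hom (x i))
    {n : Deg X} (hn : k ≤ n.deg) {r : ℕ} (b : Fin r → M.obj.obj n)
    (hb : Submodule.span ℂ (Set.range b) = ⊤) (d : ℕ) :
    ∀ m : Deg X, m.deg = n.deg + d → ∀ y : M.obj.obj m,
      ∃ a : Fin r → (n ⟶ m), y = ∑ j, (M.obj.map (a j)).hom (b j) := by
  induction d with
  | zero =>
    rintro ⟨m⟩ hm y
    obtain ⟨n⟩ := n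
    obtain rfl : m = n := by simpa using hm
    have h1 : y ∈ Submodule.span ℂ (Set.range b) := by
      rw [hb]
      exact Submodule.mem_top
    obtain ⟨c, hc⟩ := (Submodule.mem_span_range_iff_exists_fun ℂ).1 h1
    refine ⟨fun j => c j • 𝟙 _, ?_⟩
    rw [← hc]
    refine Finset.sum_congr rfl fun j _ => ?_
    rw [map_smul', map_id']
  | succ d ih =>
    rintro ⟨m⟩ hm y
    obtain rfl : m = (⟨n.deg + d⟩ : Deg X).deg + 1 := by
      simp only [] at hm ⊢
      push_cast at hm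
      omega
    obtain ⟨x, rfl⟩ := hk ⟨n.deg + d⟩ (by simp only []; omega) y
    choose a ha using fun i => ih ⟨n.deg + d⟩ rfl (x i)
    refine ⟨fun j => ∑ i, a i j ≫ (dh (xx i) (xx_mem i) rfl :
      (⟨n.deg + d⟩ : Deg X) ⟶ ⟨(⟨n.deg + d⟩ : Deg X).deg + 1⟩), ?_⟩
    simp_rw [gen_map_sum]
    rw [Finset.sum_comm]
    refine Finset.sum_congr rfl fun i _ => ?_
    conv_lhs => rw [ha i]
    rw [map_sum]
    refine Finset.sum_congr rfl fun j _ => ?_
    rw [map_comp']

theorem exists_epi_sum (M : Gr X) : ∃ k : ℤ, ∀ n : Deg X, k ≤ n.deg →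
    ∃ (r : ℕ) (e : (⨁ fun _ : Fin r => L n) ⟶ (sheaf X).obj M), Epi e := by
  obtain ⟨k, hk⟩ := gen_step M
  refine ⟨k, fun n hn => ?_⟩
  have := gen_finite_obj M n
  obtain ⟨r, b, hb⟩ := Module.Finite.exists_fin (R := ℂ) (M := M.obj.obj n)
  let φ : (⨁ fun _ : Fin r => P n) ⟶ M := biproduct.desc fun j => gen (b j)
  have hφ : ∀ m : Deg X, n.deg ≤ m.deg → Function.Surjective (φ.hom.app m).hom := by
    intro m hm y
    obtain ⟨d, hd⟩ := Int.eq_ofNat_of_zero_le (show 0 ≤ m.deg - n.deg by omega)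
    obtain ⟨a, rfl⟩ := gen_all M hk hn b hb d m (by omega) y
    refine ⟨∑ j, ((biproduct.ι (fun _ : Fin r => P n) j).hom.app m).hom
      (show (P n).obj.obj m from a j), ?_⟩
    rw [map_sum]
    refine Finset.sum_congr rfl fun j _ => ?_
    exact congrArg (fun ψ => (ψ.hom.app m).hom (show (P n).obj.obj m from a j))
      (biproduct.ι_desc (fun j => gen (b j)) j)
  have h1 : Epi ((sheaf X).map φ) := epi_of_surjective_large φ hφ
  exact ⟨r, ((sheaf X).mapBiproduct fun _ : Fin r => P n).inv ≫ (sheaf X).map φ,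
    inferInstance⟩

end H40.KuS
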