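import Pool.Agent.H40.KuS.S1Main

/-!
# KuS-S2 S2: finiteness of `Ext^i(M~, N~)`

Induction on `i`, and for each `i` `dev` on `M` with `Q M := ∀ N, Module.Finite ℂ (EE M N i)`.
* zero: `EE_eq_zero_of_src` (the module is subsingleton, hence finite).
* extensions: `pre S.f : EE S.X₂ N i →ₗ EE S.X₁ N i` has range in a finite dimensional space and its kernel is
  contained in the range of `pre S.g` (`pre_exact₂`), finite dimensional. (Lemma `finite_of_exact` below.)
* `Cy M J`, generated by `x ∈ M_n`: `gen x : P n ⟶ M` is epi (`gr_epi_of_surjective`, `IsCyc.gen`), with kernel `K`;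
  short exact sequence `0 → K → P n → M → 0` (`CycSes.lean` `shortExact_mk`, or
  `ShortComplex.exact_kernel`). `i = 0`: `pre (gen x)` is injective on `EE M N 0` (`e0`, `pre_e0`, the map
  `(sheaf X).map (gen x)` is epi) with values in `EE (P n) N 0`, finite dimensional by `(s1 N).2.2`. `i + 1`: the
  kernel of `pre (gen x) : EE M N (i+1) → EE (P n) N (i+1)` is contained in the range of
  `dl : EE K N i → EE M N (i+1)` (`pre_exact₃`), finite dimensional by the induction hypothesis.
-/

open CategoryTheory CategoryTheory.Limits CategoryTheory.Abelian Opposite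

noncomputable section

namespace H40.KuS

open H24.Ku

variable {X : ProjData}

/-- In an exact sequence `U → V → W` of vector spaces with `U`, `W` finite dimensional, `V` is finite
dimensional. -/
theorem finite_of_exact {U V W : Type*} [AddCommGroup U] [AddCommGroup V] [AddCommGroup W]
    [Module ℂ U] [Module ℂ V] [Module ℂ W] (f : U →ₗ[ℂ] V) (g : V →ₗ[ℂ] W)
    (h : ∀ v, g v = 0 → ∃ u, f u = v) [Module.Finite ℂ U] [Module.Finite ℂ W] :
    Module.Finite ℂ V := by
  have hle : LinearMap.ker g ≤ LinearMap.range f := by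
    intro v hv
    obtain ⟨u, hu⟩ := h v hv
    exact ⟨u, hu⟩
  have hf : (LinearMap.ker g).FG := by
    have : Module.Finite ℂ (LinearMap.ker g) := Submodule.finiteDimensional_of_le hle
    exact Module.Finite.iff_fg.1 this
  refine ⟨Submodule.fg_of_fg_map_of_fg_inf_ker g ?_ ?_⟩
  · exact Module.Finite.iff_fg.1 inferInstance
  · rw [top_inf_eq]
    exact hf

/-- It is enough to prove finiteness for quotients of `P n`. -/
lemma S2_aux (N : Gr X) (i : ℕ)
    (hc : ∀ (M K : Gr X) (n : Deg X) (k : K ⟶ P n) (f : P n ⟶ M) (w : k ≫ f = 0),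
      (ShortComplex.mk k f w).ShortExact → Module.Finite ℂ (EE M N i)) (M : Gr X) :
    Module.Finite ℂ (EE M N i) := by
  refine dev (fun M => Module.Finite ℂ (EE M N i)) ?_ ?_ ?_ M
  · intro M hM
    have h0 : IsZero ((sheaf X).obj M) := (sheaf X).map_isZero hM
    have : Subsingleton (EE M N i) :=
      ⟨fun a b => (EE_eq_zero_of_src h0 a).trans (EE_eq_zero_of_src h0 b).symm⟩
    infer_instance
  · intro S hS h1 h3
    have h1' : Module.Finite ℂ (EE S.X₁ N i) := h1
    have h3' : Module.Finite ℂ (EE S.X₃ N i) := h3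
    exact finite_of_exact (pre S.g) (pre S.f) (fun v hv => pre_exact₂ hS v hv)
  · rintro J M ⟨n, x, hx⟩
    have hs : ∀ m : Deg X, Function.Surjective ((gen x).hom.app m).hom := by
      intro m y
      obtain ⟨a, ha⟩ := hx.gen m y
      exact ⟨a, ha.symm⟩
    exact hc M (kernel (gen x)) n (kernel.ι _) (gen x) (kernel.condition _)
      (shortExact_mk _ _ _ (fun m => gr_injective _ m) hs (fun m => exists_of_kernel _ m))

theorem finite_EE (M N : Gr X) (i : ℕ) : Module.Finite ℂ (EE M N i) := by
  induction i generalizing M with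
  | zero =>
    refine S2_aux N 0 ?_ M
    intro M K n k f w hS
    have hP : Module.Finite ℂ (EE (P n) N 0) := (s1 N).2.2 n 0
    have hepi : Epi ((sheaf X).map f) := (shortExact_sheaf hS).epi_g
    refine Module.Finite.of_injective (pre f : EE M N 0 →ₗ[ℂ] EE (P n) N 0) ?_
    rw [injective_iff_map_eq_zero]
    intro ξ hξ
    obtain ⟨ψ, rfl⟩ := e0.surjective ξ
    rw [pre_e0, LinearEquiv.map_eq_zero_iff] at hξ
    have h1 : ψ = 0 := by
      rw [← cancel_epi ((sheaf X).map f), hξ, comp_zero]
    rw [h1, map_zero]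
  | succ i ih =>
    refine S2_aux N (i + 1) ?_ M
    intro M K n k f w hS
    have hP : Module.Finite ℂ (EE (P n) N (i + 1)) := (s1 N).2.2 n (i + 1)
    have hK : Module.Finite ℂ (EE K N i) := ih K
    exact finite_of_exact (dl hS : EE K N i →ₗ[ℂ] EE M N (i + 1))
      (pre f : EE M N (i + 1) →ₗ[ℂ] EE (P n) N (i + 1)) (fun v hv => pre_exact₃ hS v hv)

end H40.KuS
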