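import Pool.Agent.H40.KuS.S3c
import Pool.Agent.H40.KuS.S2
import Pool.Agent.H40.KuS.Gen
import Pool.Agent.H63.KS.Facts

/-!
# KuS-FACTS Facts: the facts on coherent sheaves of a smooth projective surface

Translation of the theorems on `EE M N i = Ext (M~) (N~) i` to morphisms in the derived category.
Every `Q : Coh X` is isomorphic to `(sheaf X).obj M` (`exists_sheaf_iso`); `O X n = L ⟨-n⟩` (`O_eq`, `rfl`).

* `hom_nat`: `f : (S X).obj Q ⟶ ((S X).obj Q')⟦(i : ℤ)⟧` is `homAddEquiv ξ` for `ξ : Ext Q Q' i`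
  (`CategoryTheory.Abelian.Ext.homAddEquiv`; `ShiftedHom` is by definition the type of these morphisms).
* `hom_neg`: for `i < 0`, `(S X).obj Q` is `≤ 0` and `((S X).obj Q')⟦i⟧` is `≥ -i > 0` for the t-structure
  (`DerivedCategory.TStructure.t.zero`, `TStructure.t.isGE_shift`; see `H63/KS/Base.lean`, `H63/CMP` for uses).
* `ext_transport`: if all `ξ : EE M N i` are zero, `(sheaf X).obj M ≅ Q`, `(sheaf X).obj N ≅ Q'`, then all
  `ξ : Ext Q Q' i` are zero (compose with `Ext.mk₀` of the isomorphisms). In the same way finiteness.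
* `fin`: `finite_EE`, `Ext.homLinearEquiv` for `i ≥ 0`; `hom_neg` for `i < 0`.
* `serre`: `(s1 M).1 : Van M`, with `P ⟨n⟩`: `O X (-n) = L ⟨-(-n)⟩`, `n.deg ≥ k`.
* `cohdim`: `top` with `d = 3` (`hX.dim`).
* `gldim`: `D = 8`: `gldim hX`.
* `gen`: `exists_epi_sum` with `n = max n₁ k`; `O X (-n) = L ⟨- -n⟩` (rewrite `neg_neg`).
-/

open CategoryTheory CategoryTheory.Limits CategoryTheory.Abelian Opposite

noncomputable section

namespace H40.KuS

open H24.Ku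

variable {X : ProjData}

open Pool.Agent.H63.KS (S CohFacts)

theorem hom_nat {Q Q' : Coh X} {i : ℕ} (h : ∀ ξ : Ext Q Q' i, ξ = 0)
    (f : (S X).obj Q ⟶ ((S X).obj Q')⟦(i : ℤ)⟧) : f = 0 := by
  obtain ⟨ξ, hξ⟩ := (Ext.homAddEquiv (X := Q) (Y := Q') (n := i)).surjective f
  rw [← hξ, h ξ, map_zero]

theorem hom_neg {Q Q' : Coh X} {i : ℤ} (hi : i < 0)
    (f : (S X).obj Q ⟶ ((S X).obj Q')⟦i⟧) : f = 0 := by
  have h1 : ((S X).obj Q).IsLE 0 := inferInstance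
  have h2 : ((S X).obj Q').IsGE 0 := inferInstance
  have h3 : (((S X).obj Q')⟦i⟧).IsGE (-i) := 
    DerivedCategory.TStructure.t.isGE_shift _ 0 i (-i) (by omega)
  exact DerivedCategory.TStructure.t.zero f 0 (-i) (by omega)

/-- transport of `Ext` along isomorphisms -/
def tr {A A' B B' : Coh X} {i : ℕ} (a : A ≅ A') (b : B ≅ B') : Ext A' B' i →ₗ[ℂ] Ext A B i where
  toFun ξ := (Ext.mk₀ a.hom).comp (ξ.comp (Ext.mk₀ b.inv) (add_zero i)) (zero_add i)
  map_add' _ _ := by rw [Ext.add_comp, Ext.comp_add]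
  map_smul' _ _ := by rw [Ext.smul_comp, Ext.comp_smul]; rfl

theorem tr_injective {A A' B B' : Coh X} {i : ℕ} (a : A ≅ A') (b : B ≅ B') :
    Function.Injective (tr (i := i) a b) := by
  intro ξ η h
  have h' : tr a.symm b.symm (tr a b ξ) = tr a.symm b.symm (tr a b η) := by rw [h]
  have key : ∀ ζ : Ext A' B' i, tr a.symm b.symm (tr a b ζ) = ζ := by
    intro ζ
    simp only [tr, LinearMap.coe_mk, AddHom.coe_mk, Iso.symm_hom, Iso.symm_inv]
    simp [Ext.comp_assoc_of_second_deg_zero, Ext.comp_assoc_of_third_deg_zero]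
  rw [key, key] at h'
  exact h'


theorem fin_iso {A A' B B' : Coh X} {i : ℕ} (a : A ≅ A') (b : B ≅ B')
    (h : Module.Finite ℂ (Ext A B i)) : Module.Finite ℂ (Ext A' B' i) :=
  Module.Finite.of_injective (tr a b) (tr_injective a b)

theorem zero_iso {A A' B B' : Coh X} {i : ℕ} (a : A ≅ A') (b : B ≅ B')
    (h : ∀ ξ : Ext A B i, ξ = 0) (ξ : Ext A' B' i) : ξ = 0 :=
  tr_injective a b ((h _).trans (map_zero _).symm)

theorem cohFacts (hX : IsSmoothSurface X) : CohFacts X where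
  fin Q Q' i := by
    obtain ⟨M, ⟨a⟩⟩ := exists_sheaf_iso Q
    obtain ⟨M', ⟨b⟩⟩ := exists_sheaf_iso Q'
    by_cases hi : i < 0
    · have : Subsingleton ((S X).obj Q ⟶ ((S X).obj Q')⟦i⟧) :=
        ⟨fun f g => (hom_neg hi f).trans (hom_neg hi g).symm⟩
      infer_instance
    · obtain ⟨j, rfl⟩ := Int.eq_ofNat_of_zero_le (not_lt.1 hi)
      have h := fin_iso a b (finite_EE M M' j)
      exact Module.Finite.equiv (Ext.homLinearEquiv (R := ℂ) (X := Q) (Y := Q') (n := j))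
  serre Q := by
    obtain ⟨M, ⟨b⟩⟩ := exists_sheaf_iso Q
    obtain ⟨k, hk⟩ := (s1 M).1
    refine ⟨k, fun n hn i hi f => ?_⟩
    obtain ⟨j, rfl⟩ := Int.eq_ofNat_of_zero_le (show 0 ≤ i by omega)
    obtain ⟨j, rfl⟩ := Nat.exists_eq_add_of_le' (show 1 ≤ j by omega)
    refine hom_nat (fun ξ => ?_) f
    exact zero_iso (Iso.refl _) b (fun ξ => hk ⟨- -n⟩ (by simpa using hn) j ξ) ξ
  cohdim Q n i hi f := by
    obtain ⟨M, ⟨b⟩⟩ := exists_sheaf_iso Q
    obtain ⟨j, rfl⟩ := Int.eq_ofNat_of_zero_le (show 0 ≤ i by omega)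
    refine hom_nat (fun ξ => ?_) f
    exact zero_iso (Iso.refl _) b (fun ξ => top (d := 3) hX.dim.le M j (by omega) ⟨-n⟩ ξ) ξ
  gldim := by
    refine ⟨8, fun Q Q' i hi f => ?_⟩
    obtain ⟨M, ⟨a⟩⟩ := exists_sheaf_iso Q
    obtain ⟨M', ⟨b⟩⟩ := exists_sheaf_iso Q'
    obtain ⟨j, rfl⟩ := Int.eq_ofNat_of_zero_le (show 0 ≤ i by omega)
    obtain ⟨j, rfl⟩ := Nat.exists_eq_add_of_le' (show 1 ≤ j by omega)
    refine hom_nat (fun ξ => ?_) f
    exact zero_iso a b (fun ξ => gldim hX M M' (by omega) ξ) ξ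
  gen Q n₁ := by
    obtain ⟨M, ⟨b⟩⟩ := exists_sheaf_iso Q
    obtain ⟨k, hk⟩ := exists_epi_sum M
    obtain ⟨r, e, he⟩ := hk ⟨- -(max n₁ k)⟩ (by simp)
    have h : Epi (e ≫ b.hom) := by
      have := he
      exact epi_comp e b.hom
    exact ⟨max n₁ k, le_max_left _ _, r, e ≫ b.hom, h⟩

end H40.KuS
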