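import Pool.Agent.H24.Ku.S.OMul

/-!
# KuS: basic definitions for finitely generated graded modules

For `n : Deg X`, `M : Gr X`:
* `P n` : the free module of rank one with generator in degree `n` (`P ⟨-n⟩ = free X n`, `rfl`);
* `gen x : P n ⟶ M` for `x ∈ M_n`;
* `Pm a : P m ⟶ P n` for `a : n ⟶ m` in `Deg X`;
* `L n : Coh X` the sheaf `𝒪(-n)` (`L ⟨-n⟩ = O X n`, `rfl`), `Lm a : L m ⟶ L n`,
  `Lgen x : L n ⟶ (sheaf X).obj M`.
-/

open CategoryTheory CategoryTheory.Limits Opposite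

noncomputable section

namespace H40.KuS

open H24.Ku

variable {X : ProjData}

/-- The free module of rank one with generator in degree `n`. -/
def P (n : Deg X) : Gr X := ⟨(linearCoyoneda ℂ (Deg X)).obj (op n), grProp_coyoneda X n⟩

lemma free_eq (n : ℤ) : free X n = P ⟨-n⟩ := rfl

lemma map_add' (M : Gr X) {n m : Deg X} (a b : n ⟶ m) (x : M.obj.obj n) :
    (M.obj.map (a + b)).hom x = (M.obj.map a).hom x + (M.obj.map b).hom x := by
  rw [M.obj.map_add]; rfl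

lemma map_smul' (M : Gr X) {n m : Deg X} (c : ℂ) (a : n ⟶ m) (x : M.obj.obj n) :
    (M.obj.map (c • a)).hom x = c • (M.obj.map a).hom x := by
  rw [M.obj.map_smul]; rfl

lemma map_zero' (M : Gr X) {n m : Deg X} (x : M.obj.obj n) :
    (M.obj.map (0 : n ⟶ m)).hom x = 0 := by
  rw [M.obj.map_zero]; rfl

lemma map_comp' (M : Gr X) {n m k : Deg X} (a : n ⟶ m) (b : m ⟶ k) (x : M.obj.obj n) :
    (M.obj.map (a ≫ b)).hom x = (M.obj.map b).hom ((M.obj.map a).hom x) := by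
  rw [M.obj.map_comp]; rfl

lemma map_id' (M : Gr X) {n : Deg X} (x : M.obj.obj n) : (M.obj.map (𝟙 n)).hom x = x := by
  rw [M.obj.map_id]; rfl

/-- The morphism `P n ⟶ M` which sends the generator to `x ∈ M_n`. -/
def gen {M : Gr X} {n : Deg X} (x : M.obj.obj n) : P n ⟶ M :=
  ObjectProperty.homMk
    { app := fun m => ModuleCat.ofHom
        { toFun := fun (a : n ⟶ m) => (M.obj.map a).hom x
          map_add' := fun a b => map_add' M a b x
          map_smul' := fun c a => map_smul' M c a x }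
      naturality := fun m k b => by
        ext a
        exact map_comp' M (show n ⟶ m from a) b x }

lemma gen_app {M : Gr X} {n m : Deg X} (x : M.obj.obj n) (a : n ⟶ m) :
    ((gen x).hom.app m).hom a = (M.obj.map a).hom x := rfl

lemma gen_one {M : Gr X} {n : Deg X} (x : M.obj.obj n) :
    ((gen x).hom.app n).hom (𝟙 n) = x := map_id' M x

lemma gen_ext {M : Gr X} {n : Deg X} {f g : P n ⟶ M}
    (h : (f.hom.app n).hom (𝟙 n) = (g.hom.app n).hom (𝟙 n)) : f = g := by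
  apply gr_hom_ext
  intro m a
  have h1 := gr_naturality f (show n ⟶ m from a) (𝟙 n)
  have h2 := gr_naturality g (show n ⟶ m from a) (𝟙 n)
  have h3 : ((P n).obj.map (show n ⟶ m from a)).hom (𝟙 n) = a := Category.id_comp (X := n) _
  rw [h3] at h1 h2
  rw [h1, h2, h]

lemma exists_gen {M : Gr X} {n : Deg X} (f : P n ⟶ M) : ∃ x : M.obj.obj n, f = gen x :=
  ⟨(f.hom.app n).hom (𝟙 n), gen_ext (gen_one _).symm⟩

lemma gen_comp {M N : Gr X} {n : Deg X} (x : M.obj.obj n) (f : M ⟶ N) :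
    gen x ≫ f = gen ((f.hom.app n).hom x) := by
  ext m a
  exact congrArg (fun g => g.hom x) (f.hom.naturality (show n ⟶ m from a))

lemma gen_injective {M : Gr X} {n : Deg X} : Function.Injective (gen (M := M) (n := n)) := by
  intro x y h
  rw [← gen_one x, h, gen_one]

lemma gen_add {M : Gr X} {n : Deg X} (x y : M.obj.obj n) : gen (x + y) = gen x + gen y :=
  gen_ext ((gen_one _).trans (congrArg₂ (· + ·) (gen_one x) (gen_one y)).symm)

lemma gen_smul {M : Gr X} {n : Deg X} (c : ℂ) (x : M.obj.obj n) : gen (c • x) = c • gen x :=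
  gen_ext ((gen_one _).trans (congrArg (c • ·) (gen_one x)).symm)

lemma gen_zero {M : Gr X} {n : Deg X} : gen (0 : M.obj.obj n) = 0 :=
  gen_ext (gen_one _)

lemma gen_sub {M : Gr X} {n : Deg X} (x y : M.obj.obj n) : gen (x - y) = gen x - gen y := by
  rw [eq_sub_iff_add_eq, ← gen_add, sub_add_cancel]

/-- The morphism `P m ⟶ P n` given by `a ∈ A_{m-n}`. -/
def Pm {n m : Deg X} (a : n ⟶ m) : P m ⟶ P n := gen (M := P n) (n := m) a

lemma Pm_app {n m k : Deg X} (a : n ⟶ m) (b : m ⟶ k) :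
    ((Pm a).hom.app k).hom b = (a ≫ b : n ⟶ k) := rfl

lemma Pm_comp_gen {M : Gr X} {n m : Deg X} (a : n ⟶ m) (x : M.obj.obj n) :
    Pm a ≫ gen x = gen ((M.obj.map a).hom x) := gen_comp _ _

lemma Pm_comp {n m k : Deg X} (a : n ⟶ m) (b : m ⟶ k) : Pm b ≫ Pm a = Pm (a ≫ b) := gen_comp _ _

lemma Pm_add {n m : Deg X} (a b : n ⟶ m) : Pm (a + b) = Pm a + Pm b := gen_add _ _

lemma Pm_smul {n m : Deg X} (c : ℂ) (a : n ⟶ m) : Pm (c • a) = c • Pm a := gen_smul _ _

/-- The sheaf `𝒪(-n)`. -/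
abbrev L (n : Deg X) : Coh X := (sheaf X).obj (P n)

lemma O_eq (n : ℤ) : O X n = L ⟨-n⟩ := rfl

/-- The morphism `𝒪(-m) ⟶ 𝒪(-n)` given by `a ∈ A_{m-n}`. -/
def Lm {n m : Deg X} (a : n ⟶ m) : L m ⟶ L n := (sheaf X).map (Pm a)

/-- The morphism `𝒪(-n) ⟶ M~` given by `x ∈ M_n`. -/
def Lgen {M : Gr X} {n : Deg X} (x : M.obj.obj n) : L n ⟶ (sheaf X).obj M :=
  (sheaf X).map (gen x)

lemma Lgen_comp {M N : Gr X} {n : Deg X} (x : M.obj.obj n) (f : M ⟶ N) :
    Lgen x ≫ (sheaf X).map f = Lgen ((f.hom.app n).hom x) := by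
  rw [Lgen, ← Functor.map_comp, gen_comp, Lgen]

lemma Lm_comp_Lgen {M : Gr X} {n m : Deg X} (a : n ⟶ m) (x : M.obj.obj n) :
    Lm a ≫ Lgen x = Lgen ((M.obj.map a).hom x) := by
  rw [Lm, Lgen, ← Functor.map_comp, Pm_comp_gen, Lgen]

lemma Lm_comp {n m k : Deg X} (a : n ⟶ m) (b : m ⟶ k) : Lm b ≫ Lm a = Lm (a ≫ b) := by
  rw [Lm, Lm, ← Functor.map_comp, Pm_comp, Lm]

lemma Lgen_add {M : Gr X} {n : Deg X} (x y : M.obj.obj n) : Lgen (x + y) = Lgen x + Lgen y := by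
  rw [Lgen, gen_add, Functor.map_add, Lgen, Lgen]

lemma Lgen_smul {M : Gr X} {n : Deg X} (c : ℂ) (x : M.obj.obj n) : Lgen (c • x) = c • Lgen x := by
  rw [Lgen, gen_smul, Functor.map_smul, Lgen]

lemma Lgen_zero {M : Gr X} {n : Deg X} : Lgen (0 : M.obj.obj n) = 0 := by
  rw [Lgen, gen_zero, Functor.map_zero]

lemma Lgen_sub {M : Gr X} {n : Deg X} (x y : M.obj.obj n) : Lgen (x - y) = Lgen x - Lgen y := by
  rw [eq_sub_iff_add_eq, ← Lgen_add, sub_add_cancel]

lemma Lm_add {n m : Deg X} (a b : n ⟶ m) : Lm (a + b) = Lm a + Lm b := Lgen_add (M := P n) _ _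

lemma Lm_smul {n m : Deg X} (c : ℂ) (a : n ⟶ m) : Lm (c • a) = c • Lm a :=
  Lgen_smul (M := P n) _ _

/-- The morphism `n ⟶ m` of `Deg X` given by an element of `A_d`, `d = m - n`. -/
def dh {n m : Deg X} {d : ℤ} (a : X.A) (ha : a ∈ X.piece d) (h : n.deg + d = m.deg) : n ⟶ m :=
  ⟨a, mem_piece_congr (by omega) ha⟩

lemma dh_val {n m : Deg X} {d : ℤ} (a : X.A) (ha : a ∈ X.piece d)
    (h : n.deg + d = m.deg) : (dh a ha h : n ⟶ m).1 = a := rfl

lemma hom_ext' {n m : Deg X} {a b : n ⟶ m} (h : a.1 = b.1) : a = b := Subtype.ext h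

lemma comp_val' {n m k : Deg X} (a : n ⟶ m) (b : m ⟶ k) : (a ≫ b).1 = a.1 * b.1 := rfl

lemma add_val {n m : Deg X} (a b : n ⟶ m) : (a + b).1 = a.1 + b.1 := rfl

lemma smul_val {n m : Deg X} (c : ℂ) (a : n ⟶ m) : (c • a).1 = c • a.1 := rfl

lemma mem_val {n m : Deg X} (a : n ⟶ m) : a.1 ∈ X.piece (m.deg - n.deg) := a.2

/-- `A(-n) = A(-n-d)(d)`. -/
def twP (d : ℤ) (n : Deg X) : P n ≅ (twist X d).obj (P ⟨n.deg + d⟩) :=
  ObjectProperty.isoMk _ (NatIso.ofComponents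
    (fun m => LinearEquiv.toModuleIso
      { toFun := fun (a : n ⟶ m) => (dh a.1 (mem_val a) (by simp; ring) :
          (⟨n.deg + d⟩ : Deg X) ⟶ ⟨m.deg + d⟩)
        invFun := fun (a : (⟨n.deg + d⟩ : Deg X) ⟶ ⟨m.deg + d⟩) =>
          (dh a.1 (mem_val a) (by simp) : n ⟶ m)
        map_add' := fun _ _ => rfl
        map_smul' := fun _ _ => rfl
        left_inv := fun _ => rfl
        right_inv := fun _ => rfl })
    (fun {m k} b => by ext a; rfl))

/-- Multiplication by `a` on `P n` is, up to `twP`, the twist of `Pm a`. -/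
lemma twP_hom_comp {d : ℤ} (a : X.piece d) (n : Deg X) :
    (twP d n).hom ≫ (twist X d).map (Pm (dh a.1 a.2 rfl : n ⟶ ⟨n.deg + d⟩)) =
      (mulMap X d a).app (P n) := by
  apply gr_hom_ext
  intro m b
  exact Subtype.ext (mul_comm a.1 (show n ⟶ m from b).1)

end H40.KuS
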