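import Pool.Agent.H24.Ku.CohTwist

/-!
# KuS: the homogeneous coordinate ring, definitions

* `comp d : X.A →ₗ[ℂ] X.A` : the component of degree `d`;
* `IsHom J` : the ideal `J` of `X.A` is homogeneous;
* `col J a = {b | a * b ∈ J}`;
* `xx i` : the class of the variable `X_i`.
-/

open CategoryTheory CategoryTheory.Limits MvPolynomial

noncomputable section

namespace H40.KuS

open H24.Ku

variable {X : ProjData}

lemma cp_mem_I (d : ℤ) {p : Pol X.N} (hp : p ∈ X.I) : cp d p ∈ X.I := by
  unfold cp
  split_ifs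
  · exact X.homogeneous p hp _
  · exact X.I.zero_mem

lemma cp_add {N : ℕ} (d : ℤ) (p q : Pol N) : cp d (p + q) = cp d p + cp d q := by
  unfold cp
  split_ifs
  · exact map_add _ _ _
  · simp

lemma cp_smul {N : ℕ} (d : ℤ) (c : ℂ) (p : Pol N) : cp d (c • p) = c • cp d p := by
  unfold cp
  split_ifs
  · exact map_smul _ _ _
  · simp

lemma mk_cp_congr (d : ℤ) {p q : Pol X.N}
    (h : (Ideal.Quotient.mk X.I p : X.A) = Ideal.Quotient.mk X.I q) :
    (Ideal.Quotient.mk X.I (cp d p) : X.A) = Ideal.Quotient.mk X.I (cp d q) := by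
  rw [Ideal.Quotient.eq] at h ⊢
  have h1 : cp d p = cp d (p - q) + cp d q := by rw [← cp_add, sub_add_cancel]
  rw [h1, add_sub_cancel_right]
  exact cp_mem_I d h

/-- The component of degree `d` of an element of the homogeneous coordinate ring. -/
def comp (d : ℤ) : X.A →ₗ[ℂ] X.A where
  toFun a := Ideal.Quotient.mk X.I (cp d (Quotient.out a))
  map_add' a b := by
    rw [← map_add, ← cp_add]
    refine mk_cp_congr d ?_
    rw [map_add]
    exact (Quotient.out_eq (a + b)).trans
      (congrArg₂ (· + ·) (Quotient.out_eq a).symm (Quotient.out_eq b).symm)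
  map_smul' c a := by
    rw [RingHom.id_apply]
    refine (mk_cp_congr (q := c • Quotient.out a) d ?_).trans ?_
    · exact (Quotient.out_eq (c • a)).trans
        (congrArg (fun b : X.A => c • b) (Quotient.out_eq a).symm)
    · rw [cp_smul]; rfl

lemma comp_mk (d : ℤ) (p : Pol X.N) :
    comp d (Ideal.Quotient.mk X.I p : X.A) = Ideal.Quotient.mk X.I (cp d p) :=
  mk_cp_congr d (Quotient.out_eq (Ideal.Quotient.mk X.I p : X.A))

/-- The ideal `J` is homogeneous. -/
def IsHom (J : Ideal X.A) : Prop := ∀ a ∈ J, ∀ d : ℤ, comp d a ∈ J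

/-- The ideal of all `b` with `a * b ∈ J`. -/
def col (J : Ideal X.A) (a : X.A) : Ideal X.A := Submodule.comap (LinearMap.mulLeft X.A a) J

lemma mem_col {J : Ideal X.A} {a b : X.A} : b ∈ col J a ↔ a * b ∈ J := Iff.rfl

/-- The class of the variable `X_i`. -/
def xx (i : Fin (X.N + 1)) : X.A := Ideal.Quotient.mk X.I (MvPolynomial.X i)

/-- The irrelevant ideal `A_+`. -/
def irr (X : ProjData) : Ideal X.A := Ideal.span (Set.range (xx (X := X)))

end H40.KuS
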