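import Pool.Agent.H40.KuS.Basic
import Pool.Agent.H40.KuS.Ring

/-!
# KuS: cyclic graded modules (definition)
-/

open CategoryTheory CategoryTheory.Limits Opposite

noncomputable section

namespace H40.KuS

open H24.Ku

variable {X : ProjData}

/-- `M` is generated by `x ∈ M_n`, and `J` is the annihilator of `x`: so `M ≅ (A/J)(-n)`. -/
structure IsCyc (M : Gr X) (n : Deg X) (x : M.obj.obj n) (J : Ideal X.A) : Prop where
  hom : IsHom J
  gen : ∀ (m : Deg X) (y : M.obj.obj m), ∃ a : n ⟶ m, y = (M.obj.map a).hom x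
  ann : ∀ (m : Deg X) (a : n ⟶ m), (M.obj.map a).hom x = 0 ↔ a.1 ∈ J

/-- `M` is isomorphic to a twist of `A/J`. -/
def Cy (M : Gr X) (J : Ideal X.A) : Prop := ∃ (n : Deg X) (x : M.obj.obj n), IsCyc M n x J

end H40.KuS
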