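import Pool.Agent.H40.KuS.RingFacts

/-!
# KuS-R2 RingIdeal: homogeneous ideals of the homogeneous coordinate ring

* `isHom_sup`: `comp d` is additive. `isHom_span_singleton`: `comp_mul`. `isHom_col`: `comp_mul`
  (`a * comp d b = comp (d + e) (a * b)` for `a ∈ A_e`).
* `isHom_irr`: sums of `comp_mul` with `xx_mem` (`Submodule.span_induction` or `Ideal.mem_span_range_iff_exists_fun`).
* `le_of_homog`: `a = ∑ comp d a` (`exists_sum_comp`).
* `mem_sup_span`: `b = j + a * c'` with `j ∈ J`; take the component of degree `e`: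
  `b = comp e j + a * comp (e - d) c'`.
* `isPrime_of_homog`: standard (Mathlib: `Ideal.IsHomogeneous.isPrime_of_homogeneous_mem_or_mem`, which
  wants a `GradedRing`; direct proof: if `a * b ∈ J`, `a ∉ J`, `b ∉ J` let `d` be the largest degree
  `< n` (`exists_sum_comp`) with `comp d a ∉ J`, `e` the same for `b`; then modulo `J` the component of
  degree `d + e` of `a * b` is `comp d a * comp e b`).
* `mem_of_irr_le`: `exists_sum_xx`.
* `le_irr`: if `a ∈ J` homogeneous of degree `0` is not zero then `a` is a nonzero constant (a unit) and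
  `J = ⊤`; the components of positive degree lie in `irr X` (`exists_sum_xx`).
* `irr_isPrime`: `A / irr X = ℂ`: use `isPrime_of_homog`: homogeneous elements of positive degree are in
  `irr X`; two elements of degree zero are constants.
-/

open CategoryTheory CategoryTheory.Limits MvPolynomial

noncomputable section

namespace H40.KuS

open H24.Ku

variable {X : ProjData}

theorem isHom_sup {J J' : Ideal X.A} (h : IsHom J) (h' : IsHom J') : IsHom (J ⊔ J') := by
  intro a ha d
  obtain ⟨y, hy, z, hz, rfl⟩ := Submodule.mem_sup.1 ha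
  rw [map_add]
  exact Submodule.add_mem_sup (h y hy d) (h' z hz d)

theorem isHom_bot : IsHom (⊥ : Ideal X.A) := by
  intro a ha d
  rw [Ideal.mem_bot] at ha ⊢
  rw [ha, map_zero]

theorem isHom_top : IsHom (⊤ : Ideal X.A) := fun _ _ _ => Submodule.mem_top

theorem isHom_span_singleton {d : ℤ} {a : X.A} (ha : a ∈ X.piece d) : IsHom (Ideal.span {a}) := by
  intro b hb e
  obtain ⟨c, rfl⟩ := Ideal.mem_span_singleton'.1 hb
  rw [mul_comm, comp_mul ha]
  exact Ideal.mul_mem_right _ _ (Ideal.mem_span_singleton_self a)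

theorem isHom_col {d : ℤ} {a : X.A} (ha : a ∈ X.piece d) {J : Ideal X.A} (h : IsHom J) :
    IsHom (col J a) := by
  intro b hb e
  rw [mem_col] at hb ⊢
  have h1 := h _ hb (d + e)
  rwa [comp_mul ha, add_sub_cancel_left] at h1

theorem isHom_irr : IsHom (irr X) := by
  intro a ha d
  unfold irr at ha ⊢
  obtain ⟨c, rfl⟩ := Ideal.mem_span_range_iff_exists_fun.1 ha
  rw [map_sum]
  refine Ideal.sum_mem _ fun i _ => ?_
  rw [mul_comm, comp_mul (xx_mem i)]
  exact Ideal.mul_mem_right _ _ (Ideal.subset_span ⟨i, rfl⟩)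

theorem le_of_homog {J J' : Ideal X.A} (hJ : IsHom J)
    (h : ∀ (d : ℤ), ∀ a ∈ X.piece d, a ∈ J → a ∈ J') : J ≤ J' := by
  intro a ha
  obtain ⟨n, hn⟩ := exists_sum_comp a
  rw [hn n le_rfl]
  exact Ideal.sum_mem _ fun i _ => h _ _ (comp_mem _ a) (hJ a ha _)

theorem mem_sup_span {J : Ideal X.A} (hJ : IsHom J) {d e : ℤ} {a b : X.A} (ha : a ∈ X.piece d)
    (hb : b ∈ X.piece e) :
    b ∈ J ⊔ Ideal.span {a} ↔ ∃ c ∈ X.piece (e - d), b - a * c ∈ J := by
  constructor
  · intro h
    obtain ⟨j, hj, z, hz, hjz⟩ := Submodule.mem_sup.1 h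
    obtain ⟨c, rfl⟩ := Ideal.mem_span_singleton'.1 hz
    refine ⟨comp (e - d) c, comp_mem _ _, ?_⟩
    have h1 : b = comp e j + a * comp (e - d) c := by
      rw [← comp_mul ha, ← map_add, mul_comm a c, hjz, comp_of_mem hb]
    have h2 : b - a * comp (e - d) c = comp e j := by
      rw [sub_eq_iff_eq_add]
      exact h1
    rw [h2]
    exact hJ j hj e
  · rintro ⟨c, _, h⟩
    have h1 : b = (b - a * c) + a * c := (sub_add_cancel _ _).symm
    rw [h1]
    exact Submodule.add_mem_sup h (Ideal.mul_mem_right _ _ (Ideal.mem_span_singleton_self a))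

theorem comp_eq_zero_of_large (a : X.A) : ∃ n : ℕ, ∀ d : ℕ, n ≤ d → comp (d : ℤ) a = 0 := by
  obtain ⟨n, hn⟩ := exists_sum_comp a
  refine ⟨n, fun d hd => ?_⟩
  have h1 := hn d hd
  have h2 := hn (d + 1) (by omega)
  rw [Finset.sum_range_succ, ← h1] at h2
  exact left_eq_add.1 h2

theorem exists_last {J : Ideal X.A} {a : X.A} (ha : a ∉ J) :
    ∃ d : ℕ, comp (d : ℤ) a ∉ J ∧ ∀ e : ℕ, d < e → comp (e : ℤ) a ∈ J := by
  classical
  obtain ⟨n, hn⟩ := comp_eq_zero_of_large a
  have h1 : ∃ d : ℕ, d ≤ n ∧ comp (d : ℤ) a ∉ J := by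
    by_contra hcon
    push Not at hcon
    apply ha
    obtain ⟨m, hm⟩ := exists_sum_comp a
    rw [hm m le_rfl]
    refine Ideal.sum_mem _ fun i _ => ?_
    rcases le_or_gt i n with h | h
    · exact hcon i h
    · rw [hn i h.le]
      exact J.zero_mem
  obtain ⟨d0, hd0, hd0'⟩ := h1
  refine ⟨Nat.findGreatest (fun d => comp (d : ℤ) a ∉ J) n,
    Nat.findGreatest_spec (P := fun d => comp (d : ℤ) a ∉ J) hd0 hd0', fun e he => ?_⟩
  by_contra hcon
  rcases le_or_gt e n with h | h
  · exact absurd (Nat.le_findGreatest (P := fun d => comp (d : ℤ) a ∉ J) h hcon) (not_le.2 he)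
  · apply hcon
    rw [hn e h.le]
    exact J.zero_mem

theorem isPrime_of_homog {J : Ideal X.A} (hJ : IsHom J) (h1 : J ≠ ⊤)
    (h : ∀ (d e : ℤ) (a b : X.A), a ∈ X.piece d → b ∈ X.piece e → a * b ∈ J → a ∈ J ∨ b ∈ J) :
    J.IsPrime := by
  refine ⟨h1, fun {a b} hab => ?_⟩
  by_contra hcon
  push Not at hcon
  obtain ⟨d, hd, hd'⟩ := exists_last hcon.1
  obtain ⟨e, he, he'⟩ := exists_last hcon.2
  obtain ⟨n, hn⟩ := exists_sum_comp a
  have h2 : comp ((d : ℤ) + e) (a * b) ∈ J := hJ _ hab _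
  have h3 : a * b = ∑ i ∈ Finset.range (max n (d + 1)), comp (i : ℤ) a * b := by
    rw [← Finset.sum_mul, ← hn _ (le_max_left _ _)]
  rw [h3, map_sum] at h2
  have h4 : ∀ i ∈ Finset.range (max n (d + 1)), comp ((d : ℤ) + e) (comp (i : ℤ) a * b) =
      comp (i : ℤ) a * comp ((d : ℤ) + e - i) b := fun i _ => comp_mul (comp_mem _ a) _ b
  rw [Finset.sum_congr rfl h4, ← Finset.add_sum_erase _ _
    (Finset.mem_range.2 (lt_of_lt_of_le (Nat.lt_succ_self d) (le_max_right n (d + 1))))] at h2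
  have h5 : ∑ i ∈ (Finset.range (max n (d + 1))).erase d,
      comp (i : ℤ) a * comp ((d : ℤ) + e - i) b ∈ J := by
    refine Ideal.sum_mem _ fun i hi => ?_
    rcases lt_trichotomy i d with hlt | heq | hgt
    · have h6 : ((d : ℤ) + e - i) = ((d + e - i : ℕ) : ℤ) := by omega
      rw [h6]
      exact Ideal.mul_mem_left _ _ (he' _ (by omega))
    · exact absurd heq (Finset.ne_of_mem_erase hi)
    · exact Ideal.mul_mem_right _ _ (hd' i hgt)
  have h6 : comp (d : ℤ) a * comp ((d : ℤ) + e - d) b ∈ J :=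
    (Ideal.add_mem_iff_left _ h5).1 h2
  rw [add_sub_cancel_left] at h6
  rcases h _ _ _ _ (comp_mem _ a) (comp_mem _ b) h6 with h7 | h7
  · exact hd h7
  · exact he h7

theorem mem_of_irr_le {J : Ideal X.A} (h : irr X ≤ J) {d : ℤ} (hd : 0 < d) {a : X.A}
    (ha : a ∈ X.piece d) : a ∈ J := by
  obtain ⟨b, _, hb⟩ := exists_sum_xx (d := d - 1) (by omega) (a := a) (by rwa [sub_add_cancel])
  rw [hb]
  exact Ideal.sum_mem _ fun i _ => Ideal.mul_mem_right _ _ (h (Ideal.subset_span ⟨i, rfl⟩))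

theorem irr_le_iff {J : Ideal X.A} : irr X ≤ J ↔ ∀ i, xx i ∈ J := by
  unfold irr
  rw [Ideal.span_le, Set.range_subset_iff]
  rfl

theorem le_irr {J : Ideal X.A} (hJ : IsHom J) (h : J ≠ ⊤) : J ≤ irr X := by
  refine le_of_homog hJ fun d a ha haJ => ?_
  rcases lt_trichotomy d 0 with hd | hd | hd
  · rw [eq_zero_of_mem_neg hd ha]
    exact Ideal.zero_mem _
  · subst hd
    obtain ⟨c, hc⟩ := exists_smul_one ha
    rcases eq_or_ne c 0 with h0 | h0
    · rw [hc, h0, map_zero]
      exact Ideal.zero_mem _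
    · exfalso
      apply h
      rw [hc] at haJ
      exact Ideal.eq_top_of_isUnit_mem _ haJ ((IsUnit.mk0 c h0).map (algebraMap ℂ X.A))
  · exact mem_of_irr_le le_rfl hd ha

theorem irr_isPrime (h : irr X ≠ ⊤) : (irr X).IsPrime := by
  have key : ∀ (d : ℤ) (a : X.A), a ∈ X.piece d → a ∈ irr X ∨ ∃ c : ℂ, c ≠ 0 ∧
      a = algebraMap ℂ X.A c := by
    intro d a ha
    rcases lt_trichotomy d 0 with hd | hd | hd
    · left
      rw [eq_zero_of_mem_neg hd ha]
      exact Ideal.zero_mem _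
    · subst hd
      obtain ⟨c, hc⟩ := exists_smul_one ha
      rcases eq_or_ne c 0 with h0 | h0
      · left
        rw [hc, h0, map_zero]
        exact Ideal.zero_mem _
      · exact Or.inr ⟨c, h0, hc⟩
    · left
      exact mem_of_irr_le le_rfl hd ha
  refine isPrime_of_homog isHom_irr h fun d e a b ha hb hab => ?_
  rcases key d a ha with h1 | ⟨c, hc, h1⟩
  · exact Or.inl h1
  · rcases key e b hb with h2 | ⟨c', hc', h2⟩
    · exact Or.inr h2
    · exfalso
      apply h
      rw [h1, h2, ← map_mul] at hab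
      exact Ideal.eq_top_of_isUnit_mem _ hab
        ((IsUnit.mk0 (c * c') (mul_ne_zero hc hc')).map (algebraMap ℂ X.A))

end H40.KuS
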