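import Pool.Agent.H40.KuS.Cyc
import Pool.Agent.H40.KuS.RingIdeal
import Pool.Agent.H24.Ku.Ev

/-!
# KuS-C1 CycFacts: cyclic graded modules

`IsCyc M n x J` : `M` generated by `x ∈ M_n`, annihilator `J`. `Cy M J` : exists `n, x`.
Elementwise criteria in `Gr X`: `gr_epi_of_surjective`, `gr_mono_of_injective`, `gr_surjective`,
`gr_injective` (`H24/Ku/Free.lean`), `isZero_iff_subsingleton`, `exact_iff` (`H24/Ku/Ev.lean`).

* `isZero_of_cy_top`: every `y = a x`, `a.1 ∈ ⊤`, so `y = 0`.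
* `finLen_of_cy`: for `m.deg > n.deg` every `y ∈ M_m` is `a x`, `a.1 ∈ A_{m-n} ⊆ irr X ≤ J` (`mem_of_irr_le`).
* `Cy.of_iso`, `Cy.twist`: generator `x` in degree `n - d` of `M(d)` (transport `x` along
  `M.obj.map (dh 1 _ _ : n ⟶ ⟨n.deg - d + d⟩)`).
* `exists_ann`: `J = {a | ∀ d, (M.obj.map (dh (comp d a) _ rfl : n ⟶ ⟨n.deg + d⟩)) x = 0}`; it is an ideal:
  `comp d (b * a) = ∑ comp (d-e) b * comp e a` (write `a` as the finite sum of its components by
  `exists_sum_comp` and use `comp_mul`); homogeneous by `comp_of_mem`, `comp_of_mem_ne`.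
* `exists_cyc`: `M = P n / J`: the functor `m ↦ (n ⟶ m) ⧸ {a | a.1 ∈ J}` (`ModuleCat.of ℂ (_ ⧸ _)`), quotient of
  `P n`, so it satisfies `grProp` (`additive_of_surjective`, `linear_of_surjective`, `FG.of_epi`, or
  directly); `x` = class of `𝟙 n`. Alternatively: `J` is generated by finitely many homogeneous
  `a_i`; take the cokernel of `⨁ P m_i ⟶ P n`.
* `IsCyc.exists_hom`: `y = a x ↦ a y₀` well defined because `a x = 0 ↔ a.1 ∈ J`.
-/

open CategoryTheory CategoryTheory.Limits Opposite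

noncomputable section

namespace H40.KuS

open H24.Ku

variable {X : ProjData}

theorem isZero_of_cy_top {M : Gr X} (h : Cy M ⊤) : IsZero M := by
  obtain ⟨n, x, h⟩ := h
  rw [isZero_iff_subsingleton]
  intro m
  have key : ∀ y : M.obj.obj m, y = 0 := by
    intro y
    obtain ⟨a, rfl⟩ := h.gen m y
    exact (h.ann m a).2 Submodule.mem_top
  exact ⟨fun y z => (key y).trans (key z).symm⟩

theorem finLen_of_cy {M : Gr X} {J : Ideal X.A} (h : Cy M J) (hJ : irr X ≤ J) : finLen X M := by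
  obtain ⟨n, x, h⟩ := h
  rw [finLen_iff]
  refine ⟨n.deg + 1, fun m hm => ?_⟩
  have key : ∀ y : M.obj.obj m, y = 0 := by
    intro y
    obtain ⟨a, rfl⟩ := h.gen m y
    exact (h.ann m a).2 (mem_of_irr_le hJ (d := m.deg - n.deg) (by omega) a.2)
  exact ModuleCat.isZero_iff_subsingleton.2 ⟨fun y z => (key y).trans (key z).symm⟩

theorem Cy.of_iso {M M' : Gr X} {J : Ideal X.A} (h : Cy M J) (e : M ≅ M') : Cy M' J := by
  obtain ⟨n, x, h⟩ := h
  have h1 : ∀ (m : Deg X) (y : M'.obj.obj m),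
      (e.hom.hom.app m).hom ((e.inv.hom.app m).hom y) = y := fun m y =>
    congrArg (fun f : M' ⟶ M' => (f.hom.app m).hom y) e.inv_hom_id
  have h2 : ∀ (m : Deg X) (y : M.obj.obj m),
      (e.inv.hom.app m).hom ((e.hom.hom.app m).hom y) = y := fun m y =>
    congrArg (fun f : M ⟶ M => (f.hom.app m).hom y) e.hom_inv_id
  refine ⟨n, (e.hom.hom.app n).hom x, h.hom, fun m y => ?_, fun m a => ?_⟩
  · obtain ⟨a, ha⟩ := h.gen m ((e.inv.hom.app m).hom y)
    refine ⟨a, ?_⟩
    rw [← gr_naturality, ← ha, h1]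
  · rw [← gr_naturality, ← h.ann m a]
    constructor
    · intro h0
      rw [← h2 m ((M.obj.map a).hom x), h0, map_zero]
    · intro h0
      rw [h0, map_zero]

theorem Cy.twist {M : Gr X} {J : Ideal X.A} (h : Cy M J) (d : ℤ) :
    Cy ((H24.Ku.twist X d).obj M) J := by
  obtain ⟨n, x, h⟩ := h
  let t : n ⟶ (⟨n.deg - d + d⟩ : Deg X) := dh 1 (ProjData.one_mem_piece) (by simp)
  have hs : ∀ (m : Deg X) (a : (⟨n.deg - d⟩ : Deg X) ⟶ m),
      a.1 ∈ X.piece ((m.deg + d) - n.deg) := fun m a =>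
    mem_piece_congr (by simp; ring) (mem_val a)
  have key : ∀ (m : Deg X) (a : (⟨n.deg - d⟩ : Deg X) ⟶ m),
      (((H24.Ku.twist X d).obj M).obj.map a).hom ((M.obj.map t).hom x) =
        (M.obj.map (⟨a.1, hs m a⟩ : n ⟶ (⟨m.deg + d⟩ : Deg X))).hom x := fun m a => by
    refine (map_comp' M t ((degShift X d).map a) x).symm.trans ?_
    exact congrArg (fun f : n ⟶ (⟨m.deg + d⟩ : Deg X) => (M.obj.map f).hom x)
      (hom_ext' (one_mul a.1))
  refine ⟨⟨n.deg - d⟩, (M.obj.map t).hom x, h.hom, fun m y => ?_, fun m a => ?_⟩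
  · obtain ⟨a, ha⟩ := h.gen ⟨m.deg + d⟩ y
    let a' : (⟨n.deg - d⟩ : Deg X) ⟶ m := ⟨a.1, mem_piece_congr (by simp; ring) (mem_val a)⟩
    exact ⟨a', ha.trans (key m a').symm⟩
  · rw [key]
    exact h.ann ⟨m.deg + d⟩ ⟨a.1, hs m a⟩

/-- The homogeneous elements of degree `d` which annihilate `x`. -/
def annDeg (M : Gr X) (n : Deg X) (x : M.obj.obj n) (d : ℤ) : Submodule ℂ X.A where
  carrier := {c | ∃ hc : c ∈ X.piece d, (M.obj.map (dh c hc rfl : n ⟶ ⟨n.deg + d⟩)).hom x = 0}
  add_mem' := by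
    rintro a b ⟨ha, h1⟩ ⟨hb, h2⟩
    refine ⟨Submodule.add_mem _ ha hb, ?_⟩
    have h3 := map_add' M (dh a ha rfl : n ⟶ ⟨n.deg + d⟩) (dh b hb rfl) x
    rw [h1, h2, add_zero] at h3
    exact h3
  zero_mem' := ⟨Submodule.zero_mem _, map_zero' M x⟩
  smul_mem' := by
    rintro c a ⟨ha, h1⟩
    refine ⟨Submodule.smul_mem _ c ha, ?_⟩
    have h3 := map_smul' M c (dh a ha rfl : n ⟶ ⟨n.deg + d⟩) x
    rw [h1, smul_zero] at h3
    exact h3

lemma annDeg_mul {M : Gr X} {n : Deg X} {x : M.obj.obj n} {d e : ℤ} {a b : X.A}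
    (ha : a ∈ annDeg M n x e) (hb : b ∈ X.piece (d - e)) : a * b ∈ annDeg M n x d := by
  obtain ⟨ha, h1⟩ := ha
  refine ⟨mem_piece_congr (by ring) (ProjData.mul_mem_piece ha hb), ?_⟩
  have h2 := map_comp' M (dh a ha rfl : n ⟶ ⟨n.deg + e⟩)
    (dh b hb (by simp) : (⟨n.deg + e⟩ : Deg X) ⟶ ⟨n.deg + d⟩) x
  rw [h1, map_zero] at h2
  exact h2

lemma mem_annDeg_iff {M : Gr X} {n : Deg X} {x : M.obj.obj n} {m : Deg X} (a : n ⟶ m) :
    a.1 ∈ annDeg M n x (m.deg - n.deg) ↔ (M.obj.map a).hom x = 0 := by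
  let t : m ⟶ (⟨n.deg + (m.deg - n.deg)⟩ : Deg X) := dh 1 (ProjData.one_mem_piece) (by simp)
  let t' : (⟨n.deg + (m.deg - n.deg)⟩ : Deg X) ⟶ m := dh 1 (ProjData.one_mem_piece) (by simp)
  have h1 : (dh a.1 (mem_val a) rfl : n ⟶ ⟨n.deg + (m.deg - n.deg)⟩) = a ≫ t :=
    hom_ext' (by rw [comp_val']; exact (mul_one _).symm)
  have h2 : a = (dh a.1 (mem_val a) rfl : n ⟶ ⟨n.deg + (m.deg - n.deg)⟩) ≫ t' :=
    hom_ext' (by rw [comp_val']; exact (mul_one _).symm)
  constructor
  · rintro ⟨hc, h⟩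
    rw [h2, map_comp']
    have h' : (M.obj.map (dh a.1 (mem_val a) rfl : n ⟶ ⟨n.deg + (m.deg - n.deg)⟩)).hom x = 0 := h
    rw [h', map_zero]
  · intro h
    refine ⟨mem_val a, ?_⟩
    rw [h1, map_comp', h, map_zero]

theorem exists_ann (M : Gr X) (n : Deg X) (x : M.obj.obj n) :
    ∃ J : Ideal X.A, IsHom J ∧ ∀ (m : Deg X) (a : n ⟶ m), (M.obj.map a).hom x = 0 ↔ a.1 ∈ J := by
  let J : Ideal X.A :=
    { carrier := {a | ∀ d : ℤ, comp d a ∈ annDeg M n x d}
      add_mem' := by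
        intro a b ha hb d
        rw [map_add]
        exact Submodule.add_mem _ (ha d) (hb d)
      zero_mem' := by
        intro d
        rw [map_zero]
        exact Submodule.zero_mem _
      smul_mem' := by
        intro b a ha d
        obtain ⟨k, hk⟩ := exists_sum_comp a
        have h1 : b • a = ∑ e ∈ Finset.range k, comp (e : ℤ) a * b := by
          rw [← Finset.sum_mul, ← hk k le_rfl, smul_eq_mul, mul_comm]
        rw [h1, map_sum]
        refine Submodule.sum_mem _ fun e _ => ?_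
        rw [comp_mul (comp_mem _ _)]
        exact annDeg_mul (ha e) (comp_mem _ _) }
  have hJ : ∀ a : X.A, a ∈ J ↔ ∀ d : ℤ, comp d a ∈ annDeg M n x d := fun _ => Iff.rfl
  refine ⟨J, fun a ha d => ?_, fun m a => ?_⟩
  · rw [hJ]
    intro e
    by_cases h : d = e
    · subst h
      rw [comp_of_mem (comp_mem d a)]
      exact ha d
    · rw [comp_of_mem_ne (comp_mem d a) h]
      exact Submodule.zero_mem _
  · rw [← mem_annDeg_iff, hJ]
    constructor
    · intro h e
      by_cases h' : m.deg - n.deg = e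
      · subst h'
        rw [comp_of_mem (mem_val a)]
        exact h
      · rw [comp_of_mem_ne (mem_val a) h']
        exact Submodule.zero_mem _
    · intro h
      have := h (m.deg - n.deg)
      rwa [comp_of_mem (mem_val a)] at this

/-- The morphisms `n ⟶ m` with value in `J`. -/
def homJ (J : Ideal X.A) (n m : Deg X) : Submodule ℂ (n ⟶ m) :=
  Submodule.comap (Submodule.subtype (X.piece (m.deg - n.deg))) (J.restrictScalars ℂ)

lemma mem_homJ {J : Ideal X.A} {n m : Deg X} (a : n ⟶ m) : a ∈ homJ J n m ↔ a.1 ∈ J := Iff.rfl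

/-- Composition with `b`. -/
def postL (n : Deg X) {m k : Deg X} (b : m ⟶ k) : (n ⟶ m) →ₗ[ℂ] (n ⟶ k) where
  toFun a := a ≫ b
  map_add' a a' := Preadditive.add_comp _ _ _ a a' b
  map_smul' c a := Linear.smul_comp _ _ _ c a b

lemma postL_mem {J : Ideal X.A} {n m k : Deg X} (b : m ⟶ k) :
    homJ J n m ≤ (homJ J n k).comap (postL n b) := by
  intro a ha
  have h : a.1 ∈ J := ha
  show (a ≫ b).1 ∈ J
  rw [comp_val']
  exact J.mul_mem_right _ h

/-- The graded module `(A/J)(-n)`. -/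
def quoF (J : Ideal X.A) (n : Deg X) : Deg X ⥤ ModuleCat.{0} ℂ where
  obj m := ModuleCat.of ℂ ((n ⟶ m) ⧸ homJ J n m)
  map {m k} b := ModuleCat.ofHom (Submodule.mapQ _ _ (postL n b) (postL_mem b))
  map_id m := by
    ext a
    have h : postL n (𝟙 m) a = a := Category.comp_id (obj := Deg X) (X := n) (Y := m) a
    exact congrArg (Submodule.Quotient.mk (p := homJ J n m)) h
  map_comp {m k l} b c := by
    ext a
    have h : postL n (b ≫ c) a = postL n c (postL n b a) :=
      (Category.assoc (obj := Deg X) (W := n) (X := m) (Y := k) (Z := l) a b c).symm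
    exact congrArg (Submodule.Quotient.mk (p := homJ J n l)) h

/-- The projection `A(-n) ⟶ (A/J)(-n)`. -/
def quoπ (J : Ideal X.A) (n : Deg X) :
    (linearCoyoneda ℂ (Deg X)).obj (op n) ⟶ quoF J n where
  app m := ModuleCat.ofHom (Submodule.mkQ (homJ J n m))
  naturality m k b := by
    ext a
    rfl

lemma quoπ_surj (J : Ideal X.A) (n m : Deg X) : Function.Surjective ((quoπ J n).app m).hom :=
  Submodule.mkQ_surjective (homJ J n m)

lemma grProp_quoF (J : Ideal X.A) (n : Deg X) : grProp X (quoF J n) := by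
  have h := grProp_coyoneda X n
  exact ⟨additive_of_surjective (quoπ J n) (quoπ_surj J n) h.1,
    linear_of_surjective (quoπ J n) (quoπ_surj J n) h.2.1,
    FG.of_epi (quoπ J n) (quoπ_surj J n) h.2.2⟩

theorem exists_cyc {J : Ideal X.A} (hJ : IsHom J) (n : Deg X) :
    ∃ (M : Gr X) (x : M.obj.obj n), IsCyc M n x J := by
  have key : ∀ (m : Deg X) (a : n ⟶ m),
      ((quoF J n).map a).hom (Submodule.Quotient.mk (p := homJ J n n) (𝟙 n)) =
        Submodule.Quotient.mk (p := homJ J n m) a := fun m a =>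
    congrArg (Submodule.Quotient.mk (p := homJ J n m)) (Category.id_comp a)
  refine ⟨⟨quoF J n, grProp_quoF J n⟩, Submodule.Quotient.mk (p := homJ J n n) (𝟙 n), hJ,
    fun m y => ?_, fun m a => ?_⟩
  · obtain ⟨a, ha⟩ := Submodule.mkQ_surjective (homJ J n m) y
    exact ⟨a, ha.symm.trans (key m a).symm⟩
  · rw [← mem_homJ a]
    exact (iff_of_eq (congrArg (· = 0) (key m a))).trans
      (Submodule.Quotient.mk_eq_zero (homJ J n m))

theorem IsCyc.exists_hom {M : Gr X} {n : Deg X} {x : M.obj.obj n} {J : Ideal X.A}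
    (h : IsCyc M n x J) {N : Gr X} (y : N.obj.obj n)
    (hy : ∀ (m : Deg X) (a : n ⟶ m), a.1 ∈ J → (N.obj.map a).hom y = 0) :
    ∃ f : M ⟶ N, (f.hom.app n).hom x = y := by
  have wd : ∀ (m : Deg X) (a b : n ⟶ m), (M.obj.map a).hom x = (M.obj.map b).hom x →
      (N.obj.map a).hom y = (N.obj.map b).hom y := by
    intro m a b hab
    have h1 : (M.obj.map (a - b)).hom x = 0 := by
      have := map_add' M (a - b) b x
      rw [sub_add_cancel, hab] at this
      exact left_eq_add.1 (this.trans (add_comm _ _))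
    have h2 := hy m (a - b) ((h.ann m _).1 h1)
    have h3 := map_add' N (a - b) b y
    rw [sub_add_cancel, h2, zero_add] at h3
    exact h3
  choose a ha using h.gen
  refine ⟨ObjectProperty.homMk
    { app := fun m => ModuleCat.ofHom
        { toFun := fun z => (N.obj.map (a m z)).hom y
          map_add' := fun z w => ?_
          map_smul' := fun c z => ?_ }
      naturality := fun m k b => ?_ }, ?_⟩
  · rw [← map_add']
    refine wd m _ _ ?_
    rw [← ha, map_add', ← ha, ← ha]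
  · rw [RingHom.id_apply, ← map_smul']
    refine wd m _ _ ?_
    rw [← ha, map_smul', ← ha]
  · ext z
    have h1 : (N.obj.map (a k ((M.obj.map b).hom z))).hom y =
        (N.obj.map b).hom ((N.obj.map (a m z)).hom y) := by
      rw [← map_comp']
      refine wd k _ _ ?_
      rw [← ha, map_comp', ← ha]
    exact h1
  · have h1 : (N.obj.map (a n x)).hom y = (N.obj.map (𝟙 n)).hom y := by
      refine wd n _ _ ?_
      rw [← ha, map_id']
    exact h1.trans (map_id' N y)

end H40.KuS
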