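import Pool.Agent.H40.KuS.CycFacts

/-!
# KuS-C2 CycSes: exact sequences of cyclic graded modules

Short exactness of `ShortComplex.mk i q w` in `Gr X`: `ShortExact` has fields `exact`, `mono_f`, `epi_g`;
`exact_iff` (`H24/Ku/Ev.lean`), `gr_mono_of_injective`, `gr_epi_of_surjective`; kernels and
cokernels exist (`Gr X` is abelian; `ShortComplex.exact_cokernel`, `exact_kernel`).

* `IsCyc.ses`: `K` = image of `gen (a x) : P m ⟶ M` (`Abelian.image`, or `K := kernel q` with
  `q = cokernel.π (gen (a x))`), `C` = cokernel. `K` is generated by `a x ∈ K_m` with annihilator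
  `col J a.1` (`b (a x) = (a ≫ b) x = 0 ↔ a.1 * b.1 ∈ J`; it is homogeneous by `isHom_col`), `C` is
  generated by the class of `x`; `b x = 0` in `C` iff `b x = c (a x)` in `M` for some `c` iff
  `b.1 - a.1 * c.1 ∈ J` iff `b.1 ∈ J ⊔ span {a.1}` (`mem_sup_span`).
* `IsCyc.unique`: `exists_hom` in both directions; a morphism which sends the generator to the
  generator is surjective, and injective since the annihilators agree; `isIso_of_mono_of_epi`.
* `IsCyc.exists_cover`: `B` from `exists_cyc` (annihilator `J`, generator in degree `n`), `q` from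
  `exists_hom` (`J ≤ p`), onto; `K = kernel q`. If `s * p ⊆ J` then `s` kills `K`: an element of `K` is
  `y = a x_B` with `a.1 ∈ p`, and `s y = (a s) x_B = 0`.
* `IsCyc.exists_cover_sup`: take `M'` cyclic with annihilator `J` and generator in degree `n`
  (`exists_cyc`), `IsCyc.ses` with `a = v` gives `K ⟶ M' ⟶ C` and `C ≅ B` by `unique`.
* `Cy.mul_ses`: `z y = 0` and `y = a x` give `a.1 * z.1 ∈ p`, so `a.1 ∈ p`, `y = 0`: mono. The cokernel `C` of
  `M ⟶ M(d)`: `M(d)` is generated by `x ∈ M(d)_{n-d}`, the image of `M` is `z M(d)`; so `C` is cyclic with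
  annihilator `p ⊔ span {z}` (as in `ses`).
-/

open CategoryTheory CategoryTheory.Limits Opposite

noncomputable section

namespace H40.KuS

open H24.Ku

variable {X : ProjData}

/-- Short exactness, elementwise. -/
lemma shortExact_mk {K M C : Gr X} (i : K ⟶ M) (q : M ⟶ C) (w : i ≫ q = 0)
    (hi : ∀ m : Deg X, Function.Injective (i.hom.app m).hom)
    (hq : ∀ m : Deg X, Function.Surjective (q.hom.app m).hom)
    (he : ∀ (m : Deg X) (x : M.obj.obj m), (q.hom.app m).hom x = 0 →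
      ∃ y : K.obj.obj m, (i.hom.app m).hom y = x) : (ShortComplex.mk i q w).ShortExact where
  exact := (exact_iff _).2 he
  mono_f := gr_mono_of_injective i hi
  epi_g := gr_epi_of_surjective q hq

lemma comp_apply' {K M C : Gr X} (i : K ⟶ M) (q : M ⟶ C) (m : Deg X) (y : K.obj.obj m) :
    ((i ≫ q).hom.app m).hom y = (q.hom.app m).hom ((i.hom.app m).hom y) := rfl

lemma zero_apply' {K M : Gr X} (m : Deg X) (y : K.obj.obj m) :
    ((0 : K ⟶ M).hom.app m).hom y = 0 := rfl

lemma apply_eq_zero {K M C : Gr X} {i : K ⟶ M} {q : M ⟶ C} (w : i ≫ q = 0) (m : Deg X)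
    (y : K.obj.obj m) : (q.hom.app m).hom ((i.hom.app m).hom y) = 0 := by
  rw [← comp_apply', w, zero_apply']

/-- Exactness at the kernel. -/
lemma exists_of_kernel {M C : Gr X} (q : M ⟶ C) (m : Deg X) (x : M.obj.obj m)
    (hx : (q.hom.app m).hom x = 0) :
    ∃ y : (kernel q).obj.obj m, ((kernel.ι q).hom.app m).hom y = x :=
  (exact_iff (ShortComplex.mk (kernel.ι q) q (kernel.condition q))).1
    (ShortComplex.exact_kernel q) m x hx

/-- Exactness at the cokernel. -/
lemma exists_of_cokernel {K M : Gr X} (f : K ⟶ M) (m : Deg X) (x : M.obj.obj m)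
    (hx : ((cokernel.π f).hom.app m).hom x = 0) :
    ∃ y : K.obj.obj m, (f.hom.app m).hom y = x :=
  (exact_iff (ShortComplex.mk f (cokernel.π f) (cokernel.condition f))).1
    (ShortComplex.exact_cokernel f) m x hx

/-- The cokernel of a morphism to a cyclic module is cyclic. -/
lemma IsCyc.cokernel {M N : Gr X} {n : Deg X} {x : M.obj.obj n} {J : Ideal X.A}
    (h : IsCyc M n x J) (f : N ⟶ M) {J' : Ideal X.A} (hJ' : IsHom J')
    (hf : ∀ (l : Deg X) (b : n ⟶ l),
      (∃ w : N.obj.obj l, (f.hom.app l).hom w = (M.obj.map b).hom x) ↔ b.1 ∈ J') :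
    IsCyc (Limits.cokernel f) n (((cokernel.π f).hom.app n).hom x) J' where
  hom := hJ'
  gen := by
    intro m y
    obtain ⟨z, rfl⟩ := gr_surjective (cokernel.π f) m y
    obtain ⟨a, rfl⟩ := h.gen m z
    exact ⟨a, gr_naturality _ a x⟩
  ann := by
    intro m a
    rw [← gr_naturality, ← hf m a]
    constructor
    · intro h0
      exact exists_of_cokernel f m _ h0
    · rintro ⟨w, hw⟩
      rw [← hw]
      exact apply_eq_zero (cokernel.condition f) m w

theorem IsCyc.ses {M : Gr X} {n : Deg X} {x : M.obj.obj n} {J : Ideal X.A}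
    (h : IsCyc M n x J) {m : Deg X} (a : n ⟶ m) :
    ∃ (K C : Gr X) (i : K ⟶ M) (q : M ⟶ C) (w : i ≫ q = 0),
      (ShortComplex.mk i q w).ShortExact ∧ Cy K (col J a.1) ∧
        ∃ y : C.obj.obj n, IsCyc C n y (J ⊔ Ideal.span {a.1}) := by
  let f : P m ⟶ M := KuS.gen ((M.obj.map a).hom x)
  let q : M ⟶ Limits.cokernel f := cokernel.π f
  have hinj : ∀ l : Deg X, Function.Injective ((kernel.ι q).hom.app l).hom :=
    fun l => gr_injective (kernel.ι q) l
  have hfa : ∀ (l : Deg X) (b : m ⟶ l), (f.hom.app l).hom b = (M.obj.map (a ≫ b)).hom x := by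
    intro l b
    rw [map_comp']
    rfl
  refine ⟨kernel q, Limits.cokernel f, kernel.ι q, q, kernel.condition q,
    shortExact_mk _ _ _ hinj (fun l => gr_surjective q l) (fun l => exists_of_kernel q l), ?_,
    _, h.cokernel f (isHom_sup h.hom (isHom_span_singleton (mem_val a))) ?_⟩
  · have h0 : (q.hom.app m).hom ((M.obj.map a).hom x) = 0 := by
      have h1 := apply_eq_zero (cokernel.condition f) m (𝟙 m)
      have h2 : (f.hom.app m).hom (𝟙 m) = (M.obj.map a).hom x := gen_one _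
      rw [h2] at h1
      exact h1
    obtain ⟨k, hk⟩ := exists_of_kernel q m _ h0
    refine ⟨m, k, isHom_col (mem_val a) h.hom, ?_, ?_⟩
    · intro l y
      obtain ⟨b, hb⟩ := exists_of_cokernel f l (((kernel.ι q).hom.app l).hom y)
        (apply_eq_zero (kernel.condition q) l y)
      refine ⟨b, hinj l ?_⟩
      rw [gr_naturality, hk, ← hb, ← map_comp']
      exact hfa l b
    · intro l b
      rw [mem_col, ← comp_val', ← h.ann l (a ≫ b), map_comp', ← hk, ← gr_naturality]
      constructor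
      · intro h0
        rw [h0, map_zero]
      · intro h0
        exact hinj l (h0.trans (map_zero _).symm)
  · intro l b
    rw [mem_sup_span h.hom (mem_val a) (mem_val b)]
    constructor
    · rintro ⟨c, hc⟩
      refine ⟨(show m ⟶ l from c).1, mem_piece_congr (by ring) (mem_val (show m ⟶ l from c)), ?_⟩
      have h1 : (M.obj.map (a ≫ (show m ⟶ l from c))).hom x = (M.obj.map b).hom x :=
        (hfa l c).symm.trans hc
      have h2 : (M.obj.map (b - a ≫ (show m ⟶ l from c))).hom x = 0 := by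
        have h3 := map_add' M (b - a ≫ (show m ⟶ l from c)) (a ≫ (show m ⟶ l from c)) x
        rw [sub_add_cancel, h1] at h3
        exact (add_eq_right.1 h3.symm)
      exact (h.ann l _).1 h2
    · rintro ⟨c, hc, hc'⟩
      let c' : m ⟶ l := ⟨c, mem_piece_congr (by ring) hc⟩
      refine ⟨c', ?_⟩
      rw [hfa l c']
      have h2 : (M.obj.map (b - a ≫ c')).hom x = 0 := (h.ann l _).2 hc'
      have h3 := map_add' M (b - a ≫ c') (a ≫ c') x
      rw [sub_add_cancel, h2, zero_add] at h3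
      exact h3.symm

lemma surj_of_gen {M M' : Gr X} {n : Deg X} {x : M.obj.obj n} {x' : M'.obj.obj n}
    {J' : Ideal X.A} (h' : IsCyc M' n x' J') (f : M ⟶ M') (hf : (f.hom.app n).hom x = x')
    (m : Deg X) : Function.Surjective (f.hom.app m).hom := by
  intro y
  obtain ⟨a, rfl⟩ := h'.gen m y
  exact ⟨(M.obj.map a).hom x, by rw [gr_naturality, hf]⟩

theorem IsCyc.unique {M M' : Gr X} {n : Deg X} {x : M.obj.obj n} {x' : M'.obj.obj n}
    {J : Ideal X.A} (h : IsCyc M n x J) (h' : IsCyc M' n x' J) : Nonempty (M ≅ M') := by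
  obtain ⟨f, hf⟩ := h.exists_hom x' (fun m a ha => (h'.ann m a).2 ha)
  have hiso : IsIso f := (isIso_iff_bijective f).2 fun m => by
    refine ⟨?_, surj_of_gen h' f hf m⟩
    rw [injective_iff_map_eq_zero]
    intro y hy
    obtain ⟨a, rfl⟩ := h.gen m y
    rw [gr_naturality, hf] at hy
    exact (h.ann m a).2 ((h'.ann m a).1 hy)
  exact ⟨asIso f⟩

theorem IsCyc.exists_cover {M : Gr X} {n : Deg X} {x : M.obj.obj n} {p : Ideal X.A}
    (h : IsCyc M n x p) {J : Ideal X.A} (hJ : IsHom J) (hle : J ≤ p) :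
    ∃ (K B : Gr X) (i : K ⟶ B) (q : B ⟶ M) (w : i ≫ q = 0),
      (ShortComplex.mk i q w).ShortExact ∧ (∃ y : B.obj.obj n, IsCyc B n y J) ∧
        ∀ (d : ℤ) (s : X.piece d), (∀ a ∈ p, s.1 * a ∈ J) → (mulMap X d s).app K = 0 := by
  obtain ⟨B, xB, hB⟩ := exists_cyc hJ n
  obtain ⟨q, hq⟩ := hB.exists_hom x (fun m a ha => (h.ann m a).2 (hle ha))
  have hinj : ∀ l : Deg X, Function.Injective ((kernel.ι q).hom.app l).hom :=
    fun l => gr_injective (kernel.ι q) l
  refine ⟨kernel q, B, kernel.ι q, q, kernel.condition q,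
    shortExact_mk _ _ _ hinj (surj_of_gen h q hq) (fun l => exists_of_kernel q l),
    ⟨xB, hB⟩, fun d s hs => ?_⟩
  apply gr_hom_ext
  intro l y
  obtain ⟨a, ha⟩ := hB.gen l (((kernel.ι q).hom.app l).hom y)
  have h1 : a.1 ∈ p := by
    rw [← h.ann l a, ← hq, ← gr_naturality, ← ha]
    exact apply_eq_zero (kernel.condition q) l y
  let dz : l ⟶ (⟨l.deg + d⟩ : Deg X) := (degMul X d s).app l
  have h2 : ((kernel q).obj.map dz).hom y = 0 := by
    refine hinj _ ?_
    rw [gr_naturality, ha, ← map_comp']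
    refine Eq.trans ?_ (map_zero _).symm
    rw [hB.ann]
    have h3 : (a ≫ dz).1 = s.1 * a.1 := mul_comm _ _
    rw [h3]
    exact hs _ h1
  exact h2

theorem IsCyc.exists_cover_sup {B : Gr X} {n : Deg X} {x : B.obj.obj n} {J : Ideal X.A}
    (hJ : IsHom J) {e : ℤ} (v : X.piece e) (h : IsCyc B n x (J ⊔ Ideal.span {v.1})) :
    ∃ (K M' : Gr X) (i : K ⟶ M') (q : M' ⟶ B) (w : i ≫ q = 0),
      (ShortComplex.mk i q w).ShortExact ∧ Cy M' J ∧ Cy K (col J v.1) := by
  obtain ⟨M', x', hM'⟩ := exists_cyc hJ n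
  obtain ⟨K, C, i, q, w, hS, hK, y, hy⟩ := hM'.ses (m := ⟨n.deg + e⟩) (dh v.1 v.2 rfl)
  obtain ⟨φ⟩ := IsCyc.unique hy h
  have w' : i ≫ q ≫ φ.hom = 0 := by rw [← Category.assoc, w, zero_comp]
  refine ⟨K, M', i, q ≫ φ.hom, w', ?_, ⟨n, x', hM'⟩, hK⟩
  refine ShortComplex.shortExact_of_iso (ShortComplex.isoMk (S₁ := ShortComplex.mk i q w)
    (S₂ := ShortComplex.mk i (q ≫ φ.hom) w') (Iso.refl _) (Iso.refl _) φ ?_ ?_) hS
  · simp
  · simp

theorem Cy.mul_ses {M : Gr X} {p : Ideal X.A} [p.IsPrime] (h : Cy M p) {d : ℤ} (z : X.piece d)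
    (hz : z.1 ∉ p) :
    ∃ (C : Gr X) (q : (H24.Ku.twist X d).obj M ⟶ C) (w : (mulMap X d z).app M ≫ q = 0),
      (ShortComplex.mk ((mulMap X d z).app M) q w).ShortExact ∧ Cy C (p ⊔ Ideal.span {z.1}) := by
  have hT := h.twist d
  obtain ⟨n, x, hx⟩ := h
  obtain ⟨n', x', hx'⟩ := hT
  let f := (mulMap X d z).app M
  have hinj : ∀ l : Deg X, Function.Injective (f.hom.app l).hom := by
    intro l
    rw [injective_iff_map_eq_zero]
    intro y hy
    obtain ⟨a, rfl⟩ := hx.gen l y
    let dz : l ⟶ (⟨l.deg + d⟩ : Deg X) := (degMul X d z).app l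
    have h1 : (M.obj.map dz).hom ((M.obj.map a).hom x) = 0 := hy
    rw [← map_comp', hx.ann] at h1
    have h1 : a.1 * z.1 ∈ p := h1
    rw [hx.ann]
    exact (Ideal.IsPrime.mem_or_mem inferInstance h1).resolve_right hz
  refine ⟨Limits.cokernel f, cokernel.π f, cokernel.condition f,
    shortExact_mk _ _ _ hinj (fun l => gr_surjective _ l) (fun l => exists_of_cokernel f l),
    n', _, hx'.cokernel f (isHom_sup hx.hom (isHom_span_singleton z.2)) ?_⟩
  intro l b
  rw [mem_sup_span hx.hom z.2 (mem_val b)]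
  constructor
  · rintro ⟨w, hw⟩
    let t : l ⟶ (⟨l.deg - d + d⟩ : Deg X) := dh (d := 0) 1 ProjData.one_mem_piece (by ring)
    let w' : ((H24.Ku.twist X d).obj M).obj.obj ⟨l.deg - d⟩ := (M.obj.map t).hom w
    obtain ⟨c, hc⟩ := hx'.gen ⟨l.deg - d⟩ w'
    let zc : (⟨l.deg - d⟩ : Deg X) ⟶ l := dh z.1 z.2 (by ring)
    have hw' : (f.hom.app l).hom w = (((H24.Ku.twist X d).obj M).obj.map zc).hom w' := by
      let dz : l ⟶ (⟨l.deg + d⟩ : Deg X) := (degMul X d z).app l
      let sz : (⟨l.deg - d + d⟩ : Deg X) ⟶ ⟨l.deg + d⟩ := (degShift X d).map zc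
      have h6 : dz = t ≫ sz := Subtype.ext (one_mul z.1).symm
      change (M.obj.map dz).hom w = (M.obj.map sz).hom ((M.obj.map t).hom w)
      rw [← map_comp', h6]
    refine ⟨c.1, mem_piece_congr (by simp; ring) (mem_val c), ?_⟩
    rw [hw', hc, ← map_comp'] at hw
    have h2 : (((H24.Ku.twist X d).obj M).obj.map (b - c ≫ zc)).hom x' = 0 := by
      have h3 := map_add' ((H24.Ku.twist X d).obj M) (b - c ≫ zc) (c ≫ zc) x'
      rw [sub_add_cancel, hw] at h3
      exact (add_eq_right.1 h3.symm)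
    have h4 := (hx'.ann l _).1 h2
    have h5 : (b - c ≫ zc).1 = b.1 - z.1 * c.1 := congrArg (b.1 - ·) (mul_comm c.1 z.1)
    rw [h5] at h4
    exact h4
  · rintro ⟨c, hc, hc'⟩
    let c' : n' ⟶ (⟨l.deg - d⟩ : Deg X) := ⟨c, mem_piece_congr (by simp; ring) hc⟩
    let zc : (⟨l.deg - d⟩ : Deg X) ⟶ l := dh z.1 z.2 (by ring)
    let t' : (⟨l.deg - d + d⟩ : Deg X) ⟶ l := dh (d := 0) 1 ProjData.one_mem_piece (by ring)
    let w' : M.obj.obj ⟨l.deg - d + d⟩ := (((H24.Ku.twist X d).obj M).obj.map c').hom x'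
    refine ⟨(M.obj.map t').hom w', ?_⟩
    have h1 : (f.hom.app l).hom ((M.obj.map t').hom w') =
        (((H24.Ku.twist X d).obj M).obj.map zc).hom w' := by
      let dz : l ⟶ (⟨l.deg + d⟩ : Deg X) := (degMul X d z).app l
      let sz : (⟨l.deg - d + d⟩ : Deg X) ⟶ ⟨l.deg + d⟩ := (degShift X d).map zc
      have h6 : sz = t' ≫ dz := Subtype.ext (one_mul z.1).symm
      change (M.obj.map dz).hom ((M.obj.map t').hom w') = (M.obj.map sz).hom w'
      rw [← map_comp', h6]
    rw [h1]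
    have h5 : (b - c' ≫ zc).1 = b.1 - z.1 * c := congrArg (b.1 - ·) (mul_comm c z.1)
    have h2 : (((H24.Ku.twist X d).obj M).obj.map (b - c' ≫ zc)).hom x' = 0 := by
      rw [hx'.ann, h5]
      exact hc'
    have h3 := map_add' ((H24.Ku.twist X d).obj M) (b - c' ≫ zc) (c' ≫ zc) x'
    rw [sub_add_cancel, h2, zero_add, map_comp'] at h3
    exact h3.symm

end H40.KuS
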