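import Pool.Agent.H40.KuS.CycSes

/-!
# KuS-D1 Dev: graded devissage

* `devc`: well-founded induction on `J` (`X.A` is Noetherian: it is a quotient of `MvPolynomial`;
  `WellFoundedGT (Ideal X.A)`, `IsNoetherianRing`). Let `IsCyc M n x J`.
  `J = ⊤`: `M` is zero (`isZero_of_cy_top`), `hzero`. `J` prime: `hprime` with the induction hypothesis.
  `J ≠ ⊤` not prime: by `isPrime_of_homog` there are homogeneous `a ∈ A_d`, `b ∈ A_e`, `a * b ∈ J`,
  `a ∉ J`, `b ∉ J`. `IsCyc.ses` for `a : n ⟶ ⟨n.deg + d⟩` (`dh a ha rfl`): `K` cyclic with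
  annihilator `col J a ∋ b`, so `J < col J a`; `C` cyclic with annihilator `J ⊔ span {a} > J`; `hext`.
* `dev`: `M` is generated by `k` homogeneous elements (`M.property.2.2 : FG X M.obj`); induction on `k`.
  `k = 0`: `M` zero. `k + 1`: `x_0 ∈ M_{g_0}`, `C` = cokernel of `gen x_0`, `K` = image of `gen x_0`;
  `0 → K → M → C → 0` is short exact, `K` is cyclic with annihilator from `exists_ann`, `C` is generated
  by the images of `x_1, ..., x_k`.
-/

open CategoryTheory CategoryTheory.Limits Opposite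

noncomputable section

namespace H40.KuS

open H24.Ku

variable {X : ProjData}

theorem devc (Q : Ideal X.A → Gr X → Prop)
    (hzero : ∀ (J : Ideal X.A) (M : Gr X), IsZero M → Q J M)
    (hext : ∀ (J J' J'' : Ideal X.A) (S : ShortComplex (Gr X)), S.ShortExact → J ≤ J' → J ≤ J'' →
      Q J' S.X₁ → Q J'' S.X₃ → Q J S.X₂)
    (hprime : ∀ p : Ideal X.A, p.IsPrime → IsHom p →
      (∀ J : Ideal X.A, p < J → IsHom J → ∀ M : Gr X, Cy M J → Q J M) →
      ∀ M : Gr X, Cy M p → Q p M) :
    ∀ (J : Ideal X.A) (M : Gr X), Cy M J → Q J M := by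
  intro J
  induction J using WellFoundedGT.induction with
  | _ J ih =>
    intro M hM
    obtain ⟨n, x, h⟩ := hM
    by_cases htop : J = ⊤
    · subst htop
      exact hzero _ _ (isZero_of_cy_top ⟨n, x, h⟩)
    by_cases hpr : J.IsPrime
    · exact hprime J hpr h.hom (fun J' hlt _ M' hM' => ih J' hlt M' hM') M ⟨n, x, h⟩
    have hex : ∃ (d e : ℤ) (a b : X.A), a ∈ X.piece d ∧ b ∈ X.piece e ∧ a * b ∈ J ∧
        a ∉ J ∧ b ∉ J := by
      by_contra hc
      push Not at hc
      exact hpr (isPrime_of_homog h.hom htop fun d e a b ha hb hab => by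
        by_cases haJ : a ∈ J
        · exact Or.inl haJ
        · exact Or.inr (hc d e a b ha hb hab haJ))
    obtain ⟨d, e, a, b, ha, hb, hab, haJ, hbJ⟩ := hex
    obtain ⟨K, C, i, q, w, hS, hK, y, hC⟩ := h.ses (dh a ha rfl : n ⟶ ⟨n.deg + d⟩)
    rw [dh_val] at hK hC
    have h1 : J < col J a := by
      refine lt_of_le_of_ne (fun c hc => mem_col.2 (J.mul_mem_left a hc)) fun heq => ?_
      apply hbJ
      rw [heq]
      exact mem_col.2 hab
    have h2 : J < J ⊔ Ideal.span {a} := by
      refine lt_of_le_of_ne le_sup_left fun heq => ?_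
      apply haJ
      rw [heq]
      exact (le_sup_right : Ideal.span {a} ≤ _) (Ideal.mem_span_singleton_self a)
    exact hext J (col J a) (J ⊔ Ideal.span {a}) (ShortComplex.mk i q w) hS h1.le h2.le
      (ih _ h1 K hK) (ih _ h2 C ⟨n, y, hC⟩)

/-- The induction step of `dev`: the submodule generated by one element, and the quotient. -/
lemma exists_ses_gen (M : Gr X) (n : Deg X) (x : M.obj.obj n) :
    ∃ (K C : Gr X) (i : K ⟶ M) (q : M ⟶ C) (w : i ≫ q = 0) (J : Ideal X.A),
      (ShortComplex.mk i q w).ShortExact ∧ Cy K J ∧ (q.hom.app n).hom x = 0 := by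
  let f : P n ⟶ M := gen x
  have hex1 : (ShortComplex.mk f (cokernel.π f) (cokernel.condition f)).Exact :=
    ShortComplex.exact_cokernel f
  have hex2 : (ShortComplex.mk (kernel.ι (cokernel.π f)) (cokernel.π f)
      (kernel.condition _)).Exact := ShortComplex.exact_kernel _
  have hx : ((cokernel.π f).hom.app n).hom x = 0 := by
    have h1 := congrArg (fun g => (g.hom.app n).hom (𝟙 n)) (cokernel.condition f)
    have h2 : ((f ≫ cokernel.π f).hom.app n).hom (𝟙 n) =
        ((cokernel.π f).hom.app n).hom ((f.hom.app n).hom (𝟙 n)) := rfl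
    have h3 : (f.hom.app n).hom (𝟙 n) = x := gen_one x
    rw [h3] at h2
    exact h2.symm.trans h1
  obtain ⟨J, hJ, hann⟩ := exists_ann M n x
  obtain ⟨y, hy⟩ := (exact_iff _).1 hex2 n x hx
  refine ⟨kernel (cokernel.π f), cokernel f, kernel.ι _, cokernel.π f, kernel.condition _, J,
    { exact := hex2
      mono_f := inferInstanceAs (Mono (kernel.ι (cokernel.π f)))
      epi_g := inferInstanceAs (Epi (cokernel.π f)) }, ⟨n, y, ?_⟩, hx⟩
  refine { hom := hJ, gen := fun m z => ?_, ann := fun m a => ?_ }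
  · have hz : ((cokernel.π f).hom.app m).hom (((kernel.ι (cokernel.π f)).hom.app m).hom z) = 0 :=
      congrArg (fun g => (g.hom.app m).hom z) (kernel.condition (cokernel.π f))
    obtain ⟨a, ha⟩ := (exact_iff _).1 hex1 m _ hz
    refine ⟨a, gr_injective (kernel.ι (cokernel.π f)) m ?_⟩
    rw [gr_naturality, ← ha]
    have h4 : ((kernel.ι (cokernel.π f)).hom.app n).hom y = x := hy
    rw [h4]
    rfl
  · rw [← hann m a]
    have h4 : ((kernel.ι (cokernel.π f)).hom.app n).hom y = x := hy
    rw [← h4, ← gr_naturality]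
    constructor
    · intro h
      rw [h, map_zero]
    · intro h
      exact gr_injective (kernel.ι (cokernel.π f)) m (h.trans (map_zero _).symm)

theorem dev (Q : Gr X → Prop)
    (hzero : ∀ M : Gr X, IsZero M → Q M)
    (hext : ∀ S : ShortComplex (Gr X), S.ShortExact → Q S.X₁ → Q S.X₃ → Q S.X₂)
    (hcyc : ∀ (J : Ideal X.A) (M : Gr X), Cy M J → Q M) :
    ∀ M : Gr X, Q M := by
  have key : ∀ (k : ℕ) (M : Gr X) (g : Fin k → Deg X) (x : ∀ i, M.obj.obj (g i)),
      (∀ (n : Deg X) (y : M.obj.obj n), ∃ a : ∀ i, g i ⟶ n,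
        y = ∑ i, (M.obj.map (a i)).hom (x i)) → Q M := by
    intro k
    induction k with
    | zero =>
      intro M g x h
      refine hzero M ((isZero_iff_subsingleton M).2 fun m => ⟨fun y z => ?_⟩)
      obtain ⟨a, ha⟩ := h m y
      obtain ⟨b, hb⟩ := h m z
      rw [ha, hb]
      simp
    | succ k ih =>
      intro M g x h
      obtain ⟨K, C, i, q, w, J, hS, hK, hx⟩ := exists_ses_gen M (g 0) (x 0)
      have := hS.epi_g
      have hq : Epi q := hS.epi_g
      refine hext _ hS (hcyc J K hK) (ih C (fun i => g i.succ)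
        (fun i => (q.hom.app (g i.succ)).hom (x i.succ)) fun n y => ?_)
      obtain ⟨z, hz⟩ := gr_surjective q n y
      obtain ⟨a, ha⟩ := h n z
      refine ⟨fun i => a i.succ, ?_⟩
      rw [← hz, ha, Fin.sum_univ_succ, map_add, map_sum, gr_naturality, hx, map_zero, zero_add]
      exact Finset.sum_congr rfl fun i _ => gr_naturality q _ _
  intro M
  obtain ⟨k, g, x, h⟩ := M.property.2.2
  exact key k M g x h

end H40.KuS
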