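import Pool.Agent.H40.KuS.Basic

/-!
# KuS: the groups `EE M N i = Ext^i(M~, N~)`, and their exact sequences

For graded modules `M N : Gr X`:
* `EE M N i = Ext ((sheaf X).obj M) ((sheaf X).obj N) i`;
* `pre f : EE M N i →ₗ EE M' N i` for `f : M' ⟶ M`; `post g : EE M N i →ₗ EE M N' i` for
  `g : N ⟶ N'`;
* `dl hS : EE S.X₁ N i →ₗ EE S.X₃ N (i + 1)`, `dr hS : EE N S.X₃ i →ₗ EE N S.X₁ (i + 1)`, the
  connecting homomorphisms of a short exact sequence `S` in `Gr X`;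
* exactness: `pre_exact₂, pre_exact₃, pre_exact₁, post_exact₂, post_exact₁, post_exact₃`;
* `e0 : (M~ ⟶ N~) ≃ₗ EE M N 0`.
-/

open CategoryTheory CategoryTheory.Limits CategoryTheory.Abelian Opposite

noncomputable section

namespace H40.KuS

open H24.Ku

variable {X : ProjData}

/-- `Ext^i(M~, N~)`. -/
abbrev EE (M N : Gr X) (i : ℕ) : Type 1 := Ext ((sheaf X).obj M) ((sheaf X).obj N) i

/-- The class in `Ext^0` of a morphism of graded modules. -/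
abbrev sm {M N : Gr X} (f : M ⟶ N) : EE M N 0 := Ext.mk₀ ((sheaf X).map f)

lemma sm_comp_sm {M N K : Gr X} (f : M ⟶ N) (g : N ⟶ K) :
    (sm f).comp (sm g) (zero_add 0) = sm (f ≫ g) := by
  rw [sm, sm, Ext.mk₀_comp_mk₀, ← Functor.map_comp]

lemma sm_zero {M N : Gr X} : sm (0 : M ⟶ N) = 0 := by
  rw [sm, Functor.map_zero, Ext.mk₀_zero]

lemma sm_add {M N : Gr X} (f g : M ⟶ N) : sm (f + g) = sm f + sm g := by
  rw [sm, Functor.map_add, Ext.mk₀_add]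

lemma sm_smul {M N : Gr X} (c : ℂ) (f : M ⟶ N) : sm (c • f) = c • sm f := by
  rw [sm, Functor.map_smul, Ext.mk₀_smul]

/-- Composition with a morphism of graded modules on the left. -/
def pre {M' M N : Gr X} {i : ℕ} (f : M' ⟶ M) : EE M N i →ₗ[ℂ] EE M' N i where
  toFun ξ := (sm f).comp ξ (zero_add i)
  map_add' _ _ := Ext.comp_add _ _ _ _
  map_smul' _ _ := Ext.comp_smul _ _ _ _

/-- Composition with a morphism of graded modules on the right. -/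
def post {M N N' : Gr X} {i : ℕ} (g : N ⟶ N') : EE M N i →ₗ[ℂ] EE M N' i where
  toFun ξ := ξ.comp (sm g) (add_zero i)
  map_add' _ _ := Ext.add_comp _ _ _ _
  map_smul' _ _ := Ext.smul_comp _ _ _ _

lemma pre_apply {M' M N : Gr X} {i : ℕ} (f : M' ⟶ M) (ξ : EE M N i) :
    pre f ξ = (sm f).comp ξ (zero_add i) := rfl

lemma post_apply {M N N' : Gr X} {i : ℕ} (g : N ⟶ N') (ξ : EE M N i) :
    post g ξ = ξ.comp (sm g) (add_zero i) := rfl

lemma pre_pre {M'' M' M N : Gr X} {i : ℕ} (g : M'' ⟶ M') (f : M' ⟶ M) (ξ : EE M N i) :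
    pre g (pre f ξ) = pre (g ≫ f) ξ := by
  rw [pre_apply, pre_apply, pre_apply, ← sm_comp_sm]
  exact (Ext.comp_assoc _ _ _ _ _ (by omega)).symm

lemma post_post {M N N' N'' : Gr X} {i : ℕ} (g : N ⟶ N') (h : N' ⟶ N'') (ξ : EE M N i) :
    post h (post g ξ) = post (g ≫ h) ξ := by
  rw [post_apply, post_apply, post_apply, ← sm_comp_sm]
  exact Ext.comp_assoc _ _ _ _ _ (by omega)

lemma pre_post {M' M N N' : Gr X} {i : ℕ} (f : M' ⟶ M) (g : N ⟶ N') (ξ : EE M N i) :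
    pre f (post g ξ) = post g (pre f ξ) := by
  rw [pre_apply, post_apply, pre_apply, post_apply]
  exact (Ext.comp_assoc _ _ _ _ _ (by omega)).symm

lemma pre_id {M N : Gr X} {i : ℕ} (ξ : EE M N i) : pre (𝟙 M) ξ = ξ := by
  rw [pre_apply, sm, CategoryTheory.Functor.map_id]
  exact Ext.mk₀_id_comp ξ

lemma post_id {M N : Gr X} {i : ℕ} (ξ : EE M N i) : post (𝟙 N) ξ = ξ := by
  rw [post_apply, sm, CategoryTheory.Functor.map_id]
  exact Ext.comp_mk₀_id ξ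

lemma pre_zero {M' M N : Gr X} {i : ℕ} (ξ : EE M N i) : pre (0 : M' ⟶ M) ξ = 0 := by
  rw [pre_apply, sm_zero, Ext.zero_comp]

lemma post_zero {M N N' : Gr X} {i : ℕ} (ξ : EE M N i) : post (0 : N ⟶ N') ξ = 0 := by
  rw [post_apply, sm_zero, Ext.comp_zero]

lemma pre_add {M' M N : Gr X} {i : ℕ} (f g : M' ⟶ M) (ξ : EE M N i) :
    pre (f + g) ξ = pre f ξ + pre g ξ := by
  rw [pre_apply, sm_add, Ext.add_comp]; rfl

lemma pre_smul {M' M N : Gr X} {i : ℕ} (c : ℂ) (f : M' ⟶ M) (ξ : EE M N i) :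
    pre (c • f) ξ = c • pre f ξ := by
  rw [pre_apply, sm_smul, Ext.smul_comp]; rfl

lemma post_add {M N N' : Gr X} {i : ℕ} (f g : N ⟶ N') (ξ : EE M N i) :
    post (f + g) ξ = post f ξ + post g ξ := by
  rw [post_apply, sm_add, Ext.comp_add]; rfl

lemma post_smul {M N N' : Gr X} {i : ℕ} (c : ℂ) (f : N ⟶ N') (ξ : EE M N i) :
    post (c • f) ξ = c • post f ξ := by
  rw [post_apply, sm_smul, Ext.comp_smul]; rfl

lemma shortExact_sheaf {S : ShortComplex (Gr X)} (hS : S.ShortExact) :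
    (S.map (sheaf X)).ShortExact := hS.map_of_exact (sheaf X)

/-- The class of a short exact sequence of graded modules. -/
def cls {S : ShortComplex (Gr X)} (hS : S.ShortExact) : EE S.X₃ S.X₁ 1 :=
  (shortExact_sheaf hS).extClass

/-- The connecting homomorphism for the first variable. -/
def dl {S : ShortComplex (Gr X)} (hS : S.ShortExact) {N : Gr X} {i : ℕ} :
    EE S.X₁ N i →ₗ[ℂ] EE S.X₃ N (i + 1) where
  toFun ξ := (cls hS).comp ξ (add_comm 1 i)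
  map_add' _ _ := Ext.comp_add _ _ _ _
  map_smul' _ _ := Ext.comp_smul _ _ _ _

/-- The connecting homomorphism for the second variable. -/
def dr {S : ShortComplex (Gr X)} (hS : S.ShortExact) {N : Gr X} {i : ℕ} :
    EE N S.X₃ i →ₗ[ℂ] EE N S.X₁ (i + 1) where
  toFun ξ := ξ.comp (cls hS) rfl
  map_add' _ _ := Ext.add_comp _ _ _ _
  map_smul' _ _ := Ext.smul_comp _ _ _ _

section
variable {S : ShortComplex (Gr X)} (hS : S.ShortExact) {N : Gr X} {i : ℕ}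
include hS

lemma pre_exact₂ (ξ : EE S.X₂ N i) (h : pre S.f ξ = 0) : ∃ η : EE S.X₃ N i, pre S.g η = ξ :=
  Ext.contravariant_sequence_exact₂ (shortExact_sheaf hS) _ ξ h

lemma pre_exact₃ (ξ : EE S.X₃ N (i + 1)) (h : pre S.g ξ = 0) :
    ∃ η : EE S.X₁ N i, dl hS η = ξ :=
  Ext.contravariant_sequence_exact₃ (shortExact_sheaf hS) _ ξ h (add_comm 1 i)

lemma pre_exact₁ (ξ : EE S.X₁ N i) (h : dl hS ξ = 0) : ∃ η : EE S.X₂ N i, pre S.f η = ξ :=
  Ext.contravariant_sequence_exact₁ (shortExact_sheaf hS) _ ξ (add_comm 1 i) h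

lemma post_exact₂ (ξ : EE N S.X₂ i) (h : post S.g ξ = 0) : ∃ η : EE N S.X₁ i, post S.f η = ξ :=
  Ext.covariant_sequence_exact₂ _ (shortExact_sheaf hS) ξ h

lemma post_exact₁ (ξ : EE N S.X₁ (i + 1)) (h : post S.f ξ = 0) :
    ∃ η : EE N S.X₃ i, dr hS η = ξ :=
  Ext.covariant_sequence_exact₁ _ (shortExact_sheaf hS) ξ h rfl

lemma post_exact₃ (ξ : EE N S.X₃ i) (h : dr hS ξ = 0) : ∃ η : EE N S.X₂ i, post S.g η = ξ :=
  Ext.covariant_sequence_exact₃ _ (shortExact_sheaf hS) ξ rfl h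

lemma dl_pre (ξ : EE S.X₂ N i) : dl hS (pre S.f ξ) = 0 :=
  (shortExact_sheaf hS).extClass_comp_assoc (n := i) ξ (h := add_comm 1 i)

lemma pre_dl (ξ : EE S.X₁ N i) : pre S.g (dl hS ξ) = 0 :=
  (shortExact_sheaf hS).comp_extClass_assoc ξ (add_comm 1 i)

lemma dr_post (ξ : EE N S.X₂ i) : dr hS (post S.g ξ) = 0 := by
  have h := (shortExact_sheaf hS).comp_extClass
  refine (Ext.comp_assoc ξ (sm S.g) (cls hS) (add_zero i) (zero_add 1) (by omega)).trans ?_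
  exact (congrArg (fun z => Ext.comp ξ z rfl) h).trans (Ext.comp_zero _ _ _ _ _)

lemma post_dr (ξ : EE N S.X₃ i) : post S.f (dr hS ξ) = 0 := by
  have h := (shortExact_sheaf hS).extClass_comp
  refine (Ext.comp_assoc ξ (cls hS) (sm S.f) rfl (add_zero 1) (by omega)).trans ?_
  exact (congrArg (fun z => Ext.comp ξ z rfl) h).trans (Ext.comp_zero _ _ _ _ _)

end

/-- `Hom(M~, N~) = Ext^0(M~, N~)`. -/
def e0 {M N : Gr X} : ((sheaf X).obj M ⟶ (sheaf X).obj N) ≃ₗ[ℂ] EE M N 0 :=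
  (Ext.linearEquiv₀ (R := ℂ)).symm

lemma e0_apply {M N : Gr X} (f : (sheaf X).obj M ⟶ (sheaf X).obj N) : e0 f = Ext.mk₀ f := rfl

lemma post_e0 {M N N' : Gr X} (f : (sheaf X).obj M ⟶ (sheaf X).obj N) (g : N ⟶ N') :
    post g (e0 f) = e0 (f ≫ (sheaf X).map g) := Ext.mk₀_comp_mk₀ _ _

lemma pre_e0 {M' M N : Gr X} (g : M' ⟶ M) (f : (sheaf X).obj M ⟶ (sheaf X).obj N) :
    pre g (e0 f) = e0 ((sheaf X).map g ≫ f) := Ext.mk₀_comp_mk₀ _ _

lemma pre_bijective_of_isIso {M' M N : Gr X} {i : ℕ} (f : M' ⟶ M) [IsIso ((sheaf X).map f)] :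
    Function.Bijective (pre f : EE M N i → EE M' N i) := by
  have h1 : (Ext.mk₀ ((sheaf X).map f)).comp (Ext.mk₀ (inv ((sheaf X).map f))) (zero_add 0) =
      Ext.mk₀ (𝟙 _) := by rw [Ext.mk₀_comp_mk₀, IsIso.hom_inv_id]
  have h2 : (Ext.mk₀ (inv ((sheaf X).map f))).comp (Ext.mk₀ ((sheaf X).map f)) (zero_add 0) =
      Ext.mk₀ (𝟙 _) := by rw [Ext.mk₀_comp_mk₀, IsIso.inv_hom_id]
  refine Function.bijective_iff_has_inverse.2
    ⟨fun ξ => (Ext.mk₀ (inv ((sheaf X).map f))).comp ξ (zero_add i), fun ξ => ?_, fun ξ => ?_⟩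
  · refine (Ext.comp_assoc _ _ _ (zero_add 0) (zero_add i) (by omega)).symm.trans ?_
    rw [h2, Ext.mk₀_id_comp]
  · refine (Ext.comp_assoc _ _ _ (zero_add 0) (zero_add i) (by omega)).symm.trans ?_
    rw [h1, Ext.mk₀_id_comp]

lemma post_bijective_of_isIso {M N N' : Gr X} {i : ℕ} (f : N ⟶ N') [IsIso ((sheaf X).map f)] :
    Function.Bijective (post f : EE M N i → EE M N' i) := by
  have h1 : (Ext.mk₀ ((sheaf X).map f)).comp (Ext.mk₀ (inv ((sheaf X).map f))) (zero_add 0) =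
      Ext.mk₀ (𝟙 _) := by rw [Ext.mk₀_comp_mk₀, IsIso.hom_inv_id]
  have h2 : (Ext.mk₀ (inv ((sheaf X).map f))).comp (Ext.mk₀ ((sheaf X).map f)) (zero_add 0) =
      Ext.mk₀ (𝟙 _) := by rw [Ext.mk₀_comp_mk₀, IsIso.inv_hom_id]
  refine Function.bijective_iff_has_inverse.2
    ⟨fun ξ => ξ.comp (Ext.mk₀ (inv ((sheaf X).map f))) (add_zero i), fun ξ => ?_, fun ξ => ?_⟩
  · refine (Ext.comp_assoc _ _ _ (add_zero i) (zero_add 0) (by omega)).trans ?_
    rw [h1, Ext.comp_mk₀_id]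
  · refine (Ext.comp_assoc _ _ _ (add_zero i) (zero_add 0) (by omega)).trans ?_
    rw [h2, Ext.comp_mk₀_id]

/-- `Ext` from a zero sheaf vanishes. -/
lemma EE_eq_zero_of_src {M N : Gr X} {i : ℕ} (h : IsZero ((sheaf X).obj M)) (ξ : EE M N i) :
    ξ = 0 := by
  rw [← pre_id ξ, pre_apply, sm, h.eq_of_src ((sheaf X).map (𝟙 M)) 0, Ext.mk₀_zero, Ext.zero_comp]

/-- `Ext` to a zero sheaf vanishes. -/
lemma EE_eq_zero_of_tgt {M N : Gr X} {i : ℕ} (h : IsZero ((sheaf X).obj N)) (ξ : EE M N i) :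
    ξ = 0 := by
  rw [← post_id ξ, post_apply, sm, h.eq_of_src ((sheaf X).map (𝟙 N)) 0, Ext.mk₀_zero,
    Ext.comp_zero]

end H40.KuS
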