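import Pool.Agent.H40.KuS.ExtBasic
import Pool.Agent.H24.Ku.S.ExtNat

/-!
# KuS-T1 ExtTw: the twist on `Ext` groups

`twE d : EE M N i → EE (M(d)) (N(d)) i` is induced by the exact equivalence `cohTwist X d`
(`Ext.mapExactFunctor`), conjugated with `cohTwistIso X d : sheaf X ⋙ cohTwist X d ≅ twist X d ⋙ sheaf X`.

* `twE_add`, `twE_smul`: `Ext.mapExactFunctor_add`, `Functor.mapExactFunctor_smul`, bilinearity of `comp`.
* `twE_bijective`: `mapExt_bijective_of_isEquivalence` (`H24/Ku/S/ExtNat.lean`) and composition with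
  isomorphisms.
* `twE_sm`: `Ext.mapExactFunctor_mk₀`, `Ext.mk₀_comp_mk₀`, naturality of `cohTwistIso`.
* `twE_pre`, `twE_post`, `twE_comp`: `Ext.mapExactFunctor_comp`, `Ext.comp_assoc`.
* `twE_mul`: `mapExactFunctor_naturality` for `cohMul X d s : 𝟭 _ ⟶ cohTwist X d` (for `F = 𝟭` note
  `e.mapExactFunctor (𝟭 _) = e`; it may be easier to prove it by the same induction, or use
  `mapExactFunctor_naturality` for `F = 𝟭` and a lemma `mapExactFunctor_id` proved through
  `exists_extClass_comp` by induction), and `cohMul_app_sheaf`.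
-/

open CategoryTheory CategoryTheory.Limits CategoryTheory.Abelian Opposite

noncomputable section

namespace H40.KuS

open H24.Ku

section

universe w v u

variable {C : Type u} [Category.{v} C] [Abelian C] [HasExt.{w} C]

theorem mapExactFunctor_id {A B : C} {n : ℕ} (e : Ext A B n) : e.mapExactFunctor (𝟭 C) = e := by
  induction n generalizing A with
  | zero =>
    obtain ⟨f, rfl⟩ := (Ext.mk₀_bijective A B).2 e
    exact Ext.mapExactFunctor_mk₀ (𝟭 C) f
  | succ n ih =>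
    obtain ⟨S, hS, i, e', he⟩ := exists_extClass_comp e
    have key : (hS.extClass.comp e' (add_comm 1 n)).mapExactFunctor (𝟭 C) =
        hS.extClass.comp e' (add_comm 1 n) := by
      refine (Ext.mapExactFunctor_comp (𝟭 C) hS.extClass e' (add_comm 1 n)).trans ?_
      have h1 : hS.extClass.mapExactFunctor (𝟭 C) = hS.extClass :=
        Ext.mapExactFunctor_extClass (𝟭 C) hS
      have h2 := ih e'
      exact (congrArg (fun z => Ext.comp z (e'.mapExactFunctor (𝟭 C)) (add_comm 1 n)) h1).trans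
        (congrArg (fun z => Ext.comp hS.extClass z (add_comm 1 n)) h2)
    have h1 : e = (Ext.mk₀ i.inv).comp (hS.extClass.comp e' (add_comm 1 n)) (zero_add (n + 1)) := by
      rw [← he]
      exact extNat_eq_of_iso i e
    have h2 : ((Ext.mk₀ i.inv).comp (hS.extClass.comp e' (add_comm 1 n))
        (zero_add (n + 1))).mapExactFunctor (𝟭 C) =
        (Ext.mk₀ i.inv).comp (hS.extClass.comp e' (add_comm 1 n)) (zero_add (n + 1)) := by
      refine (Ext.mapExactFunctor_comp (𝟭 C) (Ext.mk₀ i.inv) _ (zero_add (n + 1))).trans ?_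
      exact (congrArg (fun z => Ext.comp z ((hS.extClass.comp e' (add_comm 1 n)).mapExactFunctor
          (𝟭 C)) (zero_add (n + 1))) (Ext.mapExactFunctor_mk₀ (𝟭 C) i.inv)).trans
        (congrArg (fun z => Ext.comp (Ext.mk₀ i.inv) z (zero_add (n + 1))) key)
    exact h1 ▸ h2

/-- Conjugation by `a`, `b` has the inverse conjugation. -/
lemma conj_conj {A A' B B' : C} {n : ℕ} (a : A ⟶ A') (a' : A' ⟶ A) (ha : a ≫ a' = 𝟙 A)
    (b : B ⟶ B') (b' : B' ⟶ B) (hb : b ≫ b' = 𝟙 B) (ζ : Ext A B n) :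
    (Ext.mk₀ a).comp (((Ext.mk₀ a').comp (ζ.comp (Ext.mk₀ b) (add_zero n))
      (zero_add n)).comp (Ext.mk₀ b') (add_zero n)) (zero_add n) = ζ := by
  have h1 : (ζ.comp (Ext.mk₀ b) (add_zero n)).comp (Ext.mk₀ b') (add_zero n) = ζ := by
    refine (Ext.comp_assoc ζ _ _ (add_zero n) (zero_add 0) (by omega)).trans ?_
    rw [Ext.mk₀_comp_mk₀, hb, Ext.comp_mk₀_id]
  have h2 : ((Ext.mk₀ a').comp (ζ.comp (Ext.mk₀ b) (add_zero n))
      (zero_add n)).comp (Ext.mk₀ b') (add_zero n) = (Ext.mk₀ a').comp ζ (zero_add n) := by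
    refine (Ext.comp_assoc _ _ _ (zero_add n) (add_zero n) (by omega)).trans ?_
    rw [h1]
  rw [h2, Ext.mk₀_comp_mk₀_assoc, ha, Ext.mk₀_id_comp]

/-- Conjugation is compatible with composition. -/
lemma conj_comp {A A' B B' K K' : C} {i j k : ℕ} (a : A' ⟶ A) (b : B ⟶ B') (b' : B' ⟶ B)
    (hb : b ≫ b' = 𝟙 B) (c : K ⟶ K') (ξ : Ext A B i) (η : Ext B K j) (h : i + j = k) :
    (Ext.mk₀ a).comp ((ξ.comp η h).comp (Ext.mk₀ c) (add_zero k)) (zero_add k) =
      ((Ext.mk₀ a).comp (ξ.comp (Ext.mk₀ b) (add_zero i)) (zero_add i)).comp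
        ((Ext.mk₀ b').comp (η.comp (Ext.mk₀ c) (add_zero j)) (zero_add j)) h := by
  symm
  calc ((Ext.mk₀ a).comp (ξ.comp (Ext.mk₀ b) (add_zero i)) (zero_add i)).comp
        ((Ext.mk₀ b').comp (η.comp (Ext.mk₀ c) (add_zero j)) (zero_add j)) h
      = (Ext.mk₀ a).comp ((ξ.comp (Ext.mk₀ b) (add_zero i)).comp
        ((Ext.mk₀ b').comp (η.comp (Ext.mk₀ c) (add_zero j)) (zero_add j)) h) (zero_add k) :=
        Ext.comp_assoc _ _ _ _ _ (by omega)
    _ = (Ext.mk₀ a).comp (ξ.comp ((Ext.mk₀ b).comp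
        ((Ext.mk₀ b').comp (η.comp (Ext.mk₀ c) (add_zero j)) (zero_add j)) (zero_add j)) h)
        (zero_add k) := by
        congr 1
        exact Ext.comp_assoc _ _ _ _ _ (by omega)
    _ = (Ext.mk₀ a).comp (ξ.comp (η.comp (Ext.mk₀ c) (add_zero j)) h) (zero_add k) := by
        rw [Ext.mk₀_comp_mk₀_assoc, hb, Ext.mk₀_id_comp]
    _ = _ := by
        congr 1
        exact (Ext.comp_assoc _ _ _ _ _ (by omega)).symm

end

variable {X : ProjData}

/-- The twist on `Ext` groups. -/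
def twE (d : ℤ) {M N : Gr X} {i : ℕ} (ξ : EE M N i) :
    EE ((twist X d).obj M) ((twist X d).obj N) i :=
  (Ext.mk₀ ((cohTwistIso X d).inv.app M)).comp
    ((ξ.mapExactFunctor (cohTwist X d)).comp (Ext.mk₀ ((cohTwistIso X d).hom.app N))
      (add_zero i)) (zero_add i)

theorem twE_add (d : ℤ) {M N : Gr X} {i : ℕ} (ξ η : EE M N i) :
    twE d (ξ + η) = twE d ξ + twE d η := by
  rw [twE, Ext.mapExactFunctor_add]
  exact (congrArg (fun z => Ext.comp (Ext.mk₀ ((cohTwistIso X d).inv.app M)) z (zero_add i))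
    (Ext.add_comp _ _ _ _)).trans (Ext.comp_add _ _ _ _)

theorem twE_smul (d : ℤ) {M N : Gr X} {i : ℕ} (c : ℂ) (ξ : EE M N i) :
    twE d (c • ξ) = c • twE d ξ := by
  rw [twE, Functor.mapExactFunctor_smul]
  exact (congrArg (fun z => Ext.comp (Ext.mk₀ ((cohTwistIso X d).inv.app M)) z (zero_add i))
    (Ext.smul_comp _ _ _ _)).trans (Ext.comp_smul _ _ _ _)

/-- The isomorphism `M~(d) = M(d)~`. -/
def tH (d : ℤ) (M : Gr X) : (cohTwist X d).obj ((sheaf X).obj M) ⟶
    (sheaf X).obj ((twist X d).obj M) := (cohTwistIso X d).hom.app M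

/-- The inverse isomorphism. -/
def tI (d : ℤ) (M : Gr X) : (sheaf X).obj ((twist X d).obj M) ⟶
    (cohTwist X d).obj ((sheaf X).obj M) := (cohTwistIso X d).inv.app M

lemma tH_tI (d : ℤ) (M : Gr X) : tH d M ≫ tI d M = 𝟙 _ := Iso.hom_inv_id_app _ _

lemma tI_tH (d : ℤ) (M : Gr X) : tI d M ≫ tH d M = 𝟙 _ := Iso.inv_hom_id_app _ _

lemma twE_eq (d : ℤ) {M N : Gr X} {i : ℕ} (ξ : EE M N i) :
    twE d ξ = (Ext.mk₀ (tI d M)).comp ((ξ.mapExactFunctor (cohTwist X d)).comp (Ext.mk₀ (tH d N))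
      (add_zero i)) (zero_add i) := rfl

theorem twE_bijective (d : ℤ) (M N : Gr X) (i : ℕ) :
    Function.Bijective (twE d : EE M N i → EE ((twist X d).obj M) ((twist X d).obj N) i) := by
  have h1 := mapExt_bijective_of_isEquivalence (cohTwist X d) ((sheaf X).obj M) ((sheaf X).obj N) i
  have h2 : Function.Bijective (fun ζ : Ext ((cohTwist X d).obj ((sheaf X).obj M))
      ((cohTwist X d).obj ((sheaf X).obj N)) i =>
      ((Ext.mk₀ (tI d M)).comp
        (ζ.comp (Ext.mk₀ (tH d N)) (add_zero i)) (zero_add i) :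
        EE ((twist X d).obj M) ((twist X d).obj N) i)) :=
    Function.bijective_iff_has_inverse.2
      ⟨fun ζ => (Ext.mk₀ (tH d M)).comp
        (ζ.comp (Ext.mk₀ (tI d N)) (add_zero i)) (zero_add i),
        fun ζ => conj_conj (tH d M) (tI d M) (tH_tI d M) (tH d N) (tI d N) (tH_tI d N) ζ,
        fun ζ => conj_conj (tI d M) (tH d M) (tI_tH d M) (tI d N) (tH d N) (tI_tH d N) ζ⟩
  exact h2.comp h1

theorem twE_sm (d : ℤ) {M N : Gr X} (f : M ⟶ N) : twE d (sm f) = sm ((twist X d).map f) := by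
  rw [twE, sm, Ext.mapExactFunctor_mk₀, Ext.mk₀_comp_mk₀, Ext.mk₀_comp_mk₀]
  have h := (cohTwistIso X d).hom.naturality f
  have h3 : (cohTwistIso X d).inv.app M ≫ (cohTwist X d).map ((sheaf X).map f) ≫
      (cohTwistIso X d).hom.app N = (sheaf X).map ((twist X d).map f) := by
    refine (congrArg (fun z => (cohTwistIso X d).inv.app M ≫ z) h).trans ?_
    exact Iso.inv_hom_id_app_assoc _ _ _
  rw [sm]
  exact congrArg Ext.mk₀ h3

theorem twE_comp (d : ℤ) {M N K : Gr X} {i j k : ℕ} (ξ : EE M N i) (η : EE N K j)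
    (h : i + j = k) : twE d (ξ.comp η h) = (twE d ξ).comp (twE d η) h := by
  rw [twE_eq, twE_eq, twE_eq, Ext.mapExactFunctor_comp]
  exact conj_comp (tI d M) (tH d N) (tI d N) (tH_tI d N) (tH d K) _ _ h

theorem twE_pre (d : ℤ) {M' M N : Gr X} {i : ℕ} (f : M' ⟶ M) (ξ : EE M N i) :
    twE d (pre f ξ) = pre ((twist X d).map f) (twE d ξ) := by
  rw [pre_apply, twE_comp, twE_sm, pre_apply]

theorem twE_post (d : ℤ) {M N N' : Gr X} {i : ℕ} (g : N ⟶ N') (ξ : EE M N i) :
    twE d (post g ξ) = post ((twist X d).map g) (twE d ξ) := by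
  rw [post_apply, twE_comp, twE_sm, post_apply]

/-- Multiplication by `s ∈ A_d` on the two sides of a class is the same, up to the twist. -/
theorem twE_mul {d : ℤ} (s : X.piece d) {M N : Gr X} {i : ℕ} (ξ : EE M N i) :
    post ((mulMap X d s).app N) ξ = pre ((mulMap X d s).app M) (twE d ξ) := by
  have h1 := mapExactFunctor_naturality (𝟭 (Coh X)) (cohTwist X d) (cohMul X d s) ξ
  have h2 : (Ext.mk₀ ((cohMul X d s).app ((sheaf X).obj M))).comp
      (ξ.mapExactFunctor (cohTwist X d)) (zero_add i) =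
      ξ.comp (Ext.mk₀ ((cohMul X d s).app ((sheaf X).obj N))) (add_zero i) :=
    h1.trans (congrArg (fun z => Ext.comp z (Ext.mk₀ ((cohMul X d s).app ((sheaf X).obj N)))
      (add_zero i)) (mapExactFunctor_id ξ))
  rw [cohMul_app_sheaf, cohMul_app_sheaf] at h2
  have h2' : (Ext.mk₀ ((sheaf X).map ((mulMap X d s).app M) ≫ tI d M)).comp
      (ξ.mapExactFunctor (cohTwist X d)) (zero_add i) =
      ξ.comp (Ext.mk₀ ((sheaf X).map ((mulMap X d s).app N) ≫ tI d N)) (add_zero i) := h2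
  have h3 : (ξ.comp (Ext.mk₀ ((sheaf X).map ((mulMap X d s).app N) ≫ tI d N)) (add_zero i)).comp
      (Ext.mk₀ (tH d N)) (add_zero i) = ξ.comp (sm ((mulMap X d s).app N)) (add_zero i) := by
    refine (Ext.comp_assoc _ _ _ (add_zero i) (zero_add 0) (by omega)).trans ?_
    rw [Ext.mk₀_comp_mk₀, Category.assoc, tI_tH]
    exact congrArg (fun z => Ext.comp ξ (Ext.mk₀ z) (add_zero i)) (Category.comp_id _)
  have h4 : (sm ((mulMap X d s).app M)).comp (Ext.mk₀ (tI d M)) (zero_add 0) =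
      Ext.mk₀ ((sheaf X).map ((mulMap X d s).app M) ≫ tI d M) := Ext.mk₀_comp_mk₀ _ _
  rw [post_apply, pre_apply, twE_eq, ← h3, ← h2', ← h4]
  refine (Ext.comp_assoc _ _ _ (zero_add i) (add_zero i) (by omega)).trans ?_
  exact Ext.comp_assoc _ _ _ (zero_add 0) (zero_add i) (by omega)

end H40.KuS
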