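import Pool.Agent.H40.KuS.Basic
import Pool.Agent.H24.Ku.Ev
import Pool.Agent.H63.KH.Frac

/-!
# KuS-F1 Frac: morphisms of coherent sheaves as fractions

`sheaf X = (finLen X).isoModSerre.Q` is a localization functor, `(finLen X).isoModSerre` has left and
right calculus of fractions (`Mathlib/CategoryTheory/Abelian/SerreClass/Localization.lean`),
`isZero_sheaf_iff`, `isIso_sheaf_map_iff` (`H24/Ku/CohTwist.lean`), `sheaf X` is exact.

* `frac`: `Localization.exists_rightFraction (sheaf X) (finLen X).isoModSerre φ`.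
* `bijective_large`: the kernel and the cokernel of `s` are in `finLen X` (`isIso_sheaf_map_iff`; by
  definition of `isoModSerre` = `monoModSerre ⊓ epiModSerre`), i.e. zero in large degrees; use the exactness of
  `evalDeg X n` / `ev X n` (`(ev X n).map_kernel...`, or elementwise through `exact_iff`).
* `surjective_large`: the cokernel of `g` is killed by `sheaf X`, so it is in `finLen X`.
* `eq_zero_large`: `(sheaf X).map g = 0` iff `image g ∈ finLen X`
  (`ObjectProperty.SerreClassLocalization.map_eq_zero_iff`).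
* `lift_epi`: `frac φ = (N', s, g)`; `(sheaf X).map g = (sheaf X).map s ≫ φ` is epi; in large degrees `y = g u`,
  take `x = s u`: `Lgen x ≫ φ = Lgen u ≫ (sheaf X).map s ≫ φ = Lgen u ≫ (sheaf X).map g = Lgen y` (`Lgen_comp`).
* `hom_exists`: `frac ψ = (N', s, g)`, `s : N' ⟶ P n` is bijective in degrees `m ≥ k`; for `a : n ⟶ m`,
  `a ∈ (P n)_m` is `s u`; `Pm a = gen a = gen u ≫ s`, so `Lm a ≫ ψ = Lgen u ≫ (sheaf X).map g = Lgen (g u)`.
* `Lgen_eq_zero_iff`: `eq_zero_large` for `gen y` (`gen_app`); conversely the image of `gen y` is zero in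
  large degrees.
* `exists_sheaf_iso`: `(sheaf X)` is essentially surjective (`Localization.essSurj`).
-/

open CategoryTheory CategoryTheory.Limits Opposite

noncomputable section

namespace H40.KuS

open H24.Ku

variable {X : ProjData}

theorem frac {N M : Gr X} (φ : (sheaf X).obj N ⟶ (sheaf X).obj M) :
    ∃ (N' : Gr X) (s : N' ⟶ N) (g : N' ⟶ M), IsIso ((sheaf X).map s) ∧
      (sheaf X).map s ≫ φ = (sheaf X).map g := by
  obtain ⟨ψ, hψ⟩ := Localization.exists_rightFraction (sheaf X) (finLen X).isoModSerre φ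
  refine ⟨ψ.X', ψ.s, ψ.f, (isIso_sheaf_map_iff X ψ.s).2 ψ.hs, ?_⟩
  rw [hψ]
  exact MorphismProperty.RightFraction.map_s_comp_map _ _ _

theorem bijective_large {N M : Gr X} (s : N ⟶ M) [IsIso ((sheaf X).map s)] :
    ∃ k : ℤ, ∀ m : Deg X, k ≤ m.deg → Function.Bijective (s.hom.app m).hom := by
  obtain ⟨k, hk⟩ := (Pool.Agent.H63.KH.isIso_sheaf_map_iff' s).1 inferInstance
  exact ⟨k, fun m hm => hk m.deg hm⟩

theorem surjective_large {N M : Gr X} (g : N ⟶ M) [Epi ((sheaf X).map g)] :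
    ∃ k : ℤ, ∀ m : Deg X, k ≤ m.deg → Function.Surjective (g.hom.app m).hom := by
  obtain ⟨k, hk⟩ := (Pool.Agent.H63.KH.epi_sheaf_map_iff g).1 inferInstance
  exact ⟨k, fun m hm => hk m.deg hm⟩

theorem epi_of_surjective_large {N M : Gr X} (g : N ⟶ M) {k : ℤ}
    (h : ∀ m : Deg X, k ≤ m.deg → Function.Surjective (g.hom.app m).hom) :
    Epi ((sheaf X).map g) :=
  (Pool.Agent.H63.KH.epi_sheaf_map_iff g).2 ⟨k, fun m hm => h ⟨m⟩ hm⟩

theorem isIso_of_bijective_large {N M : Gr X} (g : N ⟶ M) {k : ℤ}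
    (h : ∀ m : Deg X, k ≤ m.deg → Function.Bijective (g.hom.app m).hom) :
    IsIso ((sheaf X).map g) :=
  (Pool.Agent.H63.KH.isIso_sheaf_map_iff' g).2 ⟨k, fun m hm => h ⟨m⟩ hm⟩

theorem eq_zero_large {N M : Gr X} (g : N ⟶ M) (h : (sheaf X).map g = 0) :
    ∃ k : ℤ, ∀ m : Deg X, k ≤ m.deg → ∀ y : N.obj.obj m, (g.hom.app m).hom y = 0 := by
  obtain ⟨k, hk⟩ := (Pool.Agent.H63.KH.sheaf_map_eq_zero_iff g).1 h
  exact ⟨k, fun m hm y => hk m.deg hm y⟩

theorem lift_epi {N M : Gr X} (φ : (sheaf X).obj N ⟶ (sheaf X).obj M) [Epi φ] :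
    ∃ k : ℤ, ∀ m : Deg X, k ≤ m.deg → ∀ y : M.obj.obj m, ∃ x : N.obj.obj m,
      Lgen x ≫ φ = Lgen y := by
  obtain ⟨N', s, g, hs, hg⟩ := frac φ
  have : Epi ((sheaf X).map g) := by
    rw [← hg]
    infer_instance
  obtain ⟨k, hk⟩ := surjective_large g
  refine ⟨k, fun m hm y => ?_⟩
  obtain ⟨u, hu⟩ := hk m hm y
  refine ⟨(s.hom.app m).hom u, ?_⟩
  rw [← Lgen_comp, Category.assoc, hg, Lgen_comp, hu]

theorem hom_exists {n : Deg X} {M : Gr X} (ψ : L n ⟶ (sheaf X).obj M) :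
    ∃ k : ℤ, ∀ m : Deg X, k ≤ m.deg → ∀ a : n ⟶ m, ∃ y : M.obj.obj m, Lm a ≫ ψ = Lgen y := by
  obtain ⟨N', s, g, hs, hg⟩ := frac ψ
  obtain ⟨k, hk⟩ := bijective_large s
  refine ⟨k, fun m hm a => ?_⟩
  obtain ⟨u, hu⟩ := (hk m hm).2 (show (P n).obj.obj m from a)
  refine ⟨(g.hom.app m).hom u, ?_⟩
  have h1 : Lm a = Lgen (M := P n) (n := m) ((s.hom.app m).hom u) := by
    rw [hu]
    rfl
  rw [h1, ← Lgen_comp, Category.assoc, hg, Lgen_comp]

theorem Lgen_eq_zero_iff {n : Deg X} {M : Gr X} (y : M.obj.obj n) :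
    Lgen y = 0 ↔ ∃ k : ℤ, ∀ m : Deg X, k ≤ m.deg → ∀ a : n ⟶ m, (M.obj.map a).hom y = 0 := by
  refine (Pool.Agent.H63.KH.sheaf_map_eq_zero_iff (gen y)).trans ?_
  constructor
  · rintro ⟨k, hk⟩
    exact ⟨k, fun m hm a => hk m.deg hm a⟩
  · rintro ⟨k, hk⟩
    exact ⟨k, fun m hm a => hk ⟨m⟩ hm a⟩

theorem exists_sheaf_iso (Q : Coh X) : ∃ M : Gr X, Nonempty ((sheaf X).obj M ≅ Q) := by
  have := Localization.essSurj (sheaf X) (finLen X).isoModSerre
  exact ⟨(sheaf X).objPreimage Q, ⟨(sheaf X).objObjPreimageIso Q⟩⟩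

end H40.KuS
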