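import Pool.Agent.H40.KuS.Cyc
import Pool.Agent.H40.KuS.RingIdeal
import Pool.Agent.H40.KuS.Frac

/-!
# KuS-ISO IsoPt: multiplication on the module of a point

* `iso_of_point`: `M` is generated by `x ∈ M_n`, annihilator `p`. Every `a ∈ A_k` is `c t^k` modulo `p` (for
  `k < 0`, `a = 0`; `k = 0`: `exists_smul_one`; `k + 1`: `exists_sum_xx`, `xx i ≡ c_i t`, `b_i ≡ c'_i t^k`). So `s ≡ c t^d`
  with `c ≠ 0`, `d ≥ 0`. For `m ≥ n` the multiplication by `s`, `M_m → M_{m+d}`, is bijective: injective as `s ∉ p`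
  (all elements of `M_m` are `a x`), surjective: `y = b x`, `b ≡ c' t^{m+d-n} ≡ s (c'/c) t^{m-n}`.
  `isIso_of_bijective_large`.
-/

open CategoryTheory CategoryTheory.Limits CategoryTheory.Abelian Opposite

noncomputable section

namespace H40.KuS

open H24.Ku

variable {X : ProjData}

theorem isoPt_smul (c : ℂ) (a : X.A) : c • a = algebraMap ℂ X.A c * a := Algebra.smul_def c a

theorem isoPt_pow {p : Ideal X.A} {t : X.A}
    (h1 : ∀ a ∈ X.piece 1, ∃ c : ℂ, a - c • t ∈ p) (k : ℕ) :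
    ∀ a ∈ X.piece (k : ℤ), ∃ c : ℂ, a - c • t ^ k ∈ p := by
  induction k with
  | zero =>
    intro a ha
    obtain ⟨c, hc⟩ := exists_smul_one (a := a) (by simpa using ha)
    refine ⟨c, ?_⟩
    rw [pow_zero, hc, Algebra.algebraMap_eq_smul_one, sub_self]
    exact p.zero_mem
  | succ k ih =>
    intro a ha
    obtain ⟨b, hb, h⟩ := exists_sum_xx (d := (k : ℤ)) (Int.natCast_nonneg k) (a := a)
      (by exact_mod_cast ha)
    choose c hc using fun i => h1 (xx i) (xx_mem i)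
    choose c' hc' using fun i => ih (b i) (hb i)
    refine ⟨∑ i, c i * c' i, ?_⟩
    have h2 : a - (∑ i, c i * c' i) • t ^ (k + 1) =
        ∑ i, (xx i * (b i - c' i • t ^ k) + (c' i • t ^ k) * (xx i - c i • t)) := by
      rw [h, Finset.sum_smul, ← Finset.sum_sub_distrib]
      refine Finset.sum_congr rfl fun i _ => ?_
      simp only [isoPt_smul, map_mul]
      ring
    rw [h2]
    exact p.sum_mem fun i _ => p.add_mem (p.mul_mem_left _ (hc' i)) (p.mul_mem_left _ (hc i))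

theorem isoPt_pow_mem {t : X.A} (ht : t ∈ X.piece 1) (k : ℕ) : t ^ k ∈ X.piece (k : ℤ) := by
  induction k with
  | zero => simpa using (ProjData.one_mem_piece (X := X))
  | succ k ih =>
    rw [pow_succ]
    exact mem_piece_congr (by push_cast; ring) (ProjData.mul_mem_piece ih ht)

theorem iso_of_point {p : Ideal X.A} [p.IsPrime] {t : X.A} (ht : t ∈ X.piece 1) (htp : t ∉ p)
    (h1 : ∀ a ∈ X.piece 1, ∃ c : ℂ, a - c • t ∈ p) {M : Gr X} (h : Cy M p) {d : ℤ}
    (s : X.piece d) (hs : s.1 ∉ p) : IsIso ((sheaf X).map ((mulMap X d s).app M)) := by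
  obtain ⟨n, x, h⟩ := h
  have hd : 0 ≤ d := by
    by_contra hd
    apply hs
    rw [eq_zero_of_mem_neg (not_le.1 hd) s.2]
    exact p.zero_mem
  obtain ⟨D, rfl⟩ := Int.eq_ofNat_of_zero_le hd
  obtain ⟨c, hc⟩ := isoPt_pow h1 D s.1 s.2
  have hc0 : c ≠ 0 := by
    rintro rfl
    apply hs
    simpa using hc
  refine isIso_of_bijective_large _ (k := n.deg) fun m hm => ⟨?_, ?_⟩
  · rw [injective_iff_map_eq_zero]
    intro z hz
    obtain ⟨a, rfl⟩ := h.gen m z
    have h2 : (M.obj.map ((degMul X (D : ℤ) s).app m)).hom ((M.obj.map a).hom x) = 0 := hz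
    rw [← map_comp', h.ann] at h2
    have h3 : a.1 * s.1 ∈ p := h2
    exact (h.ann m a).2 ((Ideal.IsPrime.mem_or_mem inferInstance h3).resolve_right hs)
  · intro (y : M.obj.obj (⟨m.deg + (D : ℤ)⟩ : Deg X))
    obtain ⟨b, hb⟩ := h.gen (⟨m.deg + (D : ℤ)⟩ : Deg X) y
    obtain ⟨k, hk⟩ := Int.eq_ofNat_of_zero_le (sub_nonneg.2 hm)
    have hbm : b.1 ∈ X.piece ((k + D : ℕ) : ℤ) := by
      refine mem_piece_congr ?_ b.2
      push_cast
      change m.deg + (D : ℤ) - n.deg = _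
      omega
    obtain ⟨c', hc'⟩ := isoPt_pow h1 (k + D) b.1 hbm
    have ham : (c' / c) • t ^ k ∈ X.piece (m.deg - n.deg) := by
      refine Submodule.smul_mem _ _ (mem_piece_congr hk.symm (isoPt_pow_mem ht k))
    refine ⟨(M.obj.map (⟨_, ham⟩ : n ⟶ m)).hom x, ?_⟩
    let g : n ⟶ (⟨m.deg + (D : ℤ)⟩ : Deg X) := (⟨_, ham⟩ : n ⟶ m) ≫ (degMul X (D : ℤ) s).app m
    have h4 : (M.obj.map g).hom x - (M.obj.map b).hom x = (M.obj.map (g - b)).hom x := by
      rw [M.obj.map_sub]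
      rfl
    have h5 : (g - b).1 = ((c' / c) • t ^ k) * s.1 - b.1 := rfl
    have h6 : ((c' / c) • t ^ k) * s.1 - b.1 =
        ((c' / c) • t ^ k) * (s.1 - c • t ^ D) - (b.1 - c' • t ^ (k + D)) := by
      have h7 : algebraMap ℂ X.A (c' / c) * algebraMap ℂ X.A c = algebraMap ℂ X.A c' := by
        rw [← map_mul, div_mul_cancel₀ _ hc0]
      simp only [isoPt_smul]
      rw [← h7]
      ring
    have h8 : (M.obj.map (g - b)).hom x = 0 := by
      refine (h.ann _ _).2 ?_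
      rw [h5, h6]
      exact p.sub_mem (p.mul_mem_left _ hc) hc'
    have h9 : (M.obj.map g).hom x = y := (sub_eq_zero.1 (h4.trans h8)).trans hb.symm
    exact (map_comp' M (⟨_, ham⟩ : n ⟶ m) ((degMul X (D : ℤ) s).app m) x).symm.trans h9

end H40.KuS
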