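import Pool.Agent.H40.KuS.Frac
import Pool.Agent.H40.KuS.ExtBasic
import Pool.Agent.H24.Ku.S.ExtEfface

/-!
# KuS-F2 Killed: effaceability by elements

`exists_epi_comp_eq_zero` (`H24/Ku/S/ExtEfface.lean`) gives `π : Q ⟶ M~` epi in `Coh X` with
`(mk₀ π).comp ξ = 0`; `Q ≅ N~` (`exists_sheaf_iso`), so we may assume `π : N~ ⟶ M~`. By `lift_epi`, for `m` large
every `y ∈ M_m` satisfies `Lgen y = Lgen x ≫ π`, so
`pre (gen y) ξ = (mk₀ (Lgen x)).comp ((mk₀ π).comp ξ) = 0`.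
-/

open CategoryTheory CategoryTheory.Limits CategoryTheory.Abelian Opposite

noncomputable section

namespace H40.KuS

open H24.Ku

variable {X : ProjData}

theorem killed {M N : Gr X} {i : ℕ} (ξ : EE M N (i + 1)) :
    ∃ k : ℤ, ∀ m : Deg X, k ≤ m.deg → ∀ y : M.obj.obj m, pre (gen y) ξ = 0 := by
  obtain ⟨Q, π, hπ, h⟩ := exists_epi_comp_eq_zero ξ
  obtain ⟨N', ⟨φ⟩⟩ := exists_sheaf_iso Q
  have : Epi (φ.hom ≫ π) := epi_comp _ _
  obtain ⟨k, hk⟩ := lift_epi (N := N') (M := M) (φ.hom ≫ π)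
  refine ⟨k, fun m hm y => ?_⟩
  obtain ⟨x, hx⟩ := hk m hm y
  have h1 : pre (gen y) ξ = (Ext.mk₀ (Lgen y)).comp ξ (zero_add (i + 1)) := rfl
  have h2 : (Ext.mk₀ (Lgen x ≫ φ.hom ≫ π)).comp ξ (zero_add (i + 1)) =
      (Ext.mk₀ (Lgen x ≫ φ.hom)).comp ((Ext.mk₀ π).comp ξ (zero_add (i + 1)))
        (zero_add (i + 1)) := by
    rw [Ext.mk₀_comp_mk₀_assoc, Category.assoc]
  rw [h1, ← hx, h2, h, Ext.comp_zero]

end H40.KuS
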