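import Pool.Agent.H40.KuS.Th
import Pool.Agent.H24.Ku.Ev

/-!
# KuS-L1 LESz: the long exact sequence of multiplication by `z ∈ A_1`

`zm z n : P ⟨n.deg + 1⟩ ⟶ P n` is the multiplication by `z`. Let
`0 → M → M(1) → C → 0` (first map `(mulMap X 1 z).app M`, second map `q`) be short exact (`hS`).
By `Th_mul` (with `d = 1`): `Th 1 n (pre (zm z n) ξ) = post ((mulMap X 1 z).app M) ξ`, and `Th` is bijective and
additive (`Th_bijective`, `Th_add`; so `Th 0 = 0`).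

* `z_surj`: `post q (Th ξ) = 0`, so `Th ξ = post (mulMap..) η` (`post_exact₂`) `= Th (pre (zm z n) η)`.
* `z_ker`: `post (mulMap..) ξ = Th 0 = 0`, `post_exact₁`.
* `z_inj`: `z_ker`.
* `z_inj0`: `(sheaf X).map ((mulMap X 1 z).app M)` is mono (`(shortExact_sheaf hS).mono_f`); `e0` is bijective
  (`ξ = e0 ψ`), `post_e0`.
* `z_inj1`: `ξ = dr hS η` (`z_ker`), `η = e0 (Lgen c) = sm (gen c)`, `c = q y` with `y ∈ M(1)_n` (`gr_surjective`),
  so `η = post q (sm (gen y))` (`gen_comp`) and `dr_post`.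
* `z_lift0`: the class of `y` in `C_n` is killed by `Lgen`: `Lgen y' ≫ (sheaf X).map q = 0` since
  `Lgen y'` (`y' = y` as an element of `M(1)_n`, `Th_gen`) is `ψ ≫ (sheaf X).map (mulMap..)` (apply `Th_mul`,
  `Th_gen` to `ξ = e0 ψ`, and the injectivity of `e0`). So `q y' = 0`, `y' = z x` (`exact_iff` in `H24/Ku/Ev.lean`),
  and `ψ - Lgen x` is killed by `z` (`z_inj0`).
-/

open CategoryTheory CategoryTheory.Limits CategoryTheory.Abelian Opposite

noncomputable section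

namespace H40.KuS

open H24.Ku

variable {X : ProjData}

/-- Multiplication by `z ∈ A_1` from `A(-n-1)` to `A(-n)`. -/
def zm (z : X.piece 1) (n : Deg X) : P ⟨n.deg + 1⟩ ⟶ P n :=
  Pm (dh z.1 z.2 rfl : n ⟶ ⟨n.deg + 1⟩)

variable {M C : Gr X} {z : X.piece 1} {q : (twist X 1).obj M ⟶ C}
  {w : (mulMap X 1 z).app M ≫ q = 0}

theorem LESz_Th_zm (z : X.piece 1) (n : Deg X) {M : Gr X} {i : ℕ} (ξ : EE (P n) M i) :
    Th 1 n (pre (zm z n) ξ) = post ((mulMap X 1 z).app M) ξ := Th_mul z n ξ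

theorem LESz_Th_zero (d : ℤ) (n : Deg X) {M : Gr X} {i : ℕ} :
    Th d n (0 : EE (P ⟨n.deg + d⟩) M i) = 0 := by
  have h := Th_add d n (0 : EE (P ⟨n.deg + d⟩) M i) 0
  rw [add_zero] at h
  exact left_eq_add.1 h

theorem LESz_post_zero (z : X.piece 1) (n : Deg X) {M : Gr X} {i : ℕ} (ξ : EE (P n) M i)
    (hξ : pre (zm z n) ξ = 0) : post ((mulMap X 1 z).app M) ξ = 0 := by
  rw [← LESz_Th_zm, hξ, LESz_Th_zero]

theorem z_surj (hS : (ShortComplex.mk ((mulMap X 1 z).app M) q w).ShortExact) {n : Deg X} {i : ℕ}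
    (h : ∀ η : EE (P n) C i, η = 0) (ξ : EE (P ⟨n.deg + 1⟩) M i) :
    ∃ η : EE (P n) M i, pre (zm z n) η = ξ := by
  obtain ⟨η, hη⟩ : ∃ η : EE (P n) M i, post ((mulMap X 1 z).app M) η = Th 1 n ξ :=
    post_exact₂ hS (Th 1 n ξ) (h _)
  refine ⟨η, ?_⟩
  apply (Th_bijective 1 n M i).1
  rw [LESz_Th_zm, hη]

theorem z_ker (hS : (ShortComplex.mk ((mulMap X 1 z).app M) q w).ShortExact) {n : Deg X} {i : ℕ}
    (ξ : EE (P n) M (i + 1)) (hξ : pre (zm z n) ξ = 0) :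
    ∃ η : EE (P n) C i, dr hS η = ξ :=
  post_exact₁ hS ξ (LESz_post_zero z n ξ hξ)

theorem z_inj (hS : (ShortComplex.mk ((mulMap X 1 z).app M) q w).ShortExact) {n : Deg X} {i : ℕ}
    (h : ∀ η : EE (P n) C i, η = 0) (ξ : EE (P n) M (i + 1)) (hξ : pre (zm z n) ξ = 0) :
    ξ = 0 := by
  obtain ⟨η, hη⟩ := z_ker hS ξ hξ
  rw [← hη, h η, map_zero]

theorem z_inj0 (hS : (ShortComplex.mk ((mulMap X 1 z).app M) q w).ShortExact) {n : Deg X}
    (ξ : EE (P n) M 0) (hξ : pre (zm z n) ξ = 0) : ξ = 0 := by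
  obtain ⟨ψ, rfl⟩ := (e0 (M := P n) (N := M)).surjective ξ
  have h1 := LESz_post_zero z n _ hξ
  rw [post_e0] at h1
  have h2 : ψ ≫ (sheaf X).map ((mulMap X 1 z).app M) = 0 := e0.map_eq_zero_iff.1 h1
  have hm : Mono ((sheaf X).map ((mulMap X 1 z).app M)) := (shortExact_sheaf hS).mono_f
  rw [← zero_comp] at h2
  rw [(cancel_mono _).1 h2, map_zero]

theorem z_inj1 (hS : (ShortComplex.mk ((mulMap X 1 z).app M) q w).ShortExact) {n : Deg X}
    (h : ∀ ψ : L n ⟶ (sheaf X).obj C, ∃ c : C.obj.obj n, ψ = Lgen c)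
    (ξ : EE (P n) M 1) (hξ : pre (zm z n) ξ = 0) : ξ = 0 := by
  obtain ⟨η, hη⟩ : ∃ η : EE (P n) C 0, dr hS η = ξ := z_ker hS ξ hξ
  obtain ⟨ψ, hψ⟩ := (e0 (M := P n) (N := C)).surjective η
  obtain ⟨c, hc⟩ := h ψ
  have hepi : Epi q := hS.epi_g
  obtain ⟨y, hy⟩ : ∃ y : ((twist X 1).obj M).obj.obj n, (q.hom.app n).hom y = c := by
    exact gr_surjective q n c
  have h2 : η = post q (sm (gen y)) := by
    rw [← hψ, hc, post_apply, sm_comp_sm, gen_comp, hy]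
    rfl
  rw [← hη, h2]
  exact dr_post hS _

theorem LESz_lift (hS : (ShortComplex.mk ((mulMap X 1 z).app M) q w).ShortExact) {n : Deg X}
    (h : ∀ c : C.obj.obj n, Lgen c = 0 → c = 0) (ψ : L n ⟶ (sheaf X).obj M)
    (y : ((twist X 1).obj M).obj.obj n)
    (h3 : ψ ≫ (sheaf X).map ((mulMap X 1 z).app M) = Lgen y) :
    ∃ x : M.obj.obj n, ψ = Lgen x := by
  have h4 : Lgen y ≫ (sheaf X).map q = 0 := by
    rw [← h3]
    refine (Category.assoc _ _ _).trans ?_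
    rw [← Functor.map_comp, w, Functor.map_zero, comp_zero]
  have h5 := h _ ((Lgen_comp y q).symm.trans h4)
  obtain ⟨x, hx⟩ : ∃ x : M.obj.obj n, (((mulMap X 1 z).app M).hom.app n).hom x = y :=
    (exact_iff _).1 hS.exact n y h5
  refine ⟨x, ?_⟩
  have h6 : (ψ - Lgen x) ≫ (sheaf X).map ((mulMap X 1 z).app M) = 0 := by
    refine (Preadditive.sub_comp _ _ _).trans ?_
    rw [h3]
    refine (congrArg (fun t => Lgen y - t) (Lgen_comp x ((mulMap X 1 z).app M))).trans ?_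
    exact (congrArg (fun t => Lgen y - Lgen t) hx).trans (sub_self _)
  have hm : Mono ((sheaf X).map ((mulMap X 1 z).app M)) := (shortExact_sheaf hS).mono_f
  exact sub_eq_zero.1 ((cancel_mono ((sheaf X).map ((mulMap X 1 z).app M))).1
    (h6.trans zero_comp.symm))

theorem z_lift0 (hS : (ShortComplex.mk ((mulMap X 1 z).app M) q w).ShortExact) {n : Deg X}
    (h : ∀ c : C.obj.obj n, Lgen c = 0 → c = 0) (ψ : L n ⟶ (sheaf X).obj M)
    (y : M.obj.obj ⟨n.deg + 1⟩) (hy : (sheaf X).map (zm z n) ≫ ψ = Lgen y) :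
    ∃ x : M.obj.obj n, ψ = Lgen x := by
  have h1 : pre (zm z n) (e0 ψ) = sm (gen y) := by
    rw [pre_e0, hy]; rfl
  have h2 : post ((mulMap X 1 z).app M) (e0 ψ) = sm (gen (M := (twist X 1).obj M) (n := n) y) := by
    rw [← LESz_Th_zm, h1, Th_gen]
  rw [post_e0] at h2
  exact LESz_lift hS h ψ y (e0.injective h2)

end H40.KuS
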