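import Mathlib

/-!
# KuS-LA LinAlg: two commuting injective multiplications

Let `E t` (`t : ℕ`) be finite dimensional complex vector spaces, `S t, S' t : E t → E (t + 1)` linear with
`S' (t + 1) (S t x) = S (t + 1) (S' t x)`. Assume that `S t` is bijective for `t ≥ t₀`, and that for every `c : ℂ` the map
`S' t - c S t` is injective for all large `t` (depending on `c`). Then `E t = 0` for `t ≥ t₀`.

Suppose `E t ≠ 0`. The endomorphism `(S t)⁻¹ ∘ S' t` of the nonzero finite dimensional space `E t` has an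
eigenvector (`Module.End.exists_eigenvalue`): `v ≠ 0`, `S' t v = c • S t v`. By induction on `k` there is a nonzero
`w ∈ E (t + k)` with `S' (t+k) w = c • S (t+k) w`: for `w` take `S (t+k) w`:
`S' (t+k+1) (S (t+k) w) = S (t+k+1) (S' (t+k) w) = c • S (t+k+1) (S (t+k) w)`. For `k` large this contradicts the
injectivity of `S' - c S`.
-/

namespace H40.KuS

theorem la {E : ℕ → Type*} [∀ t, AddCommGroup (E t)] [∀ t, Module ℂ (E t)]
    [∀ t, Module.Finite ℂ (E t)] (S S' : ∀ t, E t →ₗ[ℂ] E (t + 1))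
    (comm : ∀ t x, S' (t + 1) (S t x) = S (t + 1) (S' t x)) (t₀ : ℕ)
    (hS : ∀ t ≥ t₀, Function.Bijective (S t))
    (h : ∀ c : ℂ, ∃ t₁ : ℕ, ∀ t ≥ t₁, ∀ x : E t, S' t x = c • S t x → x = 0) :
    ∀ t ≥ t₀, ∀ x : E t, x = 0 := by
  intro t ht x
  by_contra hx
  have : Nontrivial (E t) := ⟨⟨x, 0, hx⟩⟩
  let e := LinearEquiv.ofBijective (S t) (hS t ht)
  obtain ⟨c, hc⟩ := Module.End.exists_eigenvalue (e.symm.toLinearMap ∘ₗ S' t)
  obtain ⟨v, hv⟩ := hc.exists_hasEigenvector
  have h0 : S' t v = c • S t v := by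
    have h1 : e.symm (S' t v) = c • v := hv.apply_eq_smul
    have h2 := congrArg e h1
    rw [LinearEquiv.apply_symm_apply, map_smul] at h2
    exact h2
  have key : ∀ k : ℕ, ∃ s ≥ t + k, ∃ w : E s, w ≠ 0 ∧ S' s w = c • S s w := by
    intro k
    induction k with
    | zero => exact ⟨t, le_rfl, v, hv.2, h0⟩
    | succ k ih =>
      obtain ⟨s, hs, w, hw, h1⟩ := ih
      refine ⟨s + 1, by omega, S s w, fun h2 => hw ((hS s (by omega)).1 ?_), ?_⟩
      · rw [h2, map_zero]
      · rw [comm, h1, map_smul]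
  obtain ⟨t₁, h₁⟩ := h c
  obtain ⟨s, hs, w, hw, h2⟩ := key t₁
  exact hw (h₁ s (by omega) w h2)

end H40.KuS
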