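import Pool.Agent.H40.KuS.ExtTw

/-!
# KuS-MT MulTw: multiplication by `s ∈ A_1` from `N(t)` to `N(t+1)`

`Nt N t = N(t)`, `mt s t : Nt N t ⟶ Nt N (t + 1)`. `mtIso N t : N(t)(1) ≅ N(t+1)`, and
`(mulMap X 1 s).app (Nt N t) ≫ (mtIso N t).hom = mt s t` (`mulMap_mtIso`).

* `mt_inj`: let `post (mt s t) ξ = 0`, `ξ ∈ EE M (Nt N t) i`. By `mulMap_mtIso` and `post_post`,
  `post_bijective_of_isIso (mtIso N t).hom`: `post ((mulMap X 1 s).app (Nt N t)) ξ = 0`, i.e.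
  `pre ((mulMap X 1 s).app M) (twE 1 ξ) = 0` (`twE_mul`), so `twE 1 ξ = pre q η` with `η ∈ EE C (N(t)(1)) i` (`pre_exact₂`),
  and `η = 0` since `post (mtIso N t).hom η = 0` by hypothesis. So `twE 1 ξ = 0 = twE 1 0`, `ξ = 0`
  (`twE_bijective`).
* `mt_surj`: let `ζ ∈ EE M (Nt N (t+1)) i`, `ζ' = post (mtIso N t).inv ζ`. `dl hS ζ' ∈ EE C (N(t)(1)) (i+1)` is zero
  (as above), so `ζ' = pre ((mulMap X 1 s).app M) ω` (`pre_exact₁`), `ω = twE 1 ξ` (`twE_bijective`), so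
  `ζ' = post ((mulMap X 1 s).app (Nt N t)) ξ` (`twE_mul`), and `post (mt s t) ξ = post (mtIso N t).hom ζ' = ζ`.
-/

open CategoryTheory CategoryTheory.Limits CategoryTheory.Abelian Opposite

noncomputable section

namespace H40.KuS

open H24.Ku

variable {X : ProjData}

/-- `N(t)`. -/
abbrev Nt (N : Gr X) (t : ℕ) : Gr X := (twist X (t : ℤ)).obj N

/-- `N(t)(1) = N(t+1)`. -/
def mtIso (N : Gr X) (t : ℕ) : (twist X 1).obj (Nt N t) ≅ Nt N (t + 1) :=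
  (twistAdd X (t : ℤ) 1 ((t + 1 : ℕ) : ℤ) (by push_cast; rfl)).app N

/-- Multiplication by `s ∈ A_1`, `N(t) ⟶ N(t+1)`. -/
def mt {N : Gr X} (s : X.piece 1) (t : ℕ) : Nt N t ⟶ Nt N (t + 1) :=
  (mulMap X 1 s).app (Nt N t) ≫ (mtIso N t).hom

lemma mulMap_mtIso (N : Gr X) (s : X.piece 1) (t : ℕ) :
    (mulMap X 1 s).app (Nt N t) ≫ (mtIso N t).hom = mt s t := rfl

lemma mt_apply {N : Gr X} (s : X.piece 1) (t : ℕ) (m : Deg X) (z : N.obj.obj ⟨m.deg + (t : ℤ)⟩) :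
    ((mt (N := N) s t).hom.app m).hom z = (N.obj.map (dh s.1 s.2 (by push_cast; ring) :
      (⟨m.deg + (t : ℤ)⟩ : Deg X) ⟶ ⟨m.deg + ((t + 1 : ℕ) : ℤ)⟩)).hom z := by
  refine (map_comp' N _ _ z).symm.trans ?_
  refine congrArg (fun a => (N.obj.map a).hom z) ?_
  refine Subtype.ext ?_
  refine (comp_val' _ _).trans ?_
  have h : ((degShiftAdd X 1 (t : ℤ) ((t + 1 : ℕ) : ℤ) (by push_cast; ring)).hom.app m).1 = 1 :=
    eqToHom_val X (by
      change (⟨m.deg + 1 + (t : ℤ)⟩ : Deg X) = ⟨m.deg + ((t + 1 : ℕ) : ℤ)⟩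
      congr 1
      push_cast
      ring)
  exact (congrArg (fun w => s.1 * w) h).trans (mul_one _)

lemma mt_mt {N : Gr X} (s s' : X.piece 1) (t : ℕ) (m : Deg X)
    (z : N.obj.obj ⟨m.deg + (t : ℤ)⟩) :
    ((mt (N := N) s t ≫ mt s' (t + 1)).hom.app m).hom z =
      (N.obj.map ((dh s.1 s.2 (by push_cast; ring) :
      (⟨m.deg + (t : ℤ)⟩ : Deg X) ⟶ ⟨m.deg + ((t + 1 : ℕ) : ℤ)⟩) ≫ (dh s'.1 s'.2 (by push_cast; ring) :
      (⟨m.deg + ((t + 1 : ℕ) : ℤ)⟩ : Deg X) ⟶ ⟨m.deg + ((t + 1 + 1 : ℕ) : ℤ)⟩))).hom z := by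
  have h1 := mt_apply (N := N) s t m z
  have h3 := mt_apply (N := N) s' (t + 1) m (((mt (N := N) s t).hom.app m).hom z)
  refine h3.trans ?_
  refine Eq.trans ?_ (map_comp' N _ _ z).symm
  exact congrArg (fun w => (N.obj.map _).hom w) h1

lemma mt_comm {N : Gr X} (s s' : X.piece 1) (t : ℕ) :
    mt (N := N) s t ≫ mt s' (t + 1) = mt s' t ≫ mt s (t + 1) := by
  apply gr_hom_ext
  intro m z
  refine (mt_mt s s' t m z).trans (Eq.trans ?_ (mt_mt s' s t m z).symm)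
  refine congrArg (fun a => (N.obj.map a).hom z) ?_
  exact Subtype.ext (mul_comm _ _)

lemma mt_sub_smul {N : Gr X} (s s' : X.piece 1) (c : ℂ) (t : ℕ) :
    mt (N := N) (s' - c • s) t = mt s' t - c • mt s t := by
  have h0 : mt (N := N) s' t = mt (s' - c • s) t + c • mt s t := by
    apply gr_hom_ext
    intro m z
    refine (mt_apply s' t m z).trans ?_
    refine Eq.trans ?_ (congrArg₂ (fun a b => a + c • b) (mt_apply (s' - c • s) t m z)
      (mt_apply s t m z)).symm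
    refine Eq.trans ?_ (congrArg (fun w => (N.obj.map (dh (s' - c • s).1 (s' - c • s).2
      (by push_cast; ring) : (⟨m.deg + (t : ℤ)⟩ : Deg X) ⟶
        ⟨m.deg + ((t + 1 : ℕ) : ℤ)⟩)).hom z + w) (map_smul' N c _ z))
    refine Eq.trans ?_ (map_add' N _ _ z)
    refine congrArg (fun a => (N.obj.map a).hom z) ?_
    exact Subtype.ext (sub_add_cancel s'.1 (c • s.1)).symm
  rw [h0, add_sub_cancel_right]

variable {M C : Gr X} {s : X.piece 1} {q : (twist X 1).obj M ⟶ C}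
  {w : (mulMap X 1 s).app M ≫ q = 0}

/-- Multiplication by `s`, in terms of `twE`. -/
lemma MulTw_post_mt {M N : Gr X} (s : X.piece 1) (t : ℕ) {i : ℕ} (ξ : EE M (Nt N t) i) :
    post (mt s t) ξ = post (mtIso N t).hom (pre ((mulMap X 1 s).app M) (twE 1 ξ)) := by
  rw [← twE_mul, post_post, mulMap_mtIso]

lemma MulTw_twE_zero (M N : Gr X) (i : ℕ) : twE 1 (0 : EE M N i) = 0 := by
  have h := twE_smul 1 (0 : ℂ) (0 : EE M N i)
  rwa [zero_smul, zero_smul] at h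

lemma MulTw_eq_zero {C N : Gr X} {t i : ℕ} (h : ∀ η : EE C (Nt N (t + 1)) i, η = 0)
    (η : EE C ((twist X 1).obj (Nt N t)) i) : η = 0 :=
  (post_bijective_of_isIso (M := C) (i := i) (mtIso N t).hom).1
    ((h (post (mtIso N t).hom η)).trans (map_zero (post (mtIso N t).hom)).symm)

theorem mt_inj (hS : (ShortComplex.mk ((mulMap X 1 s).app M) q w).ShortExact) {N : Gr X} {t i : ℕ}
    (h : ∀ η : EE C (Nt N (t + 1)) i, η = 0) (ξ : EE M (Nt N t) i)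
    (hξ : post (mt s t) ξ = 0) : ξ = 0 := by
  rw [MulTw_post_mt] at hξ
  have h1 : pre ((mulMap X 1 s).app M) (twE 1 ξ) = 0 :=
    (post_bijective_of_isIso (M := M) (i := i) (mtIso N t).hom).1
      (hξ.trans (map_zero (post (mtIso N t).hom)).symm)
  obtain ⟨η, hη⟩ := pre_exact₂ hS (twE 1 ξ) h1
  have h2 : twE 1 ξ = 0 := by
    rw [← hη, MulTw_eq_zero h η]
    exact map_zero _
  exact (twE_bijective 1 M (Nt N t) i).1 (h2.trans (MulTw_twE_zero M (Nt N t) i).symm)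

theorem mt_surj (hS : (ShortComplex.mk ((mulMap X 1 s).app M) q w).ShortExact) {N : Gr X} {t i : ℕ}
    (h : ∀ η : EE C (Nt N (t + 1)) (i + 1), η = 0) (ζ : EE M (Nt N (t + 1)) i) :
    ∃ ξ : EE M (Nt N t) i, post (mt s t) ξ = ζ := by
  obtain ⟨ω, hω⟩ := pre_exact₁ hS (post (mtIso N t).inv ζ)
    (MulTw_eq_zero h (dl hS (post (mtIso N t).inv ζ)))
  obtain ⟨ξ, rfl⟩ := (twE_bijective 1 M (Nt N t) i).2 ω
  refine ⟨ξ, ?_⟩
  have h1 : pre ((mulMap X 1 s).app M) (twE 1 ξ) = post (mtIso N t).inv ζ := hω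
  rw [MulTw_post_mt, h1, post_post, Iso.inv_hom_id, post_id]

end H40.KuS
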