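import Mathlib

/-!
# KuS-REG RegLoc: generators of the maximal ideal of a regular local ring of dimension at most two

`R` is regular local with maximal ideal `m`, `dim R ≤ 2`, and `G` generates `m`.
* The images of `G` span the cotangent space `m/m²`, whose dimension is `dim R`
  (`IsRegularLocalRing.iff_finrank_cotangentSpace`); choose a subset of `G` whose images are a basis
  (`exists_linearIndependent`/`exists_subset_linearIndependent_span..`); by Nakayama
  (`IsLocalRing.CotangentSpace.span_image_eq_top_iff`) it generates `m`. It has `dim R ∈ {0,1,2}` elements: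
  `m = ⊥`, or `m = span {u}`, or `m = span {u, v}` with `dim R = 2`.
* In the last case: `v x ∈ span {u}` implies `x ∈ span {u}`. Let `x ∉ (u)`. In the Noetherian local ring `R/(u)`
  the Krull intersection theorem (`Ideal.iInf_pow_eq_bot_of_isLocalRing`, or directly
  `Ideal.iInf_pow_smul_eq_bot_of_isLocalRing`) gives a maximal `k` with `x ∈ (u) + m^k = (u) + (v^k)`; so
  `x = u b + v^k y` with `y ∉ m` (otherwise `x ∈ (u) + m^(k+1)`), `y` a unit; then `v^(k+1) y ∈ (u)`, so
  `v^(k+1) ∈ (u)`. Every prime containing `u` contains `v`, hence is `m`: so `m` is a minimal prime over `(u)`, and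
  `height m ≤ 1` by Krull (`Ideal.height_le_one_of_isPrincipal_of_mem_minimalPrimes`), but
  `height m = dim R = 2` (`IsLocalRing.maximalIdeal_height_eq_ringKrullDim`).
-/

namespace H40.KuS

open IsLocalRing

theorem regLoc_two {R : Type*} [CommRing R] [IsLocalRing R] [IsNoetherianRing R] (u v : R)
    (hm : maximalIdeal R = Ideal.span {u} ⊔ Ideal.span {v}) (hd : ringKrullDim R = 2)
    (x : R) (hx : v * x ∈ Ideal.span {u}) : x ∈ Ideal.span {u} := by
  by_contra hxu
  have hpow : ∃ k : ℕ, v ^ (k + 1) ∈ Ideal.span {u} := by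
    by_contra hno
    push Not at hno
    have hmem : ∀ k : ℕ, ∃ b y : R, x = u * b + v ^ k * y := by
      intro k
      induction k with
      | zero => exact ⟨0, x, by simp⟩
      | succ k ih =>
        obtain ⟨b, y, hby⟩ := ih
        have h1 : v ^ (k + 1) * y ∈ Ideal.span {u} := by
          have h2 : v ^ (k + 1) * y = v * x - u * (v * b) := by
            rw [hby]; ring
          rw [h2]
          exact Ideal.sub_mem _ hx (Ideal.mul_mem_right _ _ (Ideal.mem_span_singleton_self u))
        have hy : y ∈ maximalIdeal R := by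
          rw [mem_maximalIdeal, mem_nonunits_iff]
          intro hunit
          apply hno k
          obtain ⟨w, hw⟩ := hunit.exists_right_inv
          have h3 : v ^ (k + 1) = (v ^ (k + 1) * y) * w := by
            rw [mul_assoc, hw, mul_one]
          rw [h3]
          exact Ideal.mul_mem_right _ _ h1
        rw [hm] at hy
        obtain ⟨c, hc, d, hd, hcd⟩ := Submodule.mem_sup.mp hy
        obtain ⟨c', rfl⟩ := Ideal.mem_span_singleton'.mp hc
        obtain ⟨d', rfl⟩ := Ideal.mem_span_singleton'.mp hd
        refine ⟨b + v ^ k * c', d', ?_⟩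
        rw [hby, ← hcd]
        ring
    apply hxu
    have hkrull := Ideal.iInf_pow_smul_eq_bot_of_isLocalRing (R := R)
      (M := R ⧸ (Ideal.span {u} : Ideal R)) (maximalIdeal R) (maximalIdeal.isMaximal R).ne_top
    rw [← Ideal.Quotient.eq_zero_iff_mem]
    have hin : (Ideal.Quotient.mk (Ideal.span {u}) x) ∈
        (⨅ i : ℕ, maximalIdeal R ^ i • ⊤ : Submodule R (R ⧸ (Ideal.span {u} : Ideal R))) := by
      rw [Submodule.mem_iInf]
      intro k
      obtain ⟨b, y, hby⟩ := hmem k
      have h4 : Ideal.Quotient.mk (Ideal.span {u}) x =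
          v ^ k • Ideal.Quotient.mk (Ideal.span {u}) y := by
        rw [Algebra.smul_def, Ideal.Quotient.algebraMap_eq, ← map_mul, Ideal.Quotient.eq, hby]
        have h5 : u * b + v ^ k * y - v ^ k * y = u * b := by ring
        rw [h5]
        exact Ideal.mul_mem_right _ _ (Ideal.mem_span_singleton_self u)
      rw [h4]
      apply Submodule.smul_mem_smul _ Submodule.mem_top
      apply Ideal.pow_mem_pow
      rw [hm]
      exact Ideal.mem_sup_right (Ideal.mem_span_singleton_self v)
    rw [hkrull] at hin
    exact (Submodule.mem_bot R).mp hin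
  obtain ⟨k, hk⟩ := hpow
  have hmin : maximalIdeal R ∈ (Ideal.span {u} : Ideal R).minimalPrimes := by
    refine ⟨⟨inferInstance, ?_⟩, ?_⟩
    · rw [hm]; exact le_sup_left
    · rintro q ⟨hq, huq⟩ -
      rw [hm]
      refine sup_le huq ?_
      rw [Ideal.span_singleton_le_iff_mem]
      exact hq.mem_of_pow_mem _ (huq hk)
  have hle := Ideal.height_le_one_of_isPrincipal_of_mem_minimalPrimes _ _ hmin
  have heq := IsLocalRing.maximalIdeal_height_eq_ringKrullDim (R := R)
  rw [hd] at heq
  have h6 : ((maximalIdeal R).height : WithBot ℕ∞) ≤ ((1 : ℕ∞) : WithBot ℕ∞) :=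
    WithBot.coe_le_coe.mpr hle
  rw [heq] at h6
  exact absurd h6 (by decide)

theorem regLoc_span {R : Type*} [CommRing R] [IsLocalRing R] [IsNoetherianRing R]
    (s : Set (maximalIdeal R))
    (hs : Submodule.span (ResidueField R) ((maximalIdeal R).toCotangent '' s) = ⊤) :
    maximalIdeal R = Ideal.span (Subtype.val '' s) := by
  have h := CotangentSpace.span_image_eq_top_iff.mp hs
  have h2 := congrArg (Submodule.map (Submodule.subtype (maximalIdeal R))) h
  rw [Submodule.map_span, Submodule.map_top, Submodule.range_subtype] at h2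
  exact h2.symm

theorem exists_gens {R : Type*} [CommRing R] [IsRegularLocalRing R]
    (h2 : ringKrullDim R ≤ ((2 : ℕ) : WithBot ℕ∞)) (G : Set R) (hG : Ideal.span G = maximalIdeal R) :
    maximalIdeal R = ⊥ ∨ (∃ u ∈ G, maximalIdeal R = Ideal.span {u}) ∨
      ∃ u ∈ G, ∃ v ∈ G, maximalIdeal R = Ideal.span {u} ⊔ Ideal.span {v} ∧
        ∀ x : R, v * x ∈ Ideal.span {u} → x ∈ Ideal.span {u} := by
  classical
  have hGm : G ⊆ maximalIdeal R := hG ▸ Ideal.subset_span
  set s : Set (maximalIdeal R) := {y | (y : R) ∈ G} with hs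
  have hspan : Submodule.span R s = ⊤ := by
    apply (Submodule.map_injective_of_injective (Submodule.injective_subtype (maximalIdeal R)))
    rw [Submodule.map_span, Submodule.map_top, Submodule.range_subtype]
    have h3 : (Submodule.subtype (maximalIdeal R)) '' s = G := by
      ext g
      constructor
      · rintro ⟨y, hy, rfl⟩
        exact hy
      · intro hg
        exact ⟨⟨g, hGm hg⟩, hg, rfl⟩
    rw [h3]
    exact hG
  have hspan2 := CotangentSpace.span_image_eq_top_iff.mpr hspan
  obtain ⟨b, hbs, hbspan, hbli⟩ := exists_linearIndependent (ResidueField R)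
    ((maximalIdeal R).toCotangent '' s)
  rw [hspan2] at hbspan
  have hfin := (IsRegularLocalRing.iff_finrank_cotangentSpace R).mp inferInstance
  have hcard : Module.finrank (ResidueField R) (CotangentSpace R) = b.ncard := by
    have hb := Module.Basis.mk hbli (by simpa using hbspan.ge)
    rw [Module.finrank_eq_nat_card_basis hb]
    rfl
  have hbfin : b.Finite := by
    have hb := Module.Basis.mk hbli (by simpa using hbspan.ge)
    have hfi : Finite b := Module.Finite.finite_basis hb
    exact b.toFinite
  have hd2 : b.ncard ≤ 2 := by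
    rw [← hfin, hcard] at h2
    exact_mod_cast h2
  have hcase : b.ncard = 0 ∨ b.ncard = 1 ∨ b.ncard = 2 := by omega
  rcases hcase with h0 | h1 | h3
  · left
    rw [Set.ncard_eq_zero hbfin] at h0
    have h4 := regLoc_span (∅ : Set (maximalIdeal R)) (by rw [Set.image_empty, ← h0]; exact hbspan)
    rw [h4]
    simp
  · right; left
    obtain ⟨a, ha⟩ := Set.ncard_eq_one.mp h1
    have hab : a ∈ b := by rw [ha]; exact Set.mem_singleton a
    obtain ⟨y, hy, rfl⟩ := hbs hab
    refine ⟨y, hy, ?_⟩
    have h4 := regLoc_span ({y} : Set (maximalIdeal R)) (by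
      rw [Set.image_singleton, ← ha]; exact hbspan)
    exact h4.trans (by rw [Set.image_singleton])
  · right; right
    obtain ⟨a, c, hac, ha⟩ := Set.ncard_eq_two.mp h3
    have hab : a ∈ b := by rw [ha]; exact Set.mem_insert _ _
    have hcb : c ∈ b := by rw [ha]; exact Set.mem_insert_of_mem _ (Set.mem_singleton c)
    obtain ⟨y, hy, rfl⟩ := hbs hab
    obtain ⟨z, hz, rfl⟩ := hbs hcb
    have h4 := regLoc_span ({y, z} : Set (maximalIdeal R)) (by
      rw [Set.image_pair, ← ha]; exact hbspan)
    rw [Set.image_pair, Ideal.span_insert] at h4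
    refine ⟨y, hy, z, hz, h4, fun x hx => ?_⟩
    refine regLoc_two _ _ h4 ?_ x hx
    rw [← hfin, hcard, h3]
    rfl

end H40.KuS
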