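import Pool.Agent.H40.KuS.Ring

/-!
# KuS-R3 RingDim: dimension of quotients

* `dim_mono`: `ringKrullDim_le_of_surjective` for `Ideal.Quotient.factor`.
* `dim_drop`: `A/p` is a domain, `z̄ ≠ 0` in it is a nonzerodivisor;
  `ringKrullDim_quotient_succ_le_of_nonZeroDivisor` for `(A/p) ⧸ span {z̄}`, and
  `(A/p) ⧸ (span {z̄}) ≃ A ⧸ (p ⊔ span {z})` (`DoubleQuot.quotQuotEquivQuotSup`, `Ideal.map_span`). Since
  `p ⊔ span {z} ≠ ⊤` the quotient is nontrivial, so its dimension is `≥ 0`, hence `1 ≤ d`.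
-/

open CategoryTheory CategoryTheory.Limits MvPolynomial

noncomputable section

namespace H40.KuS

open H24.Ku

theorem dim_mono_gen {A : Type} [CommRing A] {J J' : Ideal A} (h : J ≤ J') :
    ringKrullDim (A ⧸ J') ≤ ringKrullDim (A ⧸ J) :=
  ringKrullDim_le_of_surjective (Ideal.Quotient.factor h) (Ideal.Quotient.factor_surjective h)

lemma withBot_aux {D : WithBot ℕ∞} {d : ℕ} (h3 : D + 1 ≤ (d : WithBot ℕ∞)) (h4 : 0 ≤ D) :
    1 ≤ d ∧ D ≤ ((d - 1 : ℕ) : WithBot ℕ∞) := by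
  obtain ⟨x, rfl⟩ : ∃ x : ℕ∞, D = (x : WithBot ℕ∞) := by
    cases D with
    | bot => simp at h4
    | coe x => exact ⟨x, rfl⟩
  have h5 : x + 1 ≤ (d : ℕ∞) := by exact_mod_cast h3
  obtain ⟨m, rfl⟩ : ∃ m : ℕ, x = (m : ℕ∞) := by
    cases x with
    | top => simp at h5
    | coe m => exact ⟨m, rfl⟩
  have h7 : m + 1 ≤ d := by exact_mod_cast h5
  refine ⟨by omega, ?_⟩
  have h8 : (m : ℕ∞) ≤ ((d - 1 : ℕ) : ℕ∞) := Nat.cast_le.2 (by omega)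
  exact WithBot.coe_le_coe.2 h8

theorem dim_drop_gen {A : Type} [CommRing A] {p : Ideal A} [p.IsPrime] {z : A} (hz : z ∉ p)
    (hne : p ⊔ Ideal.span {z} ≠ ⊤) {d : ℕ} (hd : ringKrullDim (A ⧸ p) ≤ (d : WithBot ℕ∞)) :
    1 ≤ d ∧ ringKrullDim (A ⧸ (p ⊔ Ideal.span {z})) ≤ ((d - 1 : ℕ) : WithBot ℕ∞) := by
  have hz0 : Ideal.Quotient.mk p z ∈ nonZeroDivisors (A ⧸ p) := by
    rw [mem_nonZeroDivisors_iff_ne_zero]
    intro h
    exact hz (Ideal.Quotient.eq_zero_iff_mem.1 h)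
  have h1 := ringKrullDim_quotient_succ_le_of_nonZeroDivisor hz0
  have h2 : Ideal.span {Ideal.Quotient.mk p z} = (Ideal.span {z}).map (Ideal.Quotient.mk p) := by
    rw [Ideal.map_span, Set.image_singleton]
  have e : ringKrullDim ((A ⧸ p) ⧸ Ideal.span {Ideal.Quotient.mk p z}) =
      ringKrullDim (A ⧸ (p ⊔ Ideal.span {z})) := by
    rw [h2]
    exact ringKrullDim_eq_of_ringEquiv (DoubleQuot.quotQuotEquivQuotSup p (Ideal.span {z}))
  rw [e] at h1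
  have : Nontrivial (A ⧸ (p ⊔ Ideal.span {z})) := Ideal.Quotient.nontrivial_iff.2 hne
  exact withBot_aux (h1.trans hd) ringKrullDim_nonneg_of_nontrivial

variable {X : ProjData}

theorem dim_mono {J J' : Ideal X.A} (h : J ≤ J') : ringKrullDim (X.A ⧸ J') ≤ ringKrullDim (X.A ⧸ J) :=
  dim_mono_gen h

theorem dim_drop {p : Ideal X.A} [p.IsPrime] {z : X.A} (hz : z ∉ p) (hne : p ⊔ Ideal.span {z} ≠ ⊤)
    {d : ℕ} (hd : ringKrullDim (X.A ⧸ p) ≤ (d : WithBot ℕ∞)) :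
    1 ≤ d ∧ ringKrullDim (X.A ⧸ (p ⊔ Ideal.span {z})) ≤ ((d - 1 : ℕ) : WithBot ℕ∞) :=
  dim_drop_gen hz hne hd

end H40.KuS
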