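import Pool.Agent.H40.KuS.RingIdeal
import Pool.Agent.H40.KuS.RegLoc
import Pool.Agent.H24.Ku.Statement

/-!
# KuS-PT RingPt: local generators of a homogeneous prime of a smooth surface

* `exists_homog_mul`: `I'` is generated by finitely many homogeneous `g_1, …, g_r`
  (`X.A` is Noetherian, `le_of_homog`; e.g. a finite subset of the set of homogeneous elements of `I'` spans:
  `Submodule.fg_span_iff_fg_span_finset_subset`). For each `j` the ideal `col J (g_j)` is homogeneous
  (`isHom_col`) and not contained in `p`, so it contains a homogeneous `s_j ∉ p` (otherwise `le_of_homog`). `s = ∏ s_j`.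
* `height_le_two`: `p ≤ irr X` (`le_irr`), so `p < irr X`, `irr X` is prime (`irr_isPrime`, `irr X ≠ ⊤`: else
  ... `comp 0 1 = 1` but `comp 0` is zero on `irr X`: `comp 0 (xx i * b) = xx i * comp (0 - 1) b = 0`; or use
  `Ideal.span` membership as in `isHom_irr`). `height p < height (irr X) ≤ ringKrullDim X.A = 3`
  (`Ideal.height_strict_mono_of_is_prime..`, `Ideal.height_le_ringKrullDim_of_ne_top`). And
  `ringKrullDim (Localization.AtPrime p) = height p` (`IsLocalization.AtPrime.ringKrullDim_eq_height`).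
* `exists_uv`: `hX.regular p` (since `irr_le_iff`), `exists_gens` for `G` = the set of the images of the homogeneous
  elements of `p`; `Ideal.span G = p.map (algebraMap ..) = maximalIdeal` (`le_of_homog`,
  `Localization.AtPrime.map_eq_maximalIdeal`).
  Case 0: `maximalIdeal = ⊥`: take `u = 0`, `s`: for `a ∈ p` the image of `a` is zero, so `c a = 0` for some `c ∉ p`
  (`IsLocalization.map_eq_zero_iff`); `exists_homog_mul` with `J = span {0}`, `I' = p`.
  Case 1: for `a ∈ p` the image of `a` is in `span {u/1} = (span {u}).map`, so `c a ∈ span {u}` with `c ∉ p`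
  (`IsLocalization.algebraMap_mem_map_algebraMap_iff`); `exists_homog_mul` with `J = span {u}`, `I' = p`.
  Case 2: the same with `J = span {u} ⊔ span {v}` (`Ideal.map_sup`, `Ideal.map_span`); and `exists_homog_mul` with
  `J = span {u}`, `I' = col (span {u}) v`: if `v a ∈ span {u}` then the same holds in the localization, so the
  image of `a` is in `(span {u}).map`.
-/

open CategoryTheory CategoryTheory.Limits MvPolynomial

noncomputable section

namespace H40.KuS

open H24.Ku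

variable {X : ProjData}

private lemma ringPt_finset {p J : Ideal X.A} [p.IsPrime] (T : Finset X.A)
    (h : ∀ g ∈ T, ∃ (d : ℤ) (s : X.piece d), s.1 ∉ p ∧ s.1 * g ∈ J) :
    ∃ (d : ℤ) (s : X.piece d), s.1 ∉ p ∧ ∀ g ∈ T, s.1 * g ∈ J := by
  classical
  induction T using Finset.induction_on with
  | empty =>
    refine ⟨0, ⟨1, ProjData.one_mem_piece⟩, ?_, fun g hg => absurd hg (Finset.notMem_empty g)⟩
    exact fun h1 => Ideal.IsPrime.ne_top' ((Ideal.eq_top_iff_one p).2 h1)
  | insert g T hg ih =>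
    obtain ⟨d, s, hs, hs'⟩ := ih fun g' hg' => h g' (Finset.mem_insert_of_mem hg')
    obtain ⟨e, t, ht, ht'⟩ := h g (Finset.mem_insert_self g T)
    refine ⟨d + e, ⟨s.1 * t.1, ProjData.mul_mem_piece s.2 t.2⟩, fun hmem => ?_, fun g' hg' => ?_⟩
    · rcases Ideal.IsPrime.mem_or_mem ‹p.IsPrime› hmem with h1 | h1
      · exact hs h1
      · exact ht h1
    · change s.1 * t.1 * g' ∈ J
      rcases Finset.mem_insert.1 hg' with h1 | h1
      · rw [h1, mul_assoc]
        exact J.mul_mem_left _ ht'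
      · rw [mul_right_comm]
        exact J.mul_mem_right _ (hs' g' h1)

private lemma ringPt_span {I' : Ideal X.A} (hI : IsHom I') :
    Ideal.span {a : X.A | a ∈ I' ∧ ∃ d : ℤ, a ∈ X.piece d} = I' := by
  apply le_antisymm
  · exact Ideal.span_le.2 fun a ha => ha.1
  · exact le_of_homog hI fun d a ha haI => Ideal.subset_span ⟨haI, d, ha⟩

theorem exists_homog_mul {p J I' : Ideal X.A} [p.IsPrime] (hp : IsHom p) (hJ : IsHom J)
    (hI : IsHom I') (h : ∀ a ∈ I', ∃ c, c ∉ p ∧ c * a ∈ J) :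
    ∃ (d : ℤ) (s : X.piece d), s.1 ∉ p ∧ ∀ a ∈ I', s.1 * a ∈ J := by
  have hfg : (Submodule.span X.A {a : X.A | a ∈ I' ∧ ∃ d : ℤ, a ∈ X.piece d}).FG := by
    have h1 : Submodule.span X.A {a : X.A | a ∈ I' ∧ ∃ d : ℤ, a ∈ X.piece d} = I' :=
      ringPt_span hI
    rw [h1]
    exact IsNoetherian.noetherian I'
  obtain ⟨T, hT, hTs⟩ := (Submodule.fg_span_iff_fg_span_finset_subset _).1 hfg
  have h2 : ∀ g ∈ T, ∃ (d : ℤ) (s : X.piece d), s.1 ∉ p ∧ s.1 * g ∈ J := by
    intro g hg
    obtain ⟨hgI, e, hge⟩ := hT (Finset.mem_coe.2 hg)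
    by_contra hcon
    push Not at hcon
    obtain ⟨c, hc, hc'⟩ := h g hgI
    have h3 : col J g ≤ p := le_of_homog (isHom_col hge hJ) fun d b hb hbJ => by
      by_contra hbp
      refine hcon d ⟨b, hb⟩ hbp ?_
      rw [mul_comm]
      exact mem_col.1 hbJ
    refine hc (h3 (mem_col.2 ?_))
    rw [mul_comm]
    exact hc'
  obtain ⟨d, s, hs, hs'⟩ := ringPt_finset T h2
  refine ⟨d, s, hs, fun a ha => ?_⟩
  have h3 : I' ≤ col J s.1 := by
    have h4 : I' = Ideal.span (T : Set X.A) := by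
      rw [← ringPt_span hI]
      exact hTs
    rw [h4, Ideal.span_le]
    exact fun g hg => mem_col.2 (hs' g hg)
  exact mem_col.1 (h3 ha)

private lemma ringPt_irr_ne_top [Nontrivial X.A] : irr X ≠ ⊤ := by
  intro h
  have h1 : (1 : X.A) ∈ irr X := by
    rw [h]
    exact Submodule.mem_top
  unfold irr at h1
  obtain ⟨c, hc⟩ := Ideal.mem_span_range_iff_exists_fun.1 h1
  have h2 : comp 0 (1 : X.A) = 1 := comp_of_mem ProjData.one_mem_piece
  rw [← hc, map_sum] at h2
  have h3 : ∀ i ∈ Finset.univ, comp 0 (c i * xx (X := X) i) = 0 := by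
    intro i _
    rw [mul_comm, comp_mul (xx_mem i), eq_zero_of_mem_neg (d := 0 - 1) (by omega) (comp_mem _ _),
      mul_zero]
  rw [Finset.sum_congr rfl h3, Finset.sum_const_zero, hc] at h2
  exact zero_ne_one h2

theorem dim_le_two (hX : IsSmoothSurface X) {p : Ideal X.A} [p.IsPrime] (hp : IsHom p)
    (hirr : ¬ irr X ≤ p) :
    ringKrullDim (Localization.AtPrime p) ≤ ((2 : ℕ) : WithBot ℕ∞) := by
  have hnt : Nontrivial X.A := by
    by_contra hcon
    rw [not_nontrivial_iff_subsingleton] at hcon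
    have h1 := hX.dim
    rw [ringKrullDim_eq_bot_of_subsingleton] at h1
    exact absurd h1 (by decide)
  have htop : irr X ≠ ⊤ := ringPt_irr_ne_top
  have hprime : (irr X).IsPrime := irr_isPrime htop
  have hle : p ≤ irr X := le_irr hp Ideal.IsPrime.ne_top'
  have hlt : p < irr X := lt_of_le_not_ge hle hirr
  have h0 : ringKrullDim (Localization.AtPrime p) = p.height :=
    IsLocalization.AtPrime.ringKrullDim_eq_height p (Localization.AtPrime p)
  refine (le_of_eq h0).trans ?_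
  have h1 : ((irr X).height : WithBot ℕ∞) ≤ ((3 : ℕ∞) : WithBot ℕ∞) := by
    refine (Ideal.height_le_ringKrullDim_of_ne_top htop).trans ?_
    rw [hX.dim]
    exact le_rfl
  have h2 : (irr X).height ≤ 3 := WithBot.coe_le_coe.1 h1
  have h3 : p.height + 1 ≤ (irr X).height := Ideal.height_add_one_le_of_lt_of_isPrime hlt
  have h4 : p.height + 1 ≤ 2 + 1 := (h3.trans h2).trans (by norm_num)
  have h5 : p.height ≤ 2 := by
    have := (ENat.add_le_add_iff_right (k := 1) (by simp)).1 h4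
    exact this
  exact WithBot.coe_le_coe.2 h5

private lemma ringPt_mem_map {R S : Type*} [CommRing R] [CommRing S] [Algebra R S] (p : Ideal R)
    [p.IsPrime] [IsLocalization.AtPrime S p] {J : Ideal R} {a : R}
    (h : algebraMap R S a ∈ J.map (algebraMap R S)) : ∃ c, c ∉ p ∧ c * a ∈ J := by
  obtain ⟨m, hm, hm'⟩ := (IsLocalization.algebraMap_mem_map_algebraMap_iff p.primeCompl
    S J a).1 h
  exact ⟨m, hm, hm'⟩

/-- `exists_gens` for a localization of `R` at `p`, in terms of `R`. -/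
private lemma ringPt_gens {R S : Type*} [CommRing R] [CommRing S] [Algebra R S] (p : Ideal R)
    [p.IsPrime] [IsLocalization.AtPrime S p] [IsRegularLocalRing S]
    (h2 : ringKrullDim S ≤ ((2 : ℕ) : WithBot ℕ∞)) (G : Set R) (hG : Ideal.span G = p) :
    (∀ a ∈ p, ∃ c, c ∉ p ∧ c * a ∈ Ideal.span {(0 : R)}) ∨
    (∃ u ∈ G, ∀ a ∈ p, ∃ c, c ∉ p ∧ c * a ∈ Ideal.span {u}) ∨
    ∃ u ∈ G, ∃ v ∈ G, (∀ a ∈ p, ∃ c, c ∉ p ∧ c * a ∈ Ideal.span {u} ⊔ Ideal.span {v}) ∧
      ∀ a : R, v * a ∈ Ideal.span {u} → ∃ c, c ∉ p ∧ c * a ∈ Ideal.span {u} := by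
  have hG' : Ideal.span (algebraMap R S '' G) = IsLocalRing.maximalIdeal S := by
    rw [← Ideal.map_span, hG, IsLocalization.AtPrime.map_eq_maximalIdeal p S]
  have hmem : ∀ a ∈ p, algebraMap R S a ∈ IsLocalRing.maximalIdeal S := by
    intro a ha
    rw [← IsLocalization.AtPrime.map_eq_maximalIdeal p S]
    exact Ideal.mem_map_of_mem _ ha
  rcases exists_gens h2 _ hG' with h0 | ⟨_, ⟨u, hu, rfl⟩, h1⟩ |
    ⟨_, ⟨u, hu, rfl⟩, _, ⟨v, hv, rfl⟩, h3, h4⟩
  · left
    intro a ha
    apply ringPt_mem_map (S := S) p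
    have h5 := hmem a ha
    rw [h0, Ideal.mem_bot] at h5
    rw [h5]
    exact Ideal.zero_mem _
  · right
    left
    refine ⟨u, hu, fun a ha => ?_⟩
    apply ringPt_mem_map (S := S) p
    rw [Ideal.map_span, Set.image_singleton, ← h1]
    exact hmem a ha
  · right
    right
    refine ⟨u, hu, v, hv, fun a ha => ?_, fun a ha => ?_⟩
    · apply ringPt_mem_map (S := S) p
      rw [Ideal.map_sup, Ideal.map_span, Ideal.map_span, Set.image_singleton,
        Set.image_singleton, ← h3]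
      exact hmem a ha
    · apply ringPt_mem_map (S := S) p
      rw [Ideal.map_span, Set.image_singleton]
      apply h4
      rw [← map_mul, ← Set.image_singleton, ← Ideal.map_span]
      exact Ideal.mem_map_of_mem _ ha

theorem exists_uv (hX : IsSmoothSurface X) {p : Ideal X.A} [p.IsPrime] (hp : IsHom p)
    (hirr : ¬ irr X ≤ p) :
    (∃ (e : ℤ) (u : X.piece e) (d : ℤ) (s : X.piece d), u.1 ∈ p ∧ s.1 ∉ p ∧
      ∀ a ∈ p, s.1 * a ∈ Ideal.span {u.1}) ∨
    ∃ (e : ℤ) (u : X.piece e) (f : ℤ) (v : X.piece f) (d : ℤ) (s : X.piece d) (d' : ℤ)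
      (s' : X.piece d'), u.1 ∈ p ∧ v.1 ∈ p ∧ s.1 ∉ p ∧ s'.1 ∉ p ∧
      (∀ a ∈ p, s.1 * a ∈ Ideal.span {u.1} ⊔ Ideal.span {v.1}) ∧
      ∀ a ∈ col (Ideal.span {u.1}) v.1, s'.1 * a ∈ Ideal.span {u.1} := by
  have hreg : IsRegularLocalRing (Localization.AtPrime p) := by
    apply hX.regular p
    rw [irr_le_iff] at hirr
    push Not at hirr
    exact hirr
  rcases ringPt_gens (S := Localization.AtPrime p) p (dim_le_two hX hp hirr) _
    (ringPt_span hp) with h4 |
    ⟨u, ⟨hu, e, hue⟩, h4⟩ | ⟨u, ⟨hu, e, hue⟩, v, ⟨hv, f, hvf⟩, h4, h5⟩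
  · left
    obtain ⟨d, s, hs, hs'⟩ := exists_homog_mul hp
      (isHom_span_singleton (d := 0) (Submodule.zero_mem _)) hp h4
    exact ⟨0, 0, d, s, Ideal.zero_mem _, hs, hs'⟩
  · left
    obtain ⟨d, s, hs, hs'⟩ := exists_homog_mul hp (isHom_span_singleton hue) hp h4
    exact ⟨e, ⟨u, hue⟩, d, s, hu, hs, hs'⟩
  · right
    obtain ⟨d, s, hs, hs'⟩ := exists_homog_mul hp
      (isHom_sup (isHom_span_singleton hue) (isHom_span_singleton hvf)) hp h4
    obtain ⟨d', s', ht, ht'⟩ := exists_homog_mul hp (isHom_span_singleton hue)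
      (isHom_col hvf (isHom_span_singleton hue)) (fun a ha => h5 a (mem_col.1 ha))
    exact ⟨e, ⟨u, hue⟩, f, ⟨v, hvf⟩, d, s, d', s', hu, hv, hs, ht, hs', ht'⟩

end H40.KuS
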