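import Pool.Agent.H40.KuS.ExtBasic

/-!
# KuS: Serre's theorems, definitions

* `Van M`: Serre vanishing; `H0 M`: `M_n = H^0(M~(n))` for `n` large; `FinH M`: finiteness.
-/

open CategoryTheory CategoryTheory.Limits CategoryTheory.Abelian Opposite

noncomputable section

namespace H40.KuS

open H24.Ku

variable {X : ProjData}

/-- Serre vanishing: `Ext^i(𝒪(-n), M~) = 0` for `i ≥ 1` and `n` large, uniformly in `i`. -/
def Van (M : Gr X) : Prop :=
  ∃ k : ℤ, ∀ n : Deg X, k ≤ n.deg → ∀ (i : ℕ) (ξ : EE (P n) M (i + 1)), ξ = 0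

/-- `M_n = Hom(𝒪(-n), M~)` for `n` large. -/
def H0 (M : Gr X) : Prop :=
  ∃ k : ℤ, ∀ n : Deg X, k ≤ n.deg →
    Function.Bijective (fun x : M.obj.obj n => (Lgen x : L n ⟶ (sheaf X).obj M))

/-- All `Ext^i(𝒪(-n), M~)` are finite dimensional. -/
def FinH (M : Gr X) : Prop := ∀ (n : Deg X) (i : ℕ), Module.Finite ℂ (EE (P n) M i)

end H40.KuS
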