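import Pool.Agent.H40.KuS.S1Defs
import Pool.Agent.H40.KuS.Frac

/-!
# KuS-S1c S1Ext: extension closure of Serre's theorems

`0 → X₁ → X₂ → X₃ → 0` short exact in `Gr X`.
* `van_ext`: `ξ ∈ EE (P n) X₂ (i+1)`: `post S.g ξ = 0`, so `ξ = post S.f η` (`post_exact₂`), `η = 0`.
* `h0_ext`: elementwise five lemma, for `n` large such that `H0 X₁`, `H0 X₃`, `Van X₁` hold. Injective: `Lgen x = 0`
  gives `Lgen (g x) = 0` (`Lgen_comp`), `g x = 0`, `x = f x₁` (`exact_iff` in `H24/Ku/Ev.lean`), `Lgen x₁ ≫ (sheaf X).map f = 0`,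
  and `(sheaf X).map f` is mono, so `x₁ = 0`. Surjective: `ψ : L n ⟶ X₂~`; `ψ ≫ (sheaf X).map g = Lgen x₃`, `x₃ = g x₂`;
  `ψ - Lgen x₂` is killed by `(sheaf X).map g`, so it factors through the mono `(sheaf X).map f`
  (`(shortExact_sheaf hS).exact.lift`, or `post_exact₂` with `e0`), and is `Lgen (f x₁)`. (No use of `Van`.)
* `finH_ext`: `post S.g : EE (P n) X₂ i → EE (P n) X₃ i` has range in a finite dimensional space and kernel in the
  range of `post S.f` (`post_exact₂`).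
* `s1_of_finLen`: `M ∈ finLen X`: `(sheaf X).obj M` is zero (`isZero_sheaf_iff`), `EE_eq_zero_of_tgt`; `H0`: in large degrees
  `M_n` is zero (`Subsingleton`) and `Hom(L n, M~) = 0`.
* `Van.of_iso` etc. are not needed (extensions with a zero end give isomorphisms).
-/

open CategoryTheory CategoryTheory.Limits CategoryTheory.Abelian Opposite

noncomputable section

namespace H40.KuS

open H24.Ku

variable {X : ProjData}

theorem van_ext {S : ShortComplex (Gr X)} (hS : S.ShortExact) (h₁ : Van S.X₁) (h₃ : Van S.X₃) :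
    Van S.X₂ := by
  obtain ⟨k₁, hk₁⟩ := h₁
  obtain ⟨k₃, hk₃⟩ := h₃
  refine ⟨max k₁ k₃, fun n hn i ξ => ?_⟩
  obtain ⟨η, hη⟩ := post_exact₂ hS ξ (hk₃ n ((le_max_right _ _).trans hn) i _)
  rw [← hη, hk₁ n ((le_max_left _ _).trans hn) i η, map_zero]

theorem h0_ext {S : ShortComplex (Gr X)} (hS : S.ShortExact) (h₁ : H0 S.X₁) (h₃ : H0 S.X₃) :
    H0 S.X₂ := by
  obtain ⟨k₁, hk₁⟩ := h₁
  obtain ⟨k₃, hk₃⟩ := h₃
  have hSs := shortExact_sheaf hS
  have hmono : Mono ((sheaf X).map S.f) := hSs.mono_f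
  have hmono' : Mono (S.map (sheaf X)).f := hSs.mono_f
  have hinj : ∀ n : Deg X, k₁ ≤ n.deg → ∀ w : S.X₁.obj.obj n, (Lgen w : L n ⟶ _) = 0 → w = 0 := by
    intro n hn w hw
    apply (hk₁ n hn).1
    show Lgen w = Lgen 0
    rw [hw, Lgen_zero]
  have hinj₃ : ∀ n : Deg X, k₃ ≤ n.deg → ∀ w : S.X₃.obj.obj n, (Lgen w : L n ⟶ _) = 0 → w = 0 := by
    intro n hn w hw
    apply (hk₃ n hn).1
    show Lgen w = Lgen 0
    rw [hw, Lgen_zero]
  refine ⟨max k₁ k₃, fun n hn => ⟨?_, ?_⟩⟩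
  · intro x y hxy
    have hxy' : (Lgen x : L n ⟶ _) = Lgen y := hxy
    have h0 : (Lgen (x - y) : L n ⟶ _) = 0 := by rw [Lgen_sub, hxy', sub_self]
    have h3 : (S.g.hom.app n).hom (x - y) = 0 := by
      apply hinj₃ n ((le_max_right _ _).trans hn)
      rw [← Lgen_comp, h0, zero_comp]
    obtain ⟨w, hw⟩ := (exact_iff S).1 hS.exact n (x - y) h3
    have h4 : (Lgen w : L n ⟶ _) = 0 := by
      rw [← cancel_mono ((sheaf X).map S.f), Lgen_comp, hw, h0, zero_comp]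
    have h5 := hinj n ((le_max_left _ _).trans hn) w h4
    rw [h5, map_zero] at hw
    exact sub_eq_zero.1 hw.symm
  · intro ψ
    obtain ⟨x₃, hx₃⟩ := (hk₃ n ((le_max_right _ _).trans hn)).2 (ψ ≫ (sheaf X).map S.g)
    have hx₃' : (Lgen x₃ : L n ⟶ _) = ψ ≫ (sheaf X).map S.g := hx₃
    have hg := (epi_iff_surjective S.g).1 hS.epi_g n
    obtain ⟨x₂, hx₂⟩ := hg x₃
    have h6 : (ψ - Lgen x₂) ≫ (sheaf X).map S.g = 0 := by
      rw [Preadditive.sub_comp, Lgen_comp, hx₂, hx₃', sub_self]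
    obtain ⟨η, hη⟩ : ∃ η : L n ⟶ (sheaf X).obj S.X₁, η ≫ (sheaf X).map S.f = ψ - Lgen x₂ :=
      ⟨hSs.exact.lift _ h6, hSs.exact.lift_f _ h6⟩
    obtain ⟨x₁, hx₁⟩ := (hk₁ n ((le_max_left _ _).trans hn)).2 η
    have hx₁' : (Lgen x₁ : L n ⟶ _) = η := hx₁
    refine ⟨(S.f.hom.app n).hom x₁ + x₂, ?_⟩
    show Lgen ((S.f.hom.app n).hom x₁ + x₂) = ψ
    rw [Lgen_add, ← Lgen_comp, hx₁', hη, sub_add_cancel]

theorem finH_ext {S : ShortComplex (Gr X)} (hS : S.ShortExact) (h₁ : FinH S.X₁)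
    (h₃ : FinH S.X₃) : FinH S.X₂ := by
  intro n i
  have hf₁ := h₁ n i
  have hf₃ := h₃ n i
  rw [Module.finite_def]
  refine Submodule.fg_of_fg_map_of_fg_inf_ker (post (M := P n) (i := i) S.g) ?_ ?_
  · exact IsNoetherian.noetherian _
  · have h : (⊤ : Submodule ℂ (EE (P n) S.X₂ i)) ⊓ LinearMap.ker (post (M := P n) (i := i) S.g) =
        Submodule.map (post (M := P n) (i := i) S.f) ⊤ := by
      ext ξ
      simp only [Submodule.mem_inf, Submodule.mem_top, true_and, LinearMap.mem_ker,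
        Submodule.mem_map]
      constructor
      · exact fun h => post_exact₂ hS ξ h
      · rintro ⟨η, rfl⟩
        rw [post_post, S.zero, post_zero]
    rw [h]
    exact hf₁.fg_top.map _

theorem s1_of_finLen {M : Gr X} (h : finLen X M) : Van M ∧ H0 M ∧ FinH M := by
  have hz : IsZero ((sheaf X).obj M) := (isZero_sheaf_iff X M).2 h
  refine ⟨⟨0, fun n _ i ξ => EE_eq_zero_of_tgt hz ξ⟩, ?_, ?_⟩
  · obtain ⟨k, hk⟩ := h
    refine ⟨k, fun n hn => ?_⟩
    have hM := hk n hn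
    have hL : Subsingleton (L n ⟶ (sheaf X).obj M) := ⟨fun a b => hz.eq_of_tgt a b⟩
    exact ⟨Function.injective_of_subsingleton _, fun ψ => ⟨0, Subsingleton.elim _ _⟩⟩
  · intro n i
    have : Subsingleton (EE (P n) M i) :=
      ⟨fun a b => (EE_eq_zero_of_tgt hz a).trans (EE_eq_zero_of_tgt hz b).symm⟩
    infer_instance

end H40.KuS
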