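import Pool.Agent.H40.KuS.LESz
import Pool.Agent.H40.KuS.S1Defs
import Pool.Agent.H40.KuS.RingFacts

/-!
# KuS-S1b S1Fin: finiteness passes from `C = M(1)/zM` to `M`

* `finite_obj`: `M.obj.obj n` is a quotient of a finite sum of `X.piece (n - g_i)`
  (`M.property.2.2 : FG X M.obj`), `piece_finite` (`RingFacts.lean`).
* `finH_of_mul`: `i = 0`: `pre (zm z n)` is injective on `EE (P n) M 0` (`z_inj0`), so `EE (P n) M 0` embeds in
  `EE (P n') M 0` for `n' = n + j` large (induction on `j`), which is isomorphic to `M_{n'}` (`H0 M`, `e0`; `Lgen` is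
  linear: `Lgen_add`, `Lgen_smul`), finite dimensional. `i + 1`: zero for `n` large (`Van M`); descending
  induction on `n` (i.e. induction on `j` with `n.deg + j ≥ k`): the kernel of the linear map `pre (zm z n)` on
  `EE (P n) M (i+1)` is a quotient of `EE (P n) C i` (`z_ker`; it is contained in the range of the linear map
  `dr hS`), its range is contained in the finite dimensional `EE (P ⟨n.deg + 1⟩) M (i+1)`; a vector space with
  finite dimensional kernel and range of a linear map is finite dimensional (`Submodule.fg_of_fg_map_of_fg_inf_ker`,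
  `Module.finite_def`, or `Module.Finite.of_submodule_quotient`).
-/

open CategoryTheory CategoryTheory.Limits CategoryTheory.Abelian Opposite

noncomputable section

namespace H40.KuS

open H24.Ku

variable {X : ProjData}

theorem finite_obj (M : Gr X) (n : Deg X) : Module.Finite ℂ (M.obj.obj n) := by
  obtain ⟨k, g, x, h⟩ := M.property.2.2
  have h1 : ∀ i : Fin k, Module.Finite ℂ (g i ⟶ n) := fun i =>
    inferInstanceAs (Module.Finite ℂ (X.piece (n.deg - (g i).deg)))
  let f : (∀ i : Fin k, g i ⟶ n) →ₗ[ℂ] M.obj.obj n :=
    { toFun := fun a => ∑ i, (M.obj.map (a i)).hom (x i)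
      map_add' := by
        intro a b
        rw [← Finset.sum_add_distrib]
        exact Finset.sum_congr rfl fun i _ => map_add' M (a i) (b i) (x i)
      map_smul' := by
        intro c a
        rw [RingHom.id_apply, Finset.smul_sum]
        exact Finset.sum_congr rfl fun i _ => map_smul' M c (a i) (x i) }
  have hf : Function.Surjective f := by
    intro y
    obtain ⟨a, ha⟩ := h n y
    exact ⟨a, ha.symm⟩
  exact Module.Finite.of_surjective f hf

/-- A vector space is finite dimensional if the range and the kernel of a linear map on it are. -/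
private lemma s1Fin_of_ker {V W : Type*} [AddCommGroup V] [Module ℂ V] [AddCommGroup W]
    [Module ℂ W] (f : V →ₗ[ℂ] W) [Module.Finite ℂ W] {U : Type*} [AddCommGroup U] [Module ℂ U]
    [Module.Finite ℂ U] (g : U →ₗ[ℂ] V) (h : ∀ v, f v = 0 → ∃ u, g u = v) :
    Module.Finite ℂ V := by
  have h1 : Module.Finite ℂ (LinearMap.ker f) := by
    have h2 : LinearMap.ker f ≤ LinearMap.range g := by
      intro v hv
      obtain ⟨u, hu⟩ := h v (LinearMap.mem_ker.1 hv)
      exact ⟨u, hu⟩
    exact Submodule.finiteDimensional_of_le h2
  have h3 : Module.Finite ℂ (V ⧸ LinearMap.ker f) :=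
    Module.Finite.equiv f.quotKerEquivRange.symm
  exact Module.Finite.of_submodule_quotient (LinearMap.ker f)

variable {M C : Gr X} {z : X.piece 1} {q : (twist X 1).obj M ⟶ C}
  {w : (mulMap X 1 z).app M ≫ q = 0}

theorem finH_of_mul (hS : (ShortComplex.mk ((mulMap X 1 z).app M) q w).ShortExact)
    (hF : FinH C) (hV : Van M) (hH : H0 M) : FinH M := by
  intro n i
  cases i with
  | zero =>
    obtain ⟨k, hk⟩ := hH
    have key : ∀ (j : ℕ) (n : Deg X), k ≤ n.deg + j → Module.Finite ℂ (EE (P n) M 0) := by
      intro j
      induction j with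
      | zero =>
        intro n hn
        have h1 := hk n (by simpa using hn)
        have h2 := finite_obj M n
        let f : M.obj.obj n →ₗ[ℂ] EE (P n) M 0 :=
          { toFun := fun x => e0 (Lgen x)
            map_add' := by
              intro x y
              rw [Lgen_add, map_add]
            map_smul' := by
              intro c x
              rw [Lgen_smul, map_smul]
              rfl }
        have hf : Function.Surjective f := by
          intro ξ
          obtain ⟨x, hx⟩ := h1.2 (e0.symm ξ)
          refine ⟨x, ?_⟩
          have hx' : (Lgen x : L n ⟶ (sheaf X).obj M) = e0.symm ξ := hx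
          change e0 (Lgen x : L n ⟶ (sheaf X).obj M) = ξ
          rw [hx', LinearEquiv.apply_symm_apply]
        exact Module.Finite.of_surjective f hf
      | succ j ih =>
        intro n hn
        have h1 : Module.Finite ℂ (EE (P (⟨n.deg + 1⟩ : Deg X)) M 0) := ih ⟨n.deg + 1⟩ (by
          push_cast at hn
          change k ≤ n.deg + 1 + j
          omega)
        refine Module.Finite.of_injective (pre (zm z n) : EE (P n) M 0 →ₗ[ℂ] _) ?_
        rw [← LinearMap.ker_eq_bot, LinearMap.ker_eq_bot']
        exact fun ξ hξ => z_inj0 hS ξ hξ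
    exact key (k - n.deg).toNat n (by omega)
  | succ i =>
    obtain ⟨k, hk⟩ := hV
    have key : ∀ (j : ℕ) (n : Deg X), k ≤ n.deg + j → Module.Finite ℂ (EE (P n) M (i + 1)) := by
      intro j
      induction j with
      | zero =>
        intro n hn
        have h1 := hk n (by simpa using hn) i
        have h2 : Subsingleton (EE (P n) M (i + 1)) := ⟨fun a b => (h1 a).trans (h1 b).symm⟩
        infer_instance
      | succ j ih =>
        intro n hn
        have h1 : Module.Finite ℂ (EE (P (⟨n.deg + 1⟩ : Deg X)) M (i + 1)) :=
          ih ⟨n.deg + 1⟩ (by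
            push_cast at hn
            change k ≤ n.deg + 1 + j
            omega)
        have h2 : Module.Finite ℂ (EE (P n) C i) := hF n i
        exact s1Fin_of_ker (pre (zm z n) : EE (P n) M (i + 1) →ₗ[ℂ] _)
          (dr hS : EE (P n) C i →ₗ[ℂ] _) fun ξ hξ => z_ker hS ξ hξ
    exact key (k - n.deg).toNat n (by omega)

end H40.KuS
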