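import Pool.Agent.H40.KuS.S1Mul
import Pool.Agent.H40.KuS.S1Fin
import Pool.Agent.H40.KuS.S1Ext
import Pool.Agent.H40.KuS.Dev

/-!
# KuS-S1d S1Main: Serre's theorems for all coherent sheaves

`devc` with `Q J M := Van M ∧ H0 M ∧ FinH M`, then `dev`. Zero modules are in `finLen X` (`s1_of_finLen`).
Prime case, `Cy M p`: if `irr X ≤ p` then `finLen X M` (`finLen_of_cy`). Otherwise some `xx i ∉ p`
(`irr_le_iff`); `z = ⟨xx i, xx_mem i⟩`, `Cy.mul_ses` (with `d = 1`) gives `C` with `Cy C (p ⊔ span {z})`, homogeneous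
(`isHom_sup`, `isHom_span_singleton`) and `> p`; so `Van C`, `H0 C`, `FinH C` by hypothesis; `van_of_mul`, `h0_of_mul`,
`finH_of_mul`.
-/

open CategoryTheory CategoryTheory.Limits CategoryTheory.Abelian Opposite

noncomputable section

namespace H40.KuS

open H24.Ku

variable {X : ProjData}

theorem S1Main_zero {M : Gr X} (h : IsZero M) : Van M ∧ H0 M ∧ FinH M :=
  s1_of_finLen ((isZero_sheaf_iff X M).1 ((sheaf X).map_isZero h))

theorem S1Main_ext {S : ShortComplex (Gr X)} (hS : S.ShortExact)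
    (h₁ : Van S.X₁ ∧ H0 S.X₁ ∧ FinH S.X₁) (h₃ : Van S.X₃ ∧ H0 S.X₃ ∧ FinH S.X₃) :
    Van S.X₂ ∧ H0 S.X₂ ∧ FinH S.X₂ :=
  ⟨van_ext hS h₁.1 h₃.1, h0_ext hS h₁.2.1 h₃.2.1, finH_ext hS h₁.2.2 h₃.2.2⟩

theorem S1Main_cy : ∀ (J : Ideal X.A) (M : Gr X), Cy M J → Van M ∧ H0 M ∧ FinH M := by
  refine devc (fun _ M => Van M ∧ H0 M ∧ FinH M) (fun _ M h => S1Main_zero h)
    (fun _ _ _ S hS _ _ h₁ h₃ => S1Main_ext hS h₁ h₃) ?_
  intro p hp hhom ih M hM
  by_cases hirr : irr X ≤ p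
  · exact s1_of_finLen (finLen_of_cy hM hirr)
  · rw [irr_le_iff] at hirr
    push Not at hirr
    obtain ⟨i, hi⟩ := hirr
    obtain ⟨C, q, w, hS, hC⟩ := hM.mul_ses (⟨xx i, xx_mem i⟩ : X.piece 1) hi
    have hlt : p < p ⊔ Ideal.span {xx i} := by
      refine lt_of_le_of_ne le_sup_left fun heq => hi ?_
      rw [heq]
      exact (le_sup_right : Ideal.span {xx i} ≤ _) (Ideal.mem_span_singleton_self _)
    obtain ⟨hV, hH, hF⟩ := ih _ hlt (isHom_sup hhom (isHom_span_singleton (xx_mem i))) C hC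
    have hV' := van_of_mul hS hV hH
    have hH' := h0_of_mul hS hH
    exact ⟨hV', hH', finH_of_mul hS hF hV' hH'⟩

theorem s1 (M : Gr X) : Van M ∧ H0 M ∧ FinH M :=
  dev (fun M => Van M ∧ H0 M ∧ FinH M) (fun _ h => S1Main_zero h)
    (fun _ hS h₁ h₃ => S1Main_ext hS h₁ h₃) S1Main_cy M

end H40.KuS
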