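import Pool.Agent.H40.KuS.LESz
import Pool.Agent.H40.KuS.S1Defs
import Pool.Agent.H40.KuS.Killed

/-!
# KuS-S1a S1Mul: Serre's theorems pass from `C = M(1)/zM` to `M`

Let `0 → M → M(1) → C → 0` be short exact (`hS`, first map multiplication by `z ∈ A_1`).

* `eq_zero_of_killed`: (iteration) Let `k₀` be such that for all `n ≥ k₀` the map `pre (zm z n)` is injective on
  `EE (P n) M i`. Claim by induction on `j : ℕ`: if `n ≥ k₀` and `ξ ∈ EE (P n) M i` satisfies `pre (Pm a) ξ = 0` for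
  all `a : n ⟶ ⟨n.deg + j⟩` then `ξ = 0`. `j = 0`: `a = 1` (`Pm` of the element `1` is an isomorphism; e.g.
  `n = ⟨n.deg + 0⟩`). `j + 1`: apply the claim to `ξ' = pre (zm z n) ξ ∈ EE (P ⟨n.deg + 1⟩) M i`:
  `pre (Pm a') ξ' = pre (Pm (z a')) ξ = 0` (`pre_pre`, `Pm_comp`; degrees `n + 1 + j = n + (j + 1)`).
* `van_of_mul`: for `n` large `pre (zm z n)` is injective on `EE (P n) M (i + 1)`: `i ≥ 1`: `z_inj` with `Van C`;
  `i = 0`: `z_inj1` with `H0 C`. By `killed` (for `M = P n`: elements of `(P n)_m` are the `a : n ⟶ m`, and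
  `gen a = Pm a`) every `ξ` is killed by all `a` of large degree; `eq_zero_of_killed`.
* `h0_of_mul`: injectivity (all `n`): `Lgen x = 0` gives `k` with `a x = 0` for all `a` of degree `≥ k`
  (`Lgen_eq_zero_iff`), in particular `z^j x = 0`, and `z` is injective on `M` (`gr_injective`), so `x = 0`.
  Surjectivity for `n ≥ k₀` where `H0 C` holds: `hom_exists` gives, for `j` large, `Lm a ≫ ψ = Lgen y_a` for all
  `a : n ⟶ ⟨n.deg + j⟩`. Induction on `j` (descending): claim: if `n ≥ k₀` and for all `a : n ⟶ ⟨n.deg + j⟩` the map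
  `Lm a ≫ ψ` is some `Lgen y`, then `ψ` is some `Lgen x`: `j = 0` clear; `j + 1`: `ψ' = (sheaf X).map (zm z n) ≫ ψ`
  satisfies the hypothesis for `j`, so `ψ' = Lgen y`, and `z_lift0`.
-/

open CategoryTheory CategoryTheory.Limits CategoryTheory.Abelian Opposite

noncomputable section

namespace H40.KuS

open H24.Ku

variable {X : ProjData}

theorem S1Mul_Pm_id (n : Deg X) : Pm (𝟙 n) = 𝟙 (P n) := gen_ext (gen_one _)

theorem eq_zero_of_killed {M : Gr X} {z : X.piece 1} {i : ℕ} {k₀ : ℤ}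
    (hinj : ∀ n : Deg X, k₀ ≤ n.deg → ∀ ξ : EE (P n) M i, pre (zm z n) ξ = 0 → ξ = 0)
    {n : Deg X} (hn : k₀ ≤ n.deg) (ξ : EE (P n) M i) {k : ℤ}
    (h : ∀ m : Deg X, k ≤ m.deg → ∀ a : n ⟶ m, pre (Pm a) ξ = 0) : ξ = 0 := by
  have key : ∀ (j : ℕ) (n m : Deg X), m.deg = n.deg + j → k₀ ≤ n.deg →
      ∀ ξ : EE (P n) M i, (∀ a : n ⟶ m, pre (Pm a) ξ = 0) → ξ = 0 := by
    intro j
    induction j with
    | zero =>
      intro n m hm _ ξ h
      obtain rfl : m = n := by
        cases m; cases n; simp_all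
      have h1 := h (𝟙 m)
      rwa [S1Mul_Pm_id, pre_id] at h1
    | succ j ih =>
      intro n m hm hn ξ h
      refine hinj n hn ξ (ih ⟨n.deg + 1⟩ m ?_ ?_ _ ?_)
      · rw [hm]; push_cast; ring
      · simp only []; omega
      · intro a
        rw [pre_pre, zm, Pm_comp]
        exact h _
  exact key (k - n.deg).toNat n ⟨n.deg + (k - n.deg).toNat⟩ rfl hn ξ
    (h _ (by simp only []; omega))

variable {M C : Gr X} {z : X.piece 1} {q : (twist X 1).obj M ⟶ C}
  {w : (mulMap X 1 z).app M ≫ q = 0}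

theorem van_of_mul (hS : (ShortComplex.mk ((mulMap X 1 z).app M) q w).ShortExact)
    (hV : Van C) (hH : H0 C) : Van M := by
  obtain ⟨k₁, hk₁⟩ := hV
  obtain ⟨k₂, hk₂⟩ := hH
  refine ⟨max k₁ k₂, fun n hn i ξ => ?_⟩
  obtain ⟨k, hk⟩ := killed ξ
  refine eq_zero_of_killed (z := z) (k₀ := max k₁ k₂) ?_ hn ξ (k := k) (fun m hm a => hk m hm a)
  intro n hn ξ hξ
  cases i with
  | zero =>
    refine z_inj1 hS (fun ψ => ?_) ξ hξ
    obtain ⟨c, hc⟩ := (hk₂ n (le_trans (le_max_right _ _) hn)).2 ψ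
    exact ⟨c, hc.symm⟩
  | succ i => exact z_inj hS (hk₁ n (le_trans (le_max_left _ _) hn) i) ξ hξ

theorem h0_of_mul (hS : (ShortComplex.mk ((mulMap X 1 z).app M) q w).ShortExact)
    (hH : H0 C) : H0 M := by
  obtain ⟨k₀, hk₀⟩ := hH
  refine ⟨k₀, fun n hn => ⟨?_, ?_⟩⟩
  · have hinj : ∀ x : M.obj.obj n, Lgen x = 0 → x = 0 := by
      intro x hx
      obtain ⟨k, hk⟩ := (Lgen_eq_zero_iff x).1 hx
      have key : ∀ (j : ℕ) (n m : Deg X), m.deg = n.deg + j →
          ∀ x : M.obj.obj n, (∀ a : n ⟶ m, (M.obj.map a).hom x = 0) → x = 0 := by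
        intro j
        induction j with
        | zero =>
          intro n m hm x h
          obtain rfl : m = n := by
            cases m; cases n; simp_all
          have h1 := h (𝟙 m)
          rwa [map_id'] at h1
        | succ j ih =>
          intro n m hm x h
          have hm1 : Mono ((mulMap X 1 z).app M) := hS.mono_f
          have h2 : (((mulMap X 1 z).app M).hom.app n).hom x = 0 := by
            refine ih ⟨n.deg + 1⟩ m ?_ _ ?_
            · rw [hm]; push_cast; ring
            · intro a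
              have h3 := h ((dh z.1 z.2 rfl : n ⟶ ⟨n.deg + 1⟩) ≫ a)
              rw [map_comp'] at h3
              exact h3
          exact gr_injective ((mulMap X 1 z).app M) n (h2.trans (map_zero _).symm)
      exact key (k - n.deg).toNat n ⟨n.deg + (k - n.deg).toNat⟩ rfl x
        (hk _ (by simp only []; omega))
    intro x y hxy
    have h1 : Lgen (x - y) = 0 := by
      rw [Lgen_sub]
      exact sub_eq_zero.2 hxy
    exact sub_eq_zero.1 (hinj _ h1)
  · intro ψ
    obtain ⟨k, hk⟩ := hom_exists ψ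
    have key : ∀ (j : ℕ) (n m : Deg X), m.deg = n.deg + j → k₀ ≤ n.deg →
        ∀ ψ : L n ⟶ (sheaf X).obj M, (∀ a : n ⟶ m, ∃ y : M.obj.obj m, Lm a ≫ ψ = Lgen y) →
          ∃ x : M.obj.obj n, Lgen x = ψ := by
      intro j
      induction j with
      | zero =>
        intro n m hm _ ψ h
        obtain rfl : m = n := by
          cases m; cases n; simp_all
        obtain ⟨y, hy⟩ := h (𝟙 m)
        refine ⟨y, ?_⟩
        rw [← hy, Lm, S1Mul_Pm_id, CategoryTheory.Functor.map_id, Category.id_comp]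
      | succ j ih =>
        intro n m hm hn ψ h
        obtain ⟨y, hy⟩ := ih ⟨n.deg + 1⟩ m (by rw [hm]; push_cast; ring)
          (by simp only []; omega) ((sheaf X).map (zm z n) ≫ ψ) (by
            intro a
            obtain ⟨y, hy⟩ := h ((dh z.1 z.2 rfl : n ⟶ ⟨n.deg + 1⟩) ≫ a)
            refine ⟨y, ?_⟩
            rw [← hy, ← Category.assoc]
            congr 1
            exact Lm_comp _ _)
        obtain ⟨x, hx⟩ := z_lift0 hS (fun c hc => by
          refine (hk₀ n hn).1 ?_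
          change Lgen c = Lgen 0
          rw [hc, Lgen_zero]) ψ y hy.symm
        exact ⟨x, hx.symm⟩
    exact key (k - n.deg).toNat n ⟨n.deg + (k - n.deg).toNat⟩ rfl hn ψ
      (hk _ (by simp only []; omega))

end H40.KuS
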