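import Pool.Agent.H40.KuS.Top
import Pool.Agent.H40.KuS.CycSes
import Pool.Agent.H40.KuS.RingPt

/-!
# KuS-S3a S3a: `Ext^i(M~, N~) = 0` for `i ≥ 5` when `M` is a point

`X` is a smooth surface (`hX`), `A = X.A` a domain of dimension `3`.

* `post_dl`: `Ext.comp_assoc`.
* `killed_of_mul`: `twE_mul` and `pre_zero`: if `s` kills the module `K` it kills `EE K N i`.
* `eq_zero_of_mul`: `twE_mul`, `pre_bijective_of_isIso`, `twE_bijective` (and `twE 0 = 0` from `twE_add`).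
* `ext_bot`: `M` is generated by `x ∈ M_n` with annihilator `⊥`; `P n` is generated by `𝟙 n ∈ (P n)_n` with
  annihilator `⊥` (`hom`: `isHom_bot`; `gen`: `gen_app`, `Category.id_comp`; `ann`: `hom_ext'`), so `P n ≅ M`
  (`IsCyc.unique`), and `EE (P n) N i = 0` for `i ≥ 3` (`top` with `d = 3`, `hX.dim`).
* `ext_u`: `⊥ ⊔ span {u} = span {u}`; `IsCyc.exists_cover_sup isHom_bot u` gives `0 → K → M' → M → 0` with `Cy M' ⊥`,
  `Cy K (col ⊥ u)`. If `u = 0` then `span {u} = ⊥` and `ext_bot`. Otherwise `col ⊥ u = ⊥` (`A` is a domain: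
  `Ideal.Quotient.isDomain`, `hX.prime`), so `EE K N i = 0` for `i ≥ 3`, `EE M' N i = 0` for `i ≥ 3`, and for
  `ξ ∈ EE M N (i+1)`, `i ≥ 3`: `pre q ξ = 0`, `ξ = dl η` (`pre_exact₃`), `η = 0`.
* `kill_col`: let `Cy K' (col (span {u}) v)` and `s'` with `s' * a ∈ span {u}` for all `a` in `col (span {u}) v`. Then `s'` kills
  `EE K' N (i+1)` for `i ≥ 3`: `IsCyc.exists_cover` with `J = span {u} ≤ col (span {u}) v` gives
  `0 → K₃ → B' → K' → 0`, `Cy B' (span {u})`, `(mulMap X d' s').app K₃ = 0`; `pre q ξ ∈ EE B' N (i+1)` is zero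
  (`ext_u`), so `ξ = dl η`, `η ∈ EE K₃ N i`, `post _ ξ = dl (post _ η) = dl 0` (`post_dl`, `killed_of_mul`).
* `kill_sup`: let `B` be cyclic with annihilator `span {u} ⊔ span {v}` (`IsCyc`) and `s'` as before. Then `s'` kills
  `EE B N (i+1)` for `i ≥ 4`: `IsCyc.exists_cover_sup` with `J = span {u}` gives `0 → K' → M' → B → 0`,
  `Cy M' (span {u})`, `Cy K' (col (span {u}) v)`; `ξ = dl η`, `η ∈ EE K' N i` (`ext_u`, `pre_exact₃`), `kill_col`.
* `ext_point`: `exists_uv`. Case 1 (`u`, `s`): `IsCyc.exists_cover` with `J = span {u} ≤ p`: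
  `0 → K → B → M → 0`, `Cy B (span {u})`, `s` kills `K`. For `ξ ∈ EE M N (i+1)`, `i ≥ 4`: `pre q ξ = 0`, `ξ = dl η`,
  `post (s) ξ = dl (post s η) = 0`, so `ξ = 0` (`eq_zero_of_mul`). Case 2 (`u`, `v`, `s`, `s'`): `IsCyc.exists_cover` with
  `J = span {u} ⊔ span {v} ≤ p`; `ξ ∈ EE M N (i+1)`; `ξ' = post (s') ξ ∈ EE M (N(d')) (i+1)` satisfies
  `pre q ξ' = post (s') (pre q ξ) = 0` (`kill_sup`), so `ξ' = dl η`, `η ∈ EE K (N(d')) i`, `post (s) ξ' = dl (post (s) η) = 0`, so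
  `ξ' = 0` and then `ξ = 0` (`eq_zero_of_mul` twice).
-/

open CategoryTheory CategoryTheory.Limits CategoryTheory.Abelian Opposite

noncomputable section

namespace H40.KuS

open H24.Ku

variable {X : ProjData}

theorem post_dl {S : ShortComplex (Gr X)} (hS : S.ShortExact) {N N' : Gr X} (g : N ⟶ N') {i : ℕ}
    (ξ : EE S.X₁ N i) : post g (dl hS ξ) = dl hS (post g ξ) :=
  Ext.comp_assoc _ _ _ (add_comm 1 i) (add_zero i) (by omega)

/-- A class in the image of `dl` is killed if its preimage is. -/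
theorem S3a_kill {S : ShortComplex (Gr X)} (hS : S.ShortExact) {N N' : Gr X} (g : N ⟶ N') {i : ℕ}
    {ξ : EE S.X₃ N (i + 1)} {η : EE S.X₁ N i} (hη : dl hS η = ξ) (h : post g η = 0) :
    post g ξ = 0 := by
  rw [← hη, post_dl, h, map_zero]

theorem killed_of_mul {d : ℤ} {s : X.piece d} {K : Gr X} (h : (mulMap X d s).app K = 0) {N : Gr X}
    {i : ℕ} (ξ : EE K N i) : post ((mulMap X d s).app N) ξ = 0 := by
  rw [twE_mul, h]
  exact pre_zero _

theorem eq_zero_of_mul {d : ℤ} {s : X.piece d} {M : Gr X}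
    (h : IsIso ((sheaf X).map ((mulMap X d s).app M))) {N : Gr X} {i : ℕ} (ξ : EE M N i)
    (hξ : post ((mulMap X d s).app N) ξ = 0) : ξ = 0 := by
  rw [twE_mul] at hξ
  have h0 : twE d (0 : EE M N i) = 0 := by
    have h1 := twE_add d (0 : EE M N i) 0
    rw [add_zero] at h1
    exact left_eq_add.1 h1
  apply (twE_bijective d M N i).1
  rw [h0]
  apply (pre_bijective_of_isIso (i := i) (N := (twist X d).obj N) ((mulMap X d s).app M)).1
  rw [map_zero]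
  exact hξ

theorem S3a_P (n : Deg X) : IsCyc (P n) n (𝟙 n) (⊥ : Ideal X.A) where
  hom := isHom_bot
  gen := fun m y => ⟨y, (Category.id_comp (X := n) (show n ⟶ m from y)).symm⟩
  ann := by
    intro m a
    have h : ((P n).obj.map a).hom (𝟙 n) = a := Category.id_comp (X := n) a
    rw [h, Ideal.mem_bot]
    constructor
    · intro h1
      exact congrArg (fun b : n ⟶ m => b.1) h1
    · intro h1
      exact hom_ext' h1

theorem ext_bot (hX : IsSmoothSurface X) {M : Gr X} (h : Cy M ⊥) (N : Gr X) {i : ℕ} (hi : 3 ≤ i)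
    (ξ : EE M N i) : ξ = 0 := by
  obtain ⟨n, x, hx⟩ := h
  obtain ⟨e⟩ := IsCyc.unique (S3a_P n) hx
  have h3 : ringKrullDim X.A ≤ ((3 : ℕ) : WithBot ℕ∞) := hX.dim.le
  apply (pre_bijective_of_isIso (i := i) (N := N) e.hom).1
  rw [map_zero]
  exact top h3 N i hi n _

theorem S3a_col (hX : IsSmoothSurface X) {u : X.A} (hu : u ≠ 0) : col (⊥ : Ideal X.A) u = ⊥ := by
  have hp := hX.prime
  have hd : IsDomain X.A := Ideal.Quotient.isDomain X.I
  rw [eq_bot_iff]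
  intro b hb
  rw [mem_col, Ideal.mem_bot] at hb
  rw [Ideal.mem_bot]
  exact (mul_eq_zero.1 hb).resolve_left hu

theorem ext_u (hX : IsSmoothSurface X) {e : ℤ} (u : X.piece e) {M : Gr X}
    (h : Cy M (Ideal.span {u.1})) (N : Gr X) {i : ℕ} (hi : 3 ≤ i) (ξ : EE M N (i + 1)) :
    ξ = 0 := by
  by_cases hu : u.1 = 0
  · rw [hu, Ideal.span_singleton_eq_bot.2 rfl] at h
    exact ext_bot hX h N (by omega) ξ
  · obtain ⟨n, x, hx⟩ := h
    rw [← bot_sup_eq (Ideal.span {u.1})] at hx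
    obtain ⟨K, M', i', q, w, hS, hM', hK⟩ := IsCyc.exists_cover_sup isHom_bot u hx
    rw [S3a_col hX hu] at hK
    obtain ⟨η, hη⟩ := pre_exact₃ hS ξ (ext_bot hX hM' N (by omega) _)
    rw [← hη, ext_bot hX hK N hi η, map_zero]

theorem kill_col (hX : IsSmoothSurface X) {e f : ℤ} (u : X.piece e) (v : X.piece f) {d' : ℤ}
    (s' : X.piece d') (hs : ∀ a ∈ col (Ideal.span {u.1}) v.1, s'.1 * a ∈ Ideal.span {u.1})
    {K' : Gr X} (h : Cy K' (col (Ideal.span {u.1}) v.1)) (N : Gr X) {i : ℕ} (hi : 3 ≤ i)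
    (ξ : EE K' N (i + 1)) : post ((mulMap X d' s').app N) ξ = 0 := by
  obtain ⟨n, y, hy⟩ := h
  obtain ⟨K₃, B', i', q, w, hS, ⟨y', hB'⟩, hkill⟩ :=
    hy.exists_cover (isHom_span_singleton u.2) (fun a ha => Ideal.mul_mem_left _ _ ha)
  obtain ⟨η, hη⟩ := pre_exact₃ hS ξ (ext_u hX u ⟨n, y', hB'⟩ N hi _)
  exact S3a_kill hS _ hη (killed_of_mul (hkill d' s' hs) η)

theorem kill_sup (hX : IsSmoothSurface X) {e f : ℤ} (u : X.piece e) (v : X.piece f) {d' : ℤ}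
    (s' : X.piece d') (hs : ∀ a ∈ col (Ideal.span {u.1}) v.1, s'.1 * a ∈ Ideal.span {u.1})
    {B : Gr X} {n : Deg X} {y : B.obj.obj n} (h : IsCyc B n y (Ideal.span {u.1} ⊔ Ideal.span {v.1}))
    (N : Gr X) {i : ℕ} (hi : 4 ≤ i) (ξ : EE B N (i + 1)) :
    post ((mulMap X d' s').app N) ξ = 0 := by
  obtain ⟨K, M', i', q, w, hS, hM', hK⟩ :=
    IsCyc.exists_cover_sup (isHom_span_singleton u.2) v h
  obtain ⟨j, rfl⟩ : ∃ j, i = j + 1 := ⟨i - 1, by omega⟩
  obtain ⟨η, hη⟩ := pre_exact₃ hS ξ (ext_u hX u hM' N (by omega) _)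
  exact S3a_kill hS _ hη (kill_col hX u v s' hs hK N (by omega) η)

theorem ext_point (hX : IsSmoothSurface X) {p : Ideal X.A} [p.IsPrime] (hirr : ¬ irr X ≤ p)
    {M : Gr X} (h : Cy M p)
    (hs : ∀ (d : ℤ) (s : X.piece d), s.1 ∉ p → IsIso ((sheaf X).map ((mulMap X d s).app M)))
    (N : Gr X) {i : ℕ} (hi : 4 ≤ i) (ξ : EE M N (i + 1)) : ξ = 0 := by
  obtain ⟨n, x, hx⟩ := h
  rcases exists_uv hX hx.hom hirr with ⟨e, u, d, s, hu, hsp, hsu⟩ |
    ⟨e, u, f, v, d, s, d', s', hu, hv, hsp, hsp', hsu, hsu'⟩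
  · obtain ⟨K, B, i', q, w, hS, ⟨y, hB⟩, hkill⟩ := hx.exists_cover (isHom_span_singleton u.2)
      ((Ideal.span_singleton_le_iff_mem p).2 hu)
    obtain ⟨η, hη⟩ := pre_exact₃ hS ξ (ext_u hX u ⟨n, y, hB⟩ N (by omega) _)
    refine eq_zero_of_mul (hs d s hsp) ξ ?_
    exact S3a_kill hS _ hη (killed_of_mul (hkill d s hsu) η)
  · obtain ⟨K, B, i', q, w, hS, ⟨y, hB⟩, hkill⟩ := hx.exists_cover
      (isHom_sup (isHom_span_singleton u.2) (isHom_span_singleton v.2))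
      (sup_le ((Ideal.span_singleton_le_iff_mem p).2 hu)
        ((Ideal.span_singleton_le_iff_mem p).2 hv))
    refine eq_zero_of_mul (hs d' s' hsp') ξ (eq_zero_of_mul (hs d s hsp) _ ?_)
    obtain ⟨η, hη⟩ := pre_exact₃ hS (post ((mulMap X d' s').app N) ξ) (by
      rw [pre_post]
      exact kill_sup hX u v s' hsu' hB N hi _)
    exact S3a_kill hS _ hη (killed_of_mul (hkill d s hsu) η)

end H40.KuS
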