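import Pool.Agent.H40.KuS.S3a
import Pool.Agent.H40.KuS.IsoPt
import Pool.Agent.H40.KuS.MulTw
import Pool.Agent.H40.KuS.LinAlg
import Pool.Agent.H40.KuS.S2

/-!
# KuS-S3b S3b: `Ext^i(M~, N~(t)) = 0` for `i ≥ 5` and `t` large

`Large N M`: there is `t₀` with `EE M (Nt N t) (i + 1) = 0` for all `t ≥ t₀` and all `i ≥ 4`. `X` is a smooth
surface.

* `large_zero`: `EE_eq_zero_of_src`. `large_ext`: `pre_exact₂`, the maximum of the two `t₀`.
* `large_cy`: `devc` with `Q J M := Large N M`. Prime case, `Cy M p`: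
  - `irr X ≤ p`: `finLen_of_cy`, `isZero_sheaf_iff`, `EE_eq_zero_of_src`.
  - otherwise `t = xx i₀ ∉ p` (`irr_le_iff`). If for all `a ∈ A_1` there is `c` with `a - c • t ∈ p`: `ext_point` and
    `iso_of_point`, `t₀ = 0`. Otherwise take `a ∈ A_1` with `a - c • t ∉ p` for all `c`; `s = ⟨t, _⟩`, `s' = ⟨a, _⟩`
    in `X.piece 1`. `Cy.mul_ses` for `s` gives `0 → M → M(1) → C → 0` with `Cy C (p ⊔ span {t})`, so `Large N C`
    by the hypothesis of `hprime` (`p < p ⊔ span {t}`, `isHom_sup`, `isHom_span_singleton`): `t₁`. Fix `i ≥ 4`. Apply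
    `la` to `E t = EE M (Nt N t) (i+1)` (finite dimensional by `finite_EE`), `S t = post (mt s t)`,
    `S' t = post (mt s' t)`, `t₀ = t₁`. `comm`: `post_post`, `mt_comm`. Bijective for `t ≥ t₁`: `mt_inj`, `mt_surj`
    (`EE C (Nt N (t+1)) (i+1)` and `(i+1)+1` vanish). For `c : ℂ`: `s' - c • s ∉ p`, so `Cy.mul_ses` for it gives `C'`
    with `Large N C'`: `t₂`. If `t ≥ t₂` and `S' t x = c • S t x` then `post (mt (s' - c • s) t) x = 0` (`mt_sub_smul`, and
    `post` is additive in the morphism: `post_add`, `post_smul`, e.g. from `mt s' t = mt (s' - c • s) t + c • mt s t`), so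
    `x = 0` (`mt_inj`).
* `ext_large`: `dev` on `M`.
-/

open CategoryTheory CategoryTheory.Limits CategoryTheory.Abelian Opposite

noncomputable section

namespace H40.KuS

open H24.Ku

variable {X : ProjData}

/-- `Ext^i(M~, N~(t)) = 0` for `i ≥ 5` and `t` large. -/
def Large (N M : Gr X) : Prop :=
  ∃ t₀ : ℕ, ∀ t ≥ t₀, ∀ i : ℕ, 4 ≤ i → ∀ ξ : EE M (Nt N t) (i + 1), ξ = 0

theorem large_zero {N M : Gr X} (h : IsZero M) : Large N M :=
  ⟨0, fun _ _ _ _ ξ => EE_eq_zero_of_src ((sheaf X).map_isZero h) ξ⟩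

theorem large_ext {N : Gr X} {S : ShortComplex (Gr X)} (hS : S.ShortExact) (h₁ : Large N S.X₁)
    (h₃ : Large N S.X₃) : Large N S.X₂ := by
  obtain ⟨t₁, h₁⟩ := h₁
  obtain ⟨t₃, h₃⟩ := h₃
  refine ⟨max t₁ t₃, fun t ht i hi ξ => ?_⟩
  have ht1 : t₁ ≤ t := (le_max_left _ _).trans ht
  have ht3 : t₃ ≤ t := (le_max_right _ _).trans ht
  obtain ⟨η, rfl⟩ := pre_exact₂ hS ξ (h₁ t ht1 i hi _)
  rw [h₃ t ht3 i hi η, map_zero]

/-- The case of a curve: two elements of degree one which are independent modulo `p`. -/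
theorem large_curve {N M : Gr X} {p : Ideal X.A} [p.IsPrime] (hp : IsHom p) (h : Cy M p)
    (s s' : X.piece 1) (hs : s.1 ∉ p) (hs' : ∀ c : ℂ, (s' - c • s).1 ∉ p)
    (hC : ∀ J : Ideal X.A, p < J → IsHom J → ∀ C : Gr X, Cy C J → Large N C) : Large N M := by
  have step : ∀ z : X.piece 1, z.1 ∉ p → ∃ (C : Gr X) (q : (twist X 1).obj M ⟶ C)
      (w : (mulMap X 1 z).app M ≫ q = 0),
      (ShortComplex.mk ((mulMap X 1 z).app M) q w).ShortExact ∧ Large N C := by
    intro z hz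
    obtain ⟨C, q, w, hS, hCy⟩ := h.mul_ses z hz
    refine ⟨C, q, w, hS, hC (p ⊔ Ideal.span {z.1}) ?_ (isHom_sup hp (isHom_span_singleton z.2))
      C hCy⟩
    refine lt_of_le_of_ne le_sup_left fun heq => hz ?_
    rw [heq]
    exact (le_sup_right : Ideal.span {z.1} ≤ _) (Ideal.mem_span_singleton_self z.1)
  obtain ⟨C, q, w, hS, t₁, h₁⟩ := step s hs
  refine ⟨t₁, fun t ht i hi => ?_⟩
  have hfin : ∀ t : ℕ, Module.Finite ℂ (EE M (Nt N t) (i + 1)) := fun t => finite_EE _ _ _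
  refine la (E := fun t => EE M (Nt N t) (i + 1)) (fun t => post (mt s t))
    (fun t => post (mt s' t)) (fun t x => ?_) t₁ (fun t ht => ⟨?_, fun ζ => ?_⟩) (fun c => ?_) t ht
  · rw [post_post, post_post, mt_comm]
  · rw [injective_iff_map_eq_zero]
    intro ξ hξ
    exact mt_inj hS (h₁ (t + 1) (by omega) i hi) ξ hξ
  · exact mt_surj hS (h₁ (t + 1) (by omega) (i + 1) (by omega)) ζ
  · obtain ⟨C', q', w', hS', t₂, h₂⟩ := step (s' - c • s) (hs' c)
    refine ⟨t₂, fun t ht x hx => ?_⟩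
    refine mt_inj hS' (h₂ (t + 1) (by omega) i hi) x ?_
    have h3 : mt (N := N) s' t = mt (s' - c • s) t + c • mt s t := by
      rw [mt_sub_smul, sub_add_cancel]
    have h4 : post (mt s' t) x = c • post (mt s t) x := hx
    rw [h3, post_add, post_smul] at h4
    exact add_eq_right.1 h4

theorem large_cy (hX : IsSmoothSurface X) (N : Gr X) {J : Ideal X.A} {M : Gr X} (h : Cy M J) :
    Large N M := by
  refine devc (fun _ M => Large N M) (fun _ M hM => large_zero hM)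
    (fun _ _ _ S hS _ _ h1 h3 => large_ext hS h1 h3) ?_ J M h
  intro p hpr hp hC M h
  by_cases hirr : irr X ≤ p
  · have h0 : IsZero ((sheaf X).obj M) := (isZero_sheaf_iff X M).2 (finLen_of_cy h hirr)
    exact ⟨0, fun _ _ _ _ ξ => EE_eq_zero_of_src h0 ξ⟩
  have h1 : ∃ i, xx i ∉ p := by
    by_contra hc
    push Not at hc
    exact hirr (irr_le_iff.2 hc)
  obtain ⟨i₀, hi₀⟩ := h1
  by_cases h2 : ∀ a ∈ X.piece 1, ∃ c : ℂ, a - c • xx i₀ ∈ p
  · exact ⟨0, fun t _ i hi ξ => ext_point hX hirr h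
      (fun d s hs => iso_of_point (xx_mem i₀) hi₀ h2 h s hs) _ hi ξ⟩
  · push Not at h2
    obtain ⟨a, ha, h3⟩ := h2
    exact large_curve hp h ⟨xx i₀, xx_mem i₀⟩ ⟨a, ha⟩ hi₀ h3 hC

theorem ext_large (hX : IsSmoothSurface X) (M N : Gr X) : Large N M :=
  dev (fun M => Large N M) (fun _ hM => large_zero hM)
    (fun _ hS h1 h3 => large_ext hS h1 h3) (fun _ _ h => large_cy hX N h) M

end H40.KuS
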