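import Pool.Agent.H40.KuS.S1Main
import Pool.Agent.H40.KuS.RingDim

/-!
# KuS-TOP Top: cohomological dimension

`VanFrom c M`: `Ext^i(𝒪(-n), M~) = 0` for all `i ≥ c` and all `n`.

* `sup_span_ne_top`: if `1 = j + c z` with `j ∈ J` then by `comp 0`: `comp 0 1 = 1` (`comp_of_mem`, `1 ∈ A_0` is
  `ProjData.one_mem_piece`), `comp 0 (z * c) = z * comp (0 - d) c` (`comp_mul`) and `comp (-d) c = 0`
  (`comp_mem`, `eq_zero_of_mem_neg`). So `1 = comp 0 j ∈ J`.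
* `vanFrom_zero`: `(sheaf X).obj M` is zero (`Functor.map_isZero`), `EE_eq_zero_of_tgt`.
* `vanFrom_ext`: `post_exact₂`.
* `top_cy`: `devc` with `Q J M := ∀ d : ℕ, ringKrullDim (X.A ⧸ J) ≤ d → VanFrom d M`. `hzero`, `hext`:
  `vanFrom_zero`, `vanFrom_ext` and `dim_mono`. Prime case: if `irr X ≤ p` the sheaf is zero (`finLen_of_cy`,
  `isZero_sheaf_iff`). Otherwise `z = xx i ∉ p` for some `i` (`irr_le_iff`), `p ⊔ span {z} ≠ ⊤` (`sup_span_ne_top`,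
  `p ≠ ⊤`), so `1 ≤ d` and `dim A/(p ⊔ (z)) ≤ d - 1` (`dim_drop`). `Cy.mul_ses` (for `z' = ⟨xx i, xx_mem i⟩ : X.piece 1`)
  gives `0 → M → M(1) → C → 0` with `Cy C (p ⊔ (z))`, so `VanFrom (d-1) C` by hypothesis. For `i ≥ d`, write
  `i = i' + 1`: `pre (zm z' n)` is injective on `EE (P n) M (i'+1)` for all `n` (`z_inj`), and
  `pre (Pm a) ξ ∈ EE (P m) M (i'+1)` is zero for `m` large by `(s1 M).1 : Van M`; `eq_zero_of_killed`.
* `top`: `dev` with `Q M := VanFrom d M`; for `Cy M J`: `top_cy` and `ringKrullDim_quotient_le`.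
-/

open CategoryTheory CategoryTheory.Limits CategoryTheory.Abelian Opposite

noncomputable section

namespace H40.KuS

open H24.Ku

variable {X : ProjData}

theorem sup_span_ne_top {J : Ideal X.A} (hJ : IsHom J) (hne : J ≠ ⊤) {d : ℤ} (hd : 0 < d) {z : X.A}
    (hz : z ∈ X.piece d) : J ⊔ Ideal.span {z} ≠ ⊤ := by
  intro htop
  have h1 : (1 : X.A) ∈ J ⊔ Ideal.span {z} := by rw [htop]; exact Submodule.mem_top
  obtain ⟨y, hy, w, hw, hyw⟩ := Submodule.mem_sup.1 h1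
  obtain ⟨c, rfl⟩ := Ideal.mem_span_singleton'.1 hw
  have h2 : comp 0 (1 : X.A) = 1 := comp_of_mem ProjData.one_mem_piece
  have h3 : comp 0 (c * z) = 0 := by
    rw [mul_comm, comp_mul hz, eq_zero_of_mem_neg (by omega) (comp_mem (0 - d) c), mul_zero]
  have h4 : comp 0 y = 1 := by
    rw [← h2, ← hyw, map_add, h3, add_zero]
  exact hne ((Ideal.eq_top_iff_one J).2 (h4 ▸ hJ y hy 0))

/-- `Ext^i(𝒪(-n), M~) = 0` for all `i ≥ c` and all `n`. -/
def VanFrom (c : ℕ) (M : Gr X) : Prop := ∀ (i : ℕ), c ≤ i → ∀ (n : Deg X) (ξ : EE (P n) M i), ξ = 0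

theorem vanFrom_zero {M : Gr X} (h : IsZero M) (c : ℕ) : VanFrom c M :=
  fun _ _ _ ξ => EE_eq_zero_of_tgt ((sheaf X).map_isZero h) ξ

theorem vanFrom_ext {S : ShortComplex (Gr X)} (hS : S.ShortExact) {c : ℕ} (h₁ : VanFrom c S.X₁)
    (h₃ : VanFrom c S.X₃) : VanFrom c S.X₂ := by
  intro i hi n ξ
  obtain ⟨η, hη⟩ := post_exact₂ hS ξ (h₃ i hi n _)
  rw [← hη, h₁ i hi n η, map_zero]

theorem top_cy {J : Ideal X.A} {M : Gr X} (h : Cy M J) {d : ℕ}
    (hd : ringKrullDim (X.A ⧸ J) ≤ (d : WithBot ℕ∞)) : VanFrom d M := by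
  refine devc (fun J M => ∀ d : ℕ, ringKrullDim (X.A ⧸ J) ≤ (d : WithBot ℕ∞) → VanFrom d M)
    (fun J M hM d _ => vanFrom_zero hM d)
    (fun J J' J'' S hS hJ' hJ'' hQ1 hQ3 d hd => vanFrom_ext hS
      (hQ1 d ((dim_mono hJ').trans hd)) (hQ3 d ((dim_mono hJ'').trans hd)))
    ?_ J M h d hd
  intro p hp hom ih M hM d hd
  by_cases hirr : irr X ≤ p
  · intro i _ n ξ
    exact EE_eq_zero_of_tgt ((isZero_sheaf_iff X M).2 (finLen_of_cy hM hirr)) ξ
  · rw [irr_le_iff] at hirr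
    push Not at hirr
    obtain ⟨j, hj⟩ := hirr
    obtain ⟨C, q, w, hS, hC⟩ := hM.mul_ses (⟨xx j, xx_mem j⟩ : X.piece 1) hj
    have hne : p ⊔ Ideal.span {xx j} ≠ ⊤ :=
      sup_span_ne_top hom hp.ne_top one_pos (xx_mem j)
    obtain ⟨hd1, hd2⟩ := dim_drop hj hne hd
    have hlt : p < p ⊔ Ideal.span {xx j} := by
      refine lt_of_le_of_ne le_sup_left fun heq => hj ?_
      rw [heq]
      exact (le_sup_right : Ideal.span {xx j} ≤ _) (Ideal.mem_span_singleton_self _)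
    have hVC : VanFrom (d - 1) C := ih _ hlt (isHom_sup hom (isHom_span_singleton (xx_mem j))) C
      hC (d - 1) hd2
    intro i hi n ξ
    obtain ⟨i', rfl⟩ : ∃ i', i = i' + 1 := ⟨i - 1, by omega⟩
    obtain ⟨k, hk⟩ := (s1 M).1
    refine eq_zero_of_killed (z := (⟨xx j, xx_mem j⟩ : X.piece 1)) (k₀ := n.deg) (k := k)
      (fun n' _ ξ' h' => ?_) le_rfl ξ (fun m hm a => hk m hm i' _)
    exact z_inj hS (fun η => hVC i' (by omega) n' η) ξ' h'

theorem top {d : ℕ} (hd : ringKrullDim X.A ≤ (d : WithBot ℕ∞)) (M : Gr X) : VanFrom d M :=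
  dev (fun M => VanFrom d M) (fun _ hM => vanFrom_zero hM d)
    (fun _ hS h₁ h₃ => vanFrom_ext hS h₁ h₃)
    (fun J _ h => top_cy h ((ringKrullDim_quotient_le J).trans hd)) M

end H40.KuS
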