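import Pool.Agent.H40.KuS.S3b
import Pool.Agent.H40.KuS.Top

/-!
# KuS-S3c S3c: finite homological dimension

`X` is a smooth surface, `M` is fixed.

* `down`: let `s ∈ A_1`, `s ∉ p`, `Cy N p`, `i : ℕ`, and assume `EE M C i = 0` for all `C` with `Cy C (p ⊔ span {s})`. For
  each `t : ℕ` the module `Nt N t` satisfies `Cy (Nt N t) p` (`Cy.twist`), so `Cy.mul_ses` gives
  `0 → N(t) → N(t)(1) → C → 0` with `Cy C (p ⊔ span {s})`; so `post ((mulMap X 1 s).app (Nt N t))` is injective on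
  `EE M (Nt N t) (i+1)` (`post_exact₁`), hence if `EE M (Nt N (t+1)) (i+1) = 0` then
  `EE M (N(t)(1)) (i+1) = 0` (`post_bijective_of_isIso (mtIso N t).hom`) and `EE M (Nt N t) (i+1) = 0`.
  By `ext_large` (`4 ≤ i`) and descending induction on `t`: `EE M (Nt N 0) (i+1) = 0`, and `N ≅ N(0)`
  (`twistZero` in `H24/Ku/Twist.lean`), so `EE M N (i+1) = 0`.
* `gldim_cy`: `devc` with `Q J N := ∀ d : ℕ, ringKrullDim (X.A ⧸ J) ≤ d → ∀ i ≥ 4 + d, ∀ ξ : EE M N (i+1), ξ = 0`.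
  `hzero`: `EE_eq_zero_of_tgt`. `hext`: `post_exact₂`, `dim_mono`. Prime case: `irr X ≤ p`: the sheaf of `N` is zero.
  Otherwise `xx i₀ ∉ p`; `p ⊔ span {xx i₀} ≠ ⊤` (`sup_span_ne_top`), so `1 ≤ d` and `dim A/(p ⊔ (xx i₀)) ≤ d - 1`
  (`dim_drop`); for `i ≥ 4 + d` write `i = i' + 1`, `i' ≥ 4 + (d - 1)`: `EE M C (i'+1) = 0` for all `C` as in `down`
  by the hypothesis; so `down` (with `i = i' + 1 ≥ 4`) gives `EE M N (i+1) = 0`.
* `gldim`: `dev` on `N` with `Q N := ∀ ξ : EE M N (i+1), ξ = 0` (`i ≥ 7`), `gldim_cy` with `d = 3`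
  (`ringKrullDim_quotient_le`, `hX.dim`).
-/

open CategoryTheory CategoryTheory.Limits CategoryTheory.Abelian Opposite

noncomputable section

namespace H40.KuS

open H24.Ku

variable {X : ProjData}

theorem down (hX : IsSmoothSurface X) (M : Gr X) {N : Gr X} {p : Ideal X.A} [p.IsPrime]
    (h : Cy N p) (s : X.piece 1) (hs : s.1 ∉ p) {i : ℕ} (hi : 4 ≤ i)
    (hC : ∀ C : Gr X, Cy C (p ⊔ Ideal.span {s.1}) → ∀ ξ : EE M C i, ξ = 0)
    (ξ : EE M N (i + 1)) : ξ = 0 := by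
  obtain ⟨t₀, ht₀⟩ := ext_large hX M N
  have key : ∀ k t : ℕ, t₀ ≤ t + k → ∀ ξ : EE M (Nt N t) (i + 1), ξ = 0 := by
    intro k
    induction k with
    | zero => exact fun t ht ξ => ht₀ t ht i hi ξ
    | succ k ih =>
      intro t ht ξ
      obtain ⟨C, q, w, hS, hC'⟩ := (h.twist (t : ℤ)).mul_ses s hs
      have h1 : post (mtIso N t).hom (post ((mulMap X 1 s).app (Nt N t)) ξ) = 0 :=
        ih (t + 1) (by omega) _
      have h2 : post ((mulMap X 1 s).app (Nt N t)) ξ = 0 :=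
        (post_bijective_of_isIso (M := M) (i := i + 1) (mtIso N t).hom).1
          (h1.trans (map_zero (post (mtIso N t).hom)).symm)
      obtain ⟨η, hη⟩ := post_exact₁ hS ξ h2
      rw [← hη, hC C hC' η, map_zero]
  have h3 : post ((twistZero X).app N).inv ξ = 0 := key t₀ 0 (by omega) _
  exact (post_bijective_of_isIso (M := M) (i := i + 1) ((twistZero X).app N).inv).1
    (h3.trans (map_zero (post ((twistZero X).app N).inv)).symm)

theorem gldim_cy (hX : IsSmoothSurface X) (M : Gr X) {J : Ideal X.A} {N : Gr X} (h : Cy N J)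
    {d : ℕ} (hd : ringKrullDim (X.A ⧸ J) ≤ (d : WithBot ℕ∞)) {i : ℕ} (hi : 4 + d ≤ i)
    (ξ : EE M N (i + 1)) : ξ = 0 := by
  refine devc (fun J N => ∀ d : ℕ, ringKrullDim (X.A ⧸ J) ≤ (d : WithBot ℕ∞) →
      ∀ i : ℕ, 4 + d ≤ i → ∀ ξ : EE M N (i + 1), ξ = 0)
    (fun J N hN d _ i _ ξ => EE_eq_zero_of_tgt ((sheaf X).map_isZero hN) ξ)
    (fun J J' J'' S hS hJ' hJ'' hQ1 hQ3 d hd i hi ξ => ?_) ?_ J N h d hd i hi ξ
  · obtain ⟨η, hη⟩ := post_exact₂ hS ξ (hQ3 d ((dim_mono hJ'').trans hd) i hi _)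
    rw [← hη, hQ1 d ((dim_mono hJ').trans hd) i hi η, map_zero]
  intro p hp hom ih N hN d hd i hi ξ
  by_cases hirr : irr X ≤ p
  · exact EE_eq_zero_of_tgt ((isZero_sheaf_iff X N).2 (finLen_of_cy hN hirr)) ξ
  · rw [irr_le_iff] at hirr
    push Not at hirr
    obtain ⟨j, hj⟩ := hirr
    have hne : p ⊔ Ideal.span {xx j} ≠ ⊤ :=
      sup_span_ne_top hom hp.ne_top one_pos (xx_mem j)
    obtain ⟨hd1, hd2⟩ := dim_drop hj hne hd
    have hlt : p < p ⊔ Ideal.span {xx j} := by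
      refine lt_of_le_of_ne le_sup_left fun heq => hj ?_
      rw [heq]
      exact (le_sup_right : Ideal.span {xx j} ≤ _) (Ideal.mem_span_singleton_self _)
    obtain ⟨i', rfl⟩ : ∃ i', i = i' + 1 := ⟨i - 1, by omega⟩
    refine down hX M hN (⟨xx j, xx_mem j⟩ : X.piece 1) hj (by omega) (fun C hC ζ => ?_) ξ
    exact ih _ hlt (isHom_sup hom (isHom_span_singleton (xx_mem j))) C hC (d - 1) hd2 i'
      (by omega) ζ

theorem gldim (hX : IsSmoothSurface X) (M N : Gr X) {i : ℕ} (hi : 7 ≤ i) (ξ : EE M N (i + 1)) :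
    ξ = 0 :=
  dev (fun N => ∀ ξ : EE M N (i + 1), ξ = 0)
    (fun N hN ξ => EE_eq_zero_of_tgt ((sheaf X).map_isZero hN) ξ)
    (fun S hS h1 h3 ξ => by
      obtain ⟨η, hη⟩ := post_exact₂ hS ξ (h3 _)
      rw [← hη, h1 η, map_zero])
    (fun J N h ξ => gldim_cy hX M h (d := 3)
      ((ringKrullDim_quotient_le J).trans hX.dim.le) (by omega) ξ) N ξ

end H40.KuS
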