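import Pool.Agent.H40.KuS.ExtTw

/-!
# KuS-T2 Th: `Ext^i(𝒪(-n-d), M~) = Ext^i(𝒪(-n), M(d)~)`

`Th d n : EE (P ⟨n.deg + d⟩) M i → EE (P n) (M(d)) i`, `ξ ↦ pre (twP d n).hom (twE d ξ)`.

* `Th_bijective`: `twE_bijective` and `pre_bijective_of_isIso`.
* `Th_mul`: `twE_mul`, `twE_pre`, `pre_pre` and `twP_hom_comp`.
* `Th_gen`: `twE_sm`, `sm_comp_sm`, and `(twP d n).hom ≫ (twist X d).map (gen y) = gen y` (`gen_ext`).
-/

open CategoryTheory CategoryTheory.Limits CategoryTheory.Abelian Opposite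

noncomputable section

namespace H40.KuS

open H24.Ku

variable {X : ProjData}

/-- The identification `Ext^i(𝒪(-n-d), M~) = Ext^i(𝒪(-n), M(d)~)`. -/
def Th (d : ℤ) (n : Deg X) {M : Gr X} {i : ℕ} (ξ : EE (P ⟨n.deg + d⟩) M i) :
    EE (P n) ((twist X d).obj M) i :=
  pre (twP d n).hom (twE d ξ)

theorem Th_add (d : ℤ) (n : Deg X) {M : Gr X} {i : ℕ} (ξ η : EE (P ⟨n.deg + d⟩) M i) :
    Th d n (ξ + η) = Th d n ξ + Th d n η := by
  rw [Th, twE_add, map_add, Th, Th]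

theorem Th_smul (d : ℤ) (n : Deg X) {M : Gr X} {i : ℕ} (c : ℂ) (ξ : EE (P ⟨n.deg + d⟩) M i) :
    Th d n (c • ξ) = c • Th d n ξ := by
  rw [Th, twE_smul, map_smul, Th]

theorem Th_bijective (d : ℤ) (n : Deg X) (M : Gr X) (i : ℕ) :
    Function.Bijective
      (Th d n : EE (P ⟨n.deg + d⟩) M i → EE (P n) ((twist X d).obj M) i) :=
  (pre_bijective_of_isIso (twP d n).hom).comp (twE_bijective d (P ⟨n.deg + d⟩) M i)

/-- `Th` is compatible with the multiplication by `z ∈ A_d` on both sides. -/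
theorem Th_mul {d : ℤ} (z : X.piece d) (n : Deg X) {M : Gr X} {i : ℕ} (ξ : EE (P n) M i) :
    Th d n (pre (Pm (dh z.1 z.2 rfl : n ⟶ ⟨n.deg + d⟩)) ξ) = post ((mulMap X d z).app M) ξ := by
  rw [Th, twE_pre, pre_pre, twP_hom_comp, twE_mul]

/-- `Th` and elements: an element of `M_{n+d}` is an element of `M(d)_n`. -/
theorem Th_gen (d : ℤ) (n : Deg X) {M : Gr X} (y : M.obj.obj ⟨n.deg + d⟩) :
    Th d n (sm (gen y)) = sm (gen (M := (twist X d).obj M) (n := n) y) := by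
  have h : (twP d n).hom ≫ (twist X d).map (gen y) = gen (M := (twist X d).obj M) (n := n) y := by
    refine gen_ext ?_
    rw [gen_one]
    exact map_id' M y
  rw [Th, twE_sm, pre_apply, sm_comp_sm, h]

end H40.KuS
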